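import Mathlib

/-!
# Data of a simple polytope `{y : ⟨x_l, y⟩ ≤ 1}` and product type
-/

set_option autoImplicit false

open Finset
open scoped InnerProductSpace

namespace Pool.Agent.Helper66.CapBig

variable {N k : ℕ} {E : Type} [NormedAddCommGroup E] [InnerProductSpace ℝ E]

/-- The slack of the `l`-th constraint at the vertex `J`. -/
noncomputable def sl (x : Fin N → E) (v : Finset (Fin N) → E) (l : Fin N)
    (J : Finset (Fin N)) : ℝ := 1 - ⟪x l, v J⟫_ℝ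

/-- The vertices of the simple polytope `{y : ⟨x_l, y⟩ ≤ 1 for all l}`, indexed by the sets `J`
of the constraints which are not tight, with the weights `P J` of the cone-volume type. -/
structure GP (k : ℕ) (x : Fin N → E) (V : Finset (Finset (Fin N))) (P : Finset (Fin N) → ℝ)
    (v : Finset (Fin N) → E) : Prop where
  nonempty : V.Nonempty
  card : ∀ J ∈ V, J.card = k
  tight : ∀ J ∈ V, ∀ l, l ∉ J → ⟪x l, v J⟫_ℝ = 1
  slack : ∀ J ∈ V, ∀ l ∈ J, ⟪x l, v J⟫_ℝ < 1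
  pos : ∀ J ∈ V, 0 < P J
  sum_one : ∑ J ∈ V, P J = 1
  mean : ∀ y, ∑ J ∈ V, P J * ⟪v J, y⟫_ℝ = 0
  cross : ∀ y z, ∑ J ∈ V, P J * ⟪v J, y⟫_ℝ * ⟪∑ l ∈ J, x l, z⟫_ℝ = -⟪y, z⟫_ℝ
  span : ∀ J ∈ V, ∀ y, (∀ l, l ∉ J → ⟪x l, y⟫_ℝ = 0) → y = 0
  piv : ∀ J ∈ V, ∀ w, w ∉ J → ∃ a ∈ J, insert w (J.erase a) ∈ V ∧
    P J * sl x v a J = P (insert w (J.erase a)) * sl x v w (insert w (J.erase a))
  uniq : ∀ J ∈ V, ∀ w, w ∉ J → ∀ a ∈ J, ∀ a' ∈ J,
    insert w (J.erase a) ∈ V → insert w (J.erase a') ∈ V → a = a'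

/-- The vertices are exactly the transversals of the partition given by `g`. -/
def ProdType (k : ℕ) (V : Finset (Finset (Fin N))) (g : Fin N → Fin k) : Prop :=
  ∀ J : Finset (Fin N), J ∈ V ↔ (J.card = k ∧ ∀ c, ∃ l ∈ J, g l = c)

/-- The transversals of the partition given by `g`, as functions. -/
def Tr (k : ℕ) (g : Fin N → Fin k) : Finset (Fin k → Fin N) :=
  Fintype.piFinset fun c => univ.filter fun l => g l = c

/-- Product data: a partition `g`, a product measure `β` on its transversals and points `v T` with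
the right tight constraints and with mean zero. -/
structure PD (k : ℕ) (x : Fin N → E) (g : Fin N → Fin k) (β : Fin N → ℝ)
    (v : (Fin k → Fin N) → E) : Prop where
  nonneg : ∀ l, 0 ≤ β l
  sum_one : ∀ c, ∑ l ∈ univ.filter (fun l => g l = c), β l = 1
  tight : ∀ T ∈ Tr k g, ∀ l, (∀ c, T c ≠ l) → ⟪x l, v T⟫_ℝ = 1
  mean : ∀ y, ∑ T ∈ Tr k g, (∏ c, β (T c)) * ⟪v T, y⟫_ℝ = 0

end Pool.Agent.Helper66.CapBig
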