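import Mathlib
import Pool.Agent.Helper66.CapBig.Defs
import Pool.Agent.Helper66.CapCover.Ineq
import Pool.Agent.Helper66.CapCover.Perturb

/-!
# Perturbation to general position, with norms at most one
-/

set_option autoImplicit false

open Finset Matrix Filter Topology
open scoped InnerProductSpace

namespace Pool.Agent.Helper66.CapBig

open Pool.Agent.Helper66.CapCover

theorem exists_approx {n N : ℕ} (hn : 0 < n) (x : Fin N → EuclideanSpace ℝ (Fin n))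
    (hx : ∀ j, ‖x j‖ ≤ 1) (hpos : ∀ y, y ≠ 0 → ∃ i, 0 < ⟪x i, y⟫_ℝ) (R : ℝ)
    (hR : ∀ y, (∀ i, ⟪x i, y⟫_ℝ ≤ 1) → ‖y‖ ≤ R) (ε : ℝ) (hε : 0 < ε) :
    ∃ x' : Fin N → EuclideanSpace ℝ (Fin n), (∀ j, ‖x' j - x j‖ ≤ ε) ∧ (∀ j, ‖x' j‖ ≤ 1) ∧
      (∀ y, y ≠ 0 → ∃ i, 0 < ⟪x' i, y⟫_ℝ) ∧
      (∀ v, (univ.filter fun i => ⟪x' i, v⟫_ℝ = 1).card ≤ n) ∧
      ∀ y, (∀ i, ⟪x' i, y⟫_ℝ ≤ 1) → ‖y‖ ≤ R + ε := by
  classical
  let X : Fin N → Fin n → ℝ := fun i => (x i).ofLp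
  have hposX : ∀ y : Fin n → ℝ, y ≠ 0 → ∃ i, 0 < X i ⬝ᵥ y := by
    intro y hy
    obtain ⟨i, hi⟩ := hpos (WithLp.toLp 2 y) (by
      intro h
      apply hy
      have := congrArg WithLp.ofLp h
      simpa using this)
    refine ⟨i, ?_⟩
    rw [inner_eq_dot] at hi
    exact hi
  obtain ⟨η, hη, hev⟩ := eventually_eta X hn hposX
  have hR0 : 0 ≤ R := by
    have := hR 0 (fun i => by rw [inner_zero_right]; exact zero_le_one)
    rwa [norm_zero] at this
  -- the size of the perturbation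
  have hA : 0 < R * (1 + 2 * n / η) + 1 := by positivity
  obtain ⟨τ, hτ, hτ1, hτ2, hτ3⟩ : ∃ τ : ℝ, 0 < τ ∧ τ ≤ 1 ∧ 2 * τ ≤ ε ∧
      τ * (R * (1 + 2 * n / η)) ≤ ε := by
    refine ⟨min 1 (min (ε / 2) (ε / (R * (1 + 2 * n / η) + 1))), by positivity,
      min_le_left _ _, ?_, ?_⟩
    · have h1 : min 1 (min (ε / 2) (ε / (R * (1 + 2 * n / η) + 1))) ≤ ε / 2 :=
        (min_le_right _ _).trans (min_le_left _ _)
      linarith
    · have h1 : min 1 (min (ε / 2) (ε / (R * (1 + 2 * n / η) + 1))) ≤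
          ε / (R * (1 + 2 * n / η) + 1) := (min_le_right _ _).trans (min_le_right _ _)
      have h2 : 0 ≤ R * (1 + 2 * n / η) := by positivity
      calc min 1 (min (ε / 2) (ε / (R * (1 + 2 * n / η) + 1))) * (R * (1 + 2 * n / η))
          ≤ ε / (R * (1 + 2 * n / η) + 1) * (R * (1 + 2 * n / η)) :=
            mul_le_mul_of_nonneg_right h1 h2
        _ = ε * ((R * (1 + 2 * n / η)) / (R * (1 + 2 * n / η) + 1)) := by ring
        _ ≤ ε * 1 := by
            apply mul_le_mul_of_nonneg_left _ hε.le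
            rw [div_le_one hA]
            linarith
        _ = ε := mul_one ε
  let P : ℝ → Fin N → EuclideanSpace ℝ (Fin n) := fun δ i => WithLp.toLp 2 (pert X δ i)
  have hPlim : ∀ j, Tendsto (fun δ => P δ j) atTop (𝓝 (x j)) := by
    intro j
    have h1 : Tendsto (fun δ => pert X δ j) atTop (𝓝 (X j)) :=
      ((continuous_apply j).tendsto X).comp (pert_tendsto X)
    have h2 := ((PiLp.continuous_toLp 2 (fun _ : Fin n => ℝ)).tendsto (X j)).comp h1
    exact h2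
  have hE1 : ∀ᶠ δ : ℝ in atTop, ∀ j, ‖P δ j - x j‖ ≤ τ := by
    rw [eventually_all]
    intro j
    have h1 : Tendsto (fun δ => ‖P δ j - x j‖) atTop (𝓝 0) := by
      have := ((hPlim j).sub_const (x j)).norm
      simpa using this
    exact h1.eventually (ge_mem_nhds hτ)
  have hE2 : ∀ᶠ δ : ℝ in atTop, ‖pert X δ - X‖ ≤ τ := by
    have h1 : Tendsto (fun δ => ‖pert X δ - X‖) atTop (𝓝 0) := by
      have := ((pert_tendsto X).sub_const X).norm
      simpa using this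
    exact h1.eventually (ge_mem_nhds hτ)
  obtain ⟨δ, ⟨⟨h1, h2⟩, h3⟩, h4⟩ := (((hE1.and hE2).and hev).and (eventually_generic X)).exists
  have hτp : 0 < 1 + τ := by linarith
  have hin : ∀ i y, ⟪(1 + τ)⁻¹ • P δ i, y⟫_ℝ = (1 + τ)⁻¹ * (pert X δ i ⬝ᵥ y.ofLp) := by
    intro i y
    rw [real_inner_smul_left, inner_eq_dot]
  have hPn : ∀ j, ‖P δ j‖ ≤ 1 + τ := by
    intro j
    calc ‖P δ j‖ = ‖(P δ j - x j) + x j‖ := by rw [sub_add_cancel]
      _ ≤ ‖P δ j - x j‖ + ‖x j‖ := norm_add_le _ _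
      _ ≤ τ + 1 := add_le_add (h1 j) (hx j)
      _ = 1 + τ := add_comm _ _
  refine ⟨fun i => (1 + τ)⁻¹ • P δ i, ?_, ?_, ?_, ?_, ?_⟩
  · intro j
    have h5 : (1 + τ)⁻¹ • P δ j - x j = (P δ j - x j) - (τ * (1 + τ)⁻¹) • P δ j := by
      have h6 : (τ * (1 + τ)⁻¹) = 1 - (1 + τ)⁻¹ := by field_simp; ring
      rw [h6, sub_smul, one_smul]
      abel
    rw [h5]
    calc ‖(P δ j - x j) - (τ * (1 + τ)⁻¹) • P δ j‖
        ≤ ‖P δ j - x j‖ + ‖(τ * (1 + τ)⁻¹) • P δ j‖ := norm_sub_le _ _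
      _ = ‖P δ j - x j‖ + (τ * (1 + τ)⁻¹) * ‖P δ j‖ := by
          rw [norm_smul, Real.norm_of_nonneg (by positivity)]
      _ ≤ τ + (τ * (1 + τ)⁻¹) * (1 + τ) := by
          apply add_le_add (h1 j)
          exact mul_le_mul_of_nonneg_left (hPn j) (by positivity)
      _ = 2 * τ := by field_simp; ring
      _ ≤ ε := hτ2
  · intro j
    rw [norm_smul, Real.norm_of_nonneg (by positivity)]
    calc (1 + τ)⁻¹ * ‖P δ j‖ ≤ (1 + τ)⁻¹ * (1 + τ) :=
          mul_le_mul_of_nonneg_left (hPn j) (by positivity)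
      _ = 1 := inv_mul_cancel₀ hτp.ne'
  · intro y hy
    obtain ⟨i, hi⟩ := h3 y.ofLp
    refine ⟨i, ?_⟩
    rw [hin]
    have hy0 : y.ofLp ≠ 0 := by
      intro h
      apply hy
      ext c
      have := congrFun h c
      simpa using this
    have h5 : 0 < η * ‖y.ofLp‖ := mul_pos hη (norm_pos_iff.2 hy0)
    have h6 : 0 < pert X δ i ⬝ᵥ y.ofLp := lt_of_lt_of_le h5 hi
    positivity
  · intro v
    have h5 : (univ.filter fun i => ⟪(1 + τ)⁻¹ • P δ i, v⟫_ℝ = 1) =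
        (univ.filter fun i => pert X δ i ⬝ᵥ ((1 + τ)⁻¹ • v.ofLp) = 1) := by
      apply Finset.filter_congr
      intro i _
      rw [hin, dotProduct_smul, smul_eq_mul]
    rw [h5]
    exact h4 _
  · intro y hy
    have h5 : ∀ i, pert X δ i ⬝ᵥ y.ofLp ≤ 1 + τ := by
      intro i
      have h6 := hy i
      rw [hin] at h6
      have h7 := mul_le_mul_of_nonneg_left h6 hτp.le
      rwa [← mul_assoc, mul_inv_cancel₀ hτp.ne', one_mul, mul_one] at h7
    obtain ⟨i0, hi0⟩ := h3 y.ofLp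
    have h6 : ‖y.ofLp‖ ≤ 2 / η := by
      rw [le_div_iff₀ hη, mul_comm]
      have := h5 i0
      linarith
    have hs : 0 < 1 + τ + n * τ * (2 / η) := by positivity
    have h7 : ∀ i, ⟪x i, y⟫_ℝ ≤ 1 + τ + n * τ * (2 / η) := by
      intro i
      rw [inner_eq_dot]
      have h8 : |(pert X δ - X) i ⬝ᵥ y.ofLp| ≤ n * τ * (2 / η) := by
        calc |(pert X δ - X) i ⬝ᵥ y.ofLp| ≤ n * ‖(pert X δ - X) i‖ * ‖y.ofLp‖ :=
              abs_dotProduct_le _ _
          _ ≤ n * τ * (2 / η) := by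
              have h9 : ‖(pert X δ - X) i‖ ≤ τ := (norm_le_pi_norm _ i).trans h2
              gcongr
      have h9 : (x i).ofLp ⬝ᵥ y.ofLp = pert X δ i ⬝ᵥ y.ofLp - (pert X δ - X) i ⬝ᵥ y.ofLp := by
        rw [Pi.sub_apply, sub_dotProduct]
        show X i ⬝ᵥ y.ofLp = _
        ring
      rw [h9]
      have h10 := (abs_le.1 h8).1
      have h11 := h5 i
      linarith
    have h8 := hR ((1 + τ + n * τ * (2 / η))⁻¹ • y) (by
      intro i
      rw [real_inner_smul_right]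
      calc (1 + τ + n * τ * (2 / η))⁻¹ * ⟪x i, y⟫_ℝ
          ≤ (1 + τ + n * τ * (2 / η))⁻¹ * (1 + τ + n * τ * (2 / η)) :=
            mul_le_mul_of_nonneg_left (h7 i) (by positivity)
        _ = 1 := inv_mul_cancel₀ hs.ne')
    rw [norm_smul, Real.norm_of_nonneg (by positivity)] at h8
    have h9 : ‖y‖ ≤ R * (1 + τ + n * τ * (2 / η)) := by
      have := mul_le_mul_of_nonneg_left h8 hs.le
      rwa [← mul_assoc, mul_inv_cancel₀ hs.ne', one_mul, mul_comm] at this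
    calc ‖y‖ ≤ R * (1 + τ + n * τ * (2 / η)) := h9
      _ = R + τ * (R * (1 + 2 * n / η)) := by ring
      _ ≤ R + ε := by linarith

end Pool.Agent.Helper66.CapBig
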