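import Mathlib
import Pool.Agent.Helper66.CapBig.Defs

/-!
# A vertex all of whose neighbours are close to the ideal ones
-/

set_option autoImplicit false

open Finset
open scoped InnerProductSpace

namespace Pool.Agent.Helper66.CapBig

variable {N k : ℕ} {E : Type} [NormedAddCommGroup E] [InnerProductSpace ℝ E]

/-- The probability that `l` is not tight. -/
noncomputable def muV (V : Finset (Finset (Fin N))) (P : Finset (Fin N) → ℝ) (l : Fin N) : ℝ :=
  ∑ J ∈ V, if l ∈ J then P J else 0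

/-- The deviation of the vertex `J` from the ideal one. -/
noncomputable def Psi (x : Fin N → E) (V : Finset (Finset (Fin N))) (P : Finset (Fin N) → ℝ)
    (v : Finset (Fin N) → E) (J : Finset (Fin N)) : ℝ :=
  ∑ l ∈ J, (muV V P l * sl x v l J - 1) ^ 2

variable {x : Fin N → E} {V : Finset (Finset (Fin N))} {P : Finset (Fin N) → ℝ}
  {v : Finset (Fin N) → E}

theorem GP.sl_zero (h : GP k x V P v) {J : Finset (Fin N)} (hJ : J ∈ V) {l : Fin N}
    (hl : l ∉ J) : sl x v l J = 0 := by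
  unfold sl; rw [h.tight J hJ l hl, sub_self]

theorem GP.sl_pos (h : GP k x V P v) {J : Finset (Fin N)} (hJ : J ∈ V) {l : Fin N}
    (hl : l ∈ J) : 0 < sl x v l J := by
  unfold sl; linarith [h.slack J hJ l hl]

theorem GP.sl_nonneg (h : GP k x V P v) {J : Finset (Fin N)} (hJ : J ∈ V) (l : Fin N) :
    0 ≤ sl x v l J := by
  by_cases hl : l ∈ J
  · exact (h.sl_pos hJ hl).le
  · exact (h.sl_zero hJ hl).ge

theorem GP.mean_sl (h : GP k x V P v) (l : Fin N) : ∑ J ∈ V, P J * sl x v l J = 1 := by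
  unfold sl
  have h1 : ∀ J ∈ V, P J * (1 - ⟪x l, v J⟫_ℝ) = P J - P J * ⟪v J, x l⟫_ℝ := by
    intro J _
    rw [real_inner_comm]; ring
  rw [Finset.sum_congr rfl h1, Finset.sum_sub_distrib, h.sum_one, h.mean (x l), sub_zero]

theorem GP.muV_nonneg (h : GP k x V P v) (l : Fin N) : 0 ≤ muV V P l := by
  unfold muV
  apply Finset.sum_nonneg
  intro J hJ
  split_ifs
  · exact (h.pos J hJ).le
  · exact le_rfl

theorem GP.muV_pos (h : GP k x V P v) (l : Fin N) : 0 < muV V P l := by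
  classical
  have hex : ∃ J ∈ V, l ∈ J := by
    by_contra hc
    push Not at hc
    have h1 := h.mean_sl l
    rw [Finset.sum_eq_zero (fun J hJ => by rw [h.sl_zero hJ (hc J hJ), mul_zero])] at h1
    exact zero_ne_one h1
  obtain ⟨J, hJ, hl⟩ := hex
  unfold muV
  apply Finset.sum_pos'
  · intro J hJ
    split_ifs
    · exact (h.pos J hJ).le
    · exact le_rfl
  · exact ⟨J, hJ, by rw [if_pos hl]; exact h.pos J hJ⟩

theorem GP.sum_muV_mul (_h : GP k x V P v) (f : Fin N → ℝ) :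
    ∑ J ∈ V, P J * ∑ l ∈ J, f l = ∑ l, muV V P l * f l := by
  classical
  unfold muV
  simp_rw [Finset.sum_mul]
  rw [Finset.sum_comm]
  apply Finset.sum_congr rfl
  intro J _
  rw [Finset.mul_sum, ← Finset.sum_subset (Finset.subset_univ J)]
  · apply Finset.sum_congr rfl
    intro l hl
    rw [if_pos hl]
  · intro l _ hl
    rw [if_neg hl, zero_mul]

theorem GP.sum_muV (h : GP k x V P v) : ∑ l, muV V P l = k := by
  have h1 := h.sum_muV_mul (fun _ => 1)
  simp only [mul_one, Finset.sum_const, nsmul_eq_mul] at h1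
  rw [← h1, Finset.sum_congr rfl (fun J hJ => by rw [h.card J hJ]), ← Finset.sum_mul, h.sum_one,
    one_mul]

/-- The deviation identity. -/
theorem GP.eta (h : GP k x V P v) :
    ∑ J ∈ V, P J * ∑ l ∈ J, (muV V P l * sl x v l J - 1) ^ 2 / muV V P l =
      ∑ J ∈ V, P J * ∑ l, muV V P l * ⟪x l, v J⟫_ℝ ^ 2 + k - N := by
  classical
  have h1 : ∀ J ∈ V, P J * ∑ l ∈ J, (muV V P l * sl x v l J - 1) ^ 2 / muV V P l =
      P J * ∑ l, muV V P l * ⟪x l, v J⟫_ℝ ^ 2 - P J * k + ∑ l, (2 * muV V P l) * (P J * sl x v l J)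
       - ∑ l, 2 * (P J * sl x v l J) + P J * ∑ l ∈ J, (muV V P l)⁻¹ := by
    intro J hJ
    have h2 : ∑ l ∈ J, (muV V P l * sl x v l J - 1) ^ 2 / muV V P l =
        ∑ l, (muV V P l * sl x v l J ^ 2 - 2 * sl x v l J) + ∑ l ∈ J, (muV V P l)⁻¹ := by
      rw [← Finset.sum_subset (Finset.subset_univ J)]
      · rw [← Finset.sum_add_distrib]
        apply Finset.sum_congr rfl
        intro l _
        have := (h.muV_pos l).ne'
        field_simp
        ring
      · intro l _ hl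
        rw [h.sl_zero hJ hl]; ring
    have h3 : ∑ l, muV V P l * sl x v l J ^ 2 = ∑ l, muV V P l * ⟪x l, v J⟫_ℝ ^ 2 - k +
        ∑ l, 2 * muV V P l * sl x v l J := by
      rw [← h.sum_muV, ← Finset.sum_sub_distrib, ← Finset.sum_add_distrib]
      apply Finset.sum_congr rfl
      intro l _
      unfold sl
      ring
    rw [h2, Finset.sum_sub_distrib, h3]
    have h4 : ∑ l, (2 * muV V P l) * (P J * sl x v l J) = P J * ∑ l, 2 * muV V P l * sl x v l J := by
      rw [Finset.mul_sum]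
      apply Finset.sum_congr rfl
      intro l _
      ring
    have h5 : ∑ l, 2 * (P J * sl x v l J) = P J * ∑ l, 2 * sl x v l J := by
      rw [Finset.mul_sum]
      apply Finset.sum_congr rfl
      intro l _
      ring
    rw [h4, h5]
    ring
  rw [Finset.sum_congr rfl h1, Finset.sum_add_distrib, Finset.sum_sub_distrib,
    Finset.sum_add_distrib, Finset.sum_sub_distrib, h.sum_muV_mul]
  have h6 : ∑ J ∈ V, ∑ l, (2 * muV V P l) * (P J * sl x v l J) = 2 * k := by
    rw [Finset.sum_comm]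
    have : ∀ l, ∑ J ∈ V, (2 * muV V P l) * (P J * sl x v l J) = 2 * muV V P l := by
      intro l
      rw [← Finset.mul_sum, h.mean_sl, mul_one]
    simp_rw [this]
    rw [← Finset.mul_sum, h.sum_muV]
  have h7 : ∑ J ∈ V, ∑ l, 2 * (P J * sl x v l J) = 2 * N := by
    rw [Finset.sum_comm]
    have : ∀ l : Fin N, ∑ J ∈ V, 2 * (P J * sl x v l J) = 2 := by
      intro l
      rw [← Finset.mul_sum, h.mean_sl, mul_one]
    simp_rw [this]
    simp
    ring
  have h8 : ∑ J ∈ V, P J * (k : ℝ) = k := by rw [← Finset.sum_mul, h.sum_one, one_mul]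
  have h9 : ∑ l, muV V P l * (muV V P l)⁻¹ = N := by
    have : ∀ l, muV V P l * (muV V P l)⁻¹ = 1 := fun l => mul_inv_cancel₀ (h.muV_pos l).ne'
    simp_rw [this]
    simp
  rw [h6, h7, h8, h9]
  ring

theorem Psi_nonneg (J : Finset (Fin N)) : 0 ≤ Psi x V P v J :=
  Finset.sum_nonneg fun _ _ => sq_nonneg _

theorem GP.mean_Psi (h : GP k x V P v) {κ δ : ℝ} (hκ : ∀ l, muV V P l ≤ κ)
    (hδ : ∑ J ∈ V, P J * ∑ l, muV V P l * ⟪x l, v J⟫_ℝ ^ 2 ≤ (N : ℝ) - k + δ) (hκ0 : 0 ≤ κ) :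
    ∑ J ∈ V, P J * Psi x V P v J ≤ κ * δ := by
  have h1 := h.eta
  have h2 : ∑ J ∈ V, P J * Psi x V P v J ≤
      κ * ∑ J ∈ V, P J * ∑ l ∈ J, (muV V P l * sl x v l J - 1) ^ 2 / muV V P l := by
    rw [Finset.mul_sum]
    apply Finset.sum_le_sum
    intro J hJ
    rw [mul_left_comm]
    apply mul_le_mul_of_nonneg_left _ (h.pos J hJ).le
    unfold Psi
    rw [Finset.mul_sum]
    apply Finset.sum_le_sum
    intro l _
    rw [← mul_div_assoc, le_div_iff₀ (h.muV_pos l), mul_comm]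
    exact mul_le_mul_of_nonneg_right (hκ l) (sq_nonneg _)
  refine h2.trans (mul_le_mul_of_nonneg_left ?_ hκ0)
  rw [h1]; linarith

theorem abs_le_sqrt_Psi {J : Finset (Fin N)} {l : Fin N} (hl : l ∈ J) :
    |muV V P l * sl x v l J - 1| ≤ √(Psi x V P v J) := by
  apply Real.abs_le_sqrt
  exact Finset.single_le_sum (f := fun l => (muV V P l * sl x v l J - 1) ^ 2)
    (fun _ _ => sq_nonneg _) hl

theorem GP.mean_sqrt_Psi (h : GP k x V P v) {e : ℝ}
    (he : ∑ J ∈ V, P J * Psi x V P v J ≤ e) :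
    ∑ J ∈ V, P J * √(Psi x V P v J) ≤ √e := by
  apply Real.le_sqrt_of_sq_le
  have h1 := Finset.sum_mul_sq_le_sq_mul_sq V (fun J => √(P J))
    (fun J => √(P J) * √(Psi x V P v J))
  have h2 : ∑ J ∈ V, √(P J) * (√(P J) * √(Psi x V P v J)) =
      ∑ J ∈ V, P J * √(Psi x V P v J) := by
    apply Finset.sum_congr rfl
    intro J hJ
    rw [← mul_assoc, Real.mul_self_sqrt (h.pos J hJ).le]
  have h3 : ∑ J ∈ V, √(P J) ^ 2 = 1 := by
    rw [← h.sum_one]
    apply Finset.sum_congr rfl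
    intro J hJ
    rw [Real.sq_sqrt (h.pos J hJ).le]
  have h4 : ∑ J ∈ V, (√(P J) * √(Psi x V P v J)) ^ 2 = ∑ J ∈ V, P J * Psi x V P v J := by
    apply Finset.sum_congr rfl
    intro J hJ
    rw [mul_pow, Real.sq_sqrt (h.pos J hJ).le, Real.sq_sqrt (Psi_nonneg J)]
  rw [h2, h3, h4, one_mul] at h1
  exact h1.trans he

theorem GP.lam_mul_min_le (h : GP k x V P v) {J : Finset (Fin N)} {l : Fin N} (hl : l ∈ J) :
    muV V P l * sl x v l J * min (Psi x V P v J) 1 ≤ 2 * Psi x V P v J := by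
  have _ := h
  have h0 : 0 ≤ Psi x V P v J := Psi_nonneg J
  have h1 := abs_le_sqrt_Psi (x := x) (V := V) (P := P) (v := v) hl
  have h2 : muV V P l * sl x v l J ≤ 1 + √(Psi x V P v J) := by
    have := (abs_le.1 h1).2
    linarith
  have hs := Real.sqrt_nonneg (Psi x V P v J)
  have hss := Real.mul_self_sqrt h0
  rcases le_total (Psi x V P v J) 1 with h3 | h3
  · rw [min_eq_left h3]
    have h4 : √(Psi x V P v J) ≤ 1 := Real.sqrt_le_one.2 h3
    calc muV V P l * sl x v l J * Psi x V P v J ≤ 2 * Psi x V P v J :=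
          mul_le_mul_of_nonneg_right (by linarith) h0
      _ = _ := rfl
  · rw [min_eq_right h3, mul_one]
    have h4 : 1 ≤ √(Psi x V P v J) := Real.one_le_sqrt.2 h3
    nlinarith

/-- There is a vertex all of whose neighbours are close to the ideal ones, on average. -/
theorem GP.exists_base (h : GP k x V P v) {κ δ : ℝ} (hκ : ∀ l, muV V P l ≤ κ)
    (hδ : ∑ J ∈ V, P J * ∑ l, muV V P l * ⟪x l, v J⟫_ℝ ^ 2 ≤ (N : ℝ) - k + δ) (hκ0 : 0 ≤ κ)
    (hsmall : κ * δ < 1) :
    ∃ J0 ∈ V, ∃ r : Fin N → Fin N,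
      (∀ w, w ∉ J0 → r w ∈ J0 ∧ insert w (J0.erase (r w)) ∈ V) ∧
      (1 - √(κ * δ)) * (k * min (Psi x V P v J0) 1 +
        ∑ w ∈ J0ᶜ, muV V P w * min (Psi x V P v (insert w (J0.erase (r w)))) 1) ≤
        3 * k * (κ * δ) := by
  classical
  have hpiv : ∀ J : Finset (Fin N), ∀ w : Fin N, ∃ a : Fin N, J ∈ V → w ∉ J →
      a ∈ J ∧ insert w (J.erase a) ∈ V ∧
      P J * sl x v a J = P (insert w (J.erase a)) * sl x v w (insert w (J.erase a)) := by
    intro J w
    by_cases hJ : J ∈ V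
    · by_cases hw : w ∉ J
      · obtain ⟨a, ha, h1, h2⟩ := h.piv J hJ w hw
        exact ⟨a, fun _ _ => ⟨ha, h1, h2⟩⟩
      · exact ⟨w, fun _ hw' => absurd hw' hw⟩
    · exact ⟨w, fun hJ' => absurd hJ' hJ⟩
  choose r hr using hpiv
  set e := κ * δ with he
  have hE : ∑ J ∈ V, P J * Psi x V P v J ≤ e := h.mean_Psi hκ hδ hκ0
  have hE0 : 0 ≤ ∑ J ∈ V, P J * Psi x V P v J :=
    Finset.sum_nonneg fun J hJ => mul_nonneg (h.pos J hJ).le (Psi_nonneg J)
  have he0 : 0 ≤ e := hE0.trans hE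
  -- weights
  let q : Finset (Fin N) → ℝ := fun J => P J * max 0 (1 - √(Psi x V P v J))
  have hq0 : ∀ J ∈ V, 0 ≤ q J := fun J hJ => mul_nonneg (h.pos J hJ).le (le_max_left _ _)
  have hqP : ∀ J ∈ V, q J ≤ P J := by
    intro J hJ
    have h1 : max 0 (1 - √(Psi x V P v J)) ≤ 1 :=
      max_le zero_le_one (by linarith [Real.sqrt_nonneg (Psi x V P v J)])
    exact mul_le_of_le_one_right (h.pos J hJ).le h1
  have hql : ∀ J ∈ V, ∀ a ∈ J, q J ≤ P J * (muV V P a * sl x v a J) := by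
    intro J hJ a ha
    apply mul_le_mul_of_nonneg_left _ (h.pos J hJ).le
    apply max_le
    · exact mul_nonneg (h.muV_nonneg a) (h.sl_nonneg hJ a)
    · have := (abs_le.1 (abs_le_sqrt_Psi (x := x) (V := V) (P := P) (v := v) ha)).1
      linarith
  have hqsum : 1 - √e ≤ ∑ J ∈ V, q J := by
    have h1 := h.mean_sqrt_Psi hE
    have h2 : ∑ J ∈ V, (P J - P J * √(Psi x V P v J)) ≤ ∑ J ∈ V, q J := by
      apply Finset.sum_le_sum
      intro J hJ
      have h3 : P J * (1 - √(Psi x V P v J)) ≤ q J :=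
        mul_le_mul_of_nonneg_left (le_max_right _ _) (h.pos J hJ).le
      linarith
    rw [Finset.sum_sub_distrib, h.sum_one] at h2
    linarith
  -- pairs
  let prs : Finset (Finset (Fin N) × Fin N) := (V ×ˢ univ).filter fun z => z.2 ∉ z.1
  have hmem : ∀ z, z ∈ prs ↔ z.1 ∈ V ∧ z.2 ∉ z.1 := by
    intro z
    simp [prs]
  have hsumprs : ∀ f : Finset (Fin N) → Fin N → ℝ,
      ∑ z ∈ prs, f z.1 z.2 = ∑ J ∈ V, ∑ w ∈ Jᶜ, f J w := by
    intro f
    rw [Finset.sum_filter, Finset.sum_product]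
    apply Finset.sum_congr rfl
    intro J _
    rw [← Finset.sum_filter]
    apply Finset.sum_congr _ (fun _ _ => rfl)
    ext w
    simp
  let Φ : Finset (Fin N) × Fin N → Finset (Fin N) × Fin N :=
    fun z => (insert z.2 (z.1.erase (r z.1 z.2)), r z.1 z.2)
  have hΦ : ∀ z ∈ prs, Φ z ∈ prs := by
    intro z hz
    obtain ⟨hJ, hw⟩ := (hmem z).1 hz
    obtain ⟨ha, h1, -⟩ := hr z.1 z.2 hJ hw
    rw [hmem]
    refine ⟨h1, ?_⟩
    simp only [Φ, Finset.mem_insert, Finset.mem_erase, not_or, ne_eq, not_true_eq_false,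
      false_and, not_false_eq_true, and_true]
    intro hc
    exact hw (hc ▸ ha)
  have hΦr : ∀ z ∈ prs, r (Φ z).1 (Φ z).2 = z.2 := by
    intro z hz
    obtain ⟨hJ, hw⟩ := (hmem z).1 hz
    obtain ⟨ha, h1, -⟩ := hr z.1 z.2 hJ hw
    obtain ⟨hJ', hw'⟩ := (hmem _).1 (hΦ z hz)
    obtain ⟨ha', h1', -⟩ := hr (Φ z).1 (Φ z).2 hJ' hw'
    have h2 : insert (Φ z).2 ((Φ z).1.erase z.2) = z.1 := by
      simp only [Φ]
      rw [Finset.erase_insert_eq_erase, Finset.erase_eq_of_notMem (fun hc => hw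
        (Finset.mem_of_mem_erase hc)), Finset.insert_erase ha]
    exact h.uniq _ hJ' _ hw' _ ha' _ (Finset.mem_insert_self _ _) h1' (by rw [h2]; exact hJ)
  have hΦΦ : ∀ z ∈ prs, Φ (Φ z) = z := by
    intro z hz
    obtain ⟨hJ, hw⟩ := (hmem z).1 hz
    obtain ⟨ha, h1, -⟩ := hr z.1 z.2 hJ hw
    have h3 := hΦr z hz
    have h2 : insert (Φ z).2 ((Φ z).1.erase z.2) = z.1 := by
      simp only [Φ]
      rw [Finset.erase_insert_eq_erase, Finset.erase_eq_of_notMem (fun hc => hw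
        (Finset.mem_of_mem_erase hc)), Finset.insert_erase ha]
    apply Prod.ext
    · change insert (Φ z).2 ((Φ z).1.erase (r (Φ z).1 (Φ z).2)) = z.1
      rw [h3, h2]
    · exact h3
  have hreindex : ∀ f : Finset (Fin N) × Fin N → ℝ, ∑ z ∈ prs, f (Φ z) = ∑ z ∈ prs, f z := by
    intro f
    exact Finset.sum_nbij' Φ Φ hΦ hΦ hΦΦ hΦΦ (fun _ _ => rfl)
  -- the average
  have hA2 : ∑ J ∈ V, ∑ w ∈ Jᶜ, q J * (muV V P w *
      min (Psi x V P v (insert w (J.erase (r J w)))) 1) ≤ 2 * k * e := by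
    rw [← hsumprs (fun J w => q J * (muV V P w *
      min (Psi x V P v (insert w (J.erase (r J w)))) 1))]
    let G : Finset (Fin N) × Fin N → ℝ := fun z => P z.1 * (muV V P z.2 *
      (muV V P (r z.1 z.2) * sl x v (r z.1 z.2) z.1 * min (Psi x V P v z.1) 1))
    have h1 : ∀ z ∈ prs, q z.1 * (muV V P z.2 *
        min (Psi x V P v (insert z.2 (z.1.erase (r z.1 z.2)))) 1) ≤ G (Φ z) := by
      intro z hz
      obtain ⟨hJ, hw⟩ := (hmem z).1 hz
      obtain ⟨ha, h1, h2⟩ := hr z.1 z.2 hJ hw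
      have h3 : G (Φ z) = P (Φ z).1 * (muV V P (r z.1 z.2) *
          (muV V P z.2 * sl x v z.2 (Φ z).1 * min (Psi x V P v (Φ z).1) 1)) := by
        simp only [G]
        rw [hΦr z hz]
      have h4 := hql z.1 hJ _ ha
      have h5 : 0 ≤ muV V P z.2 * min (Psi x V P v (Φ z).1) 1 :=
        mul_nonneg (h.muV_nonneg _) (le_min (Psi_nonneg _) zero_le_one)
      rw [h3]
      calc q z.1 * (muV V P z.2 * min (Psi x V P v (Φ z).1) 1)
          ≤ P z.1 * (muV V P (r z.1 z.2) * sl x v (r z.1 z.2) z.1) *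
            (muV V P z.2 * min (Psi x V P v (Φ z).1) 1) := mul_le_mul_of_nonneg_right h4 h5
        _ = muV V P (r z.1 z.2) * (P z.1 * sl x v (r z.1 z.2) z.1) *
            (muV V P z.2 * min (Psi x V P v (Φ z).1) 1) := by ring
        _ = _ := by rw [h2]; simp only [Φ]; ring
    refine (Finset.sum_le_sum h1).trans ?_
    rw [hreindex G]
    have h2 : ∀ z ∈ prs, G z ≤ P z.1 * (muV V P z.2 * (2 * Psi x V P v z.1)) := by
      intro z hz
      obtain ⟨hJ, hw⟩ := (hmem z).1 hz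
      obtain ⟨ha, h1, h2⟩ := hr z.1 z.2 hJ hw
      exact mul_le_mul_of_nonneg_left (mul_le_mul_of_nonneg_left (h.lam_mul_min_le ha)
        (h.muV_nonneg _)) (h.pos _ hJ).le
    refine (Finset.sum_le_sum h2).trans ?_
    rw [hsumprs (fun J w => P J * (muV V P w * (2 * Psi x V P v J)))]
    calc ∑ J ∈ V, ∑ w ∈ Jᶜ, P J * (muV V P w * (2 * Psi x V P v J))
        ≤ ∑ J ∈ V, (2 * k) * (P J * Psi x V P v J) := by
          apply Finset.sum_le_sum
          intro J hJ
          have h3 : ∑ w ∈ Jᶜ, muV V P w ≤ k := by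
            rw [← h.sum_muV]
            exact Finset.sum_le_sum_of_subset_of_nonneg (Finset.subset_univ _)
              (fun l _ _ => h.muV_nonneg l)
          have h4 : ∑ w ∈ Jᶜ, P J * (muV V P w * (2 * Psi x V P v J)) =
              (∑ w ∈ Jᶜ, muV V P w) * (2 * (P J * Psi x V P v J)) := by
            rw [Finset.sum_mul]
            apply Finset.sum_congr rfl
            intro w _
            ring
          rw [h4]
          calc (∑ w ∈ Jᶜ, muV V P w) * (2 * (P J * Psi x V P v J))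
              ≤ k * (2 * (P J * Psi x V P v J)) := mul_le_mul_of_nonneg_right h3
                (mul_nonneg zero_le_two (mul_nonneg (h.pos J hJ).le (Psi_nonneg J)))
            _ = _ := by ring
      _ = (2 * k) * ∑ J ∈ V, P J * Psi x V P v J := by rw [Finset.mul_sum]
      _ ≤ 2 * k * e := mul_le_mul_of_nonneg_left hE (by positivity)
  have hA1 : ∑ J ∈ V, q J * (k * min (Psi x V P v J) 1) ≤ k * e := by
    calc ∑ J ∈ V, q J * (k * min (Psi x V P v J) 1) ≤ ∑ J ∈ V, k * (P J * Psi x V P v J) := by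
          apply Finset.sum_le_sum
          intro J hJ
          calc q J * (k * min (Psi x V P v J) 1) ≤ P J * (k * min (Psi x V P v J) 1) :=
                mul_le_mul_of_nonneg_right (hqP J hJ)
                  (mul_nonneg (Nat.cast_nonneg _) (le_min (Psi_nonneg _) zero_le_one))
            _ ≤ P J * (k * Psi x V P v J) := by
                apply mul_le_mul_of_nonneg_left _ (h.pos J hJ).le
                exact mul_le_mul_of_nonneg_left (min_le_left _ _) (Nat.cast_nonneg _)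
            _ = _ := by ring
      _ = k * ∑ J ∈ V, P J * Psi x V P v J := by rw [Finset.mul_sum]
      _ ≤ k * e := mul_le_mul_of_nonneg_left hE (Nat.cast_nonneg _)
  by_contra hcon
  push Not at hcon
  have hS : 0 < 1 - √e := by
    have : √e < 1 := by
      rw [Real.sqrt_lt' one_pos, one_pow]; exact hsmall
    linarith
  have hcon' : ∀ J ∈ V, 3 * k * e < (1 - √e) * (k * min (Psi x V P v J) 1 +
        ∑ w ∈ Jᶜ, muV V P w * min (Psi x V P v (insert w (J.erase (r J w)))) 1) := by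
    intro J hJ
    exact hcon J hJ (r J) (fun w hw => ⟨(hr J w hJ hw).1, (hr J w hJ hw).2.1⟩)
  have hqpos : ∃ J ∈ V, 0 < q J := by
    by_contra hc
    push Not at hc
    have : ∑ J ∈ V, q J ≤ 0 := Finset.sum_nonpos hc
    linarith
  obtain ⟨J1, hJ1, hqJ1⟩ := hqpos
  have h1 : ∑ J ∈ V, q J * (3 * k * e) < ∑ J ∈ V, q J * ((1 - √e) * (k * min (Psi x V P v J) 1 +
        ∑ w ∈ Jᶜ, muV V P w * min (Psi x V P v (insert w (J.erase (r J w)))) 1)) := by
    apply Finset.sum_lt_sum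
    · intro J hJ
      exact mul_le_mul_of_nonneg_left (hcon' J hJ).le (hq0 J hJ)
    · exact ⟨J1, hJ1, mul_lt_mul_of_pos_left (hcon' J1 hJ1) hqJ1⟩
  have h2 : ∑ J ∈ V, q J * ((1 - √e) * (k * min (Psi x V P v J) 1 +
        ∑ w ∈ Jᶜ, muV V P w * min (Psi x V P v (insert w (J.erase (r J w)))) 1)) =
      (1 - √e) * (∑ J ∈ V, q J * (k * min (Psi x V P v J) 1) +
        ∑ J ∈ V, ∑ w ∈ Jᶜ, q J * (muV V P w *
          min (Psi x V P v (insert w (J.erase (r J w)))) 1)) := by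
    rw [← Finset.sum_add_distrib, Finset.mul_sum]
    apply Finset.sum_congr rfl
    intro J _
    rw [← Finset.mul_sum]
    ring
  rw [← Finset.sum_mul, h2] at h1
  have h3 : (1 - √e) * (∑ J ∈ V, q J * (k * min (Psi x V P v J) 1) +
        ∑ J ∈ V, ∑ w ∈ Jᶜ, q J * (muV V P w *
          min (Psi x V P v (insert w (J.erase (r J w)))) 1)) ≤ (1 - √e) * (3 * k * e) := by
    apply mul_le_mul_of_nonneg_left _ hS.le
    linarith
  have h4 : (1 - √e) * (3 * k * e) ≤ (∑ J ∈ V, q J) * (3 * k * e) :=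
    mul_le_mul_of_nonneg_right hqsum (by positivity)
  linarith

end Pool.Agent.Helper66.CapBig
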