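import Mathlib
import Pool.Agent.Helper66.CapBig.Defs
import Pool.Agent.Helper23.VS.Brouwer

/-!
# A fixed point of Nash type on a product of simplices (block D, written by helper62)
-/

set_option autoImplicit false

open Finset
open scoped InnerProductSpace

namespace Pool.Agent.Helper66.CapBig

namespace NashAux

variable {N k : ℕ}

/-- Block sums. -/
noncomputable def bs (g : Fin N → Fin k) (u : Fin N → ℝ) (c : Fin k) : ℝ :=
  ∑ l ∈ univ.filter (fun l => g l = c), u l

/-- The polynomials `q_w`. -/
noncomputable def qq (g : Fin N → Fin k) (s : (Fin k → Fin N) → Fin k → ℝ) (β : Fin N → ℝ)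
    (w : Fin N) : ℝ :=
  ∑ T ∈ (Tr k g).filter (fun T => T (g w) = w),
    (∏ c ∈ univ.erase (g w), β (T c)) * s T (g w)

lemma mem_Tr {g : Fin N → Fin k} {T : Fin k → Fin N} : T ∈ Tr k g ↔ ∀ c, g (T c) = c := by
  simp [Tr, Fintype.mem_piFinset]

lemma qq_pos {g : Fin N → Fin k} {s : (Fin k → Fin N) → Fin k → ℝ}
    (hs : ∀ T ∈ Tr k g, ∀ c, 0 < s T c) {β : Fin N → ℝ} (hβ : ∀ l, 0 ≤ β l)
    (h1 : ∀ c, bs g β c = 1) (w : Fin N) : 0 < qq g s β w := by
  classical
  have he : ∀ c, ∃ l, g l = c ∧ 0 < β l := by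
    intro c
    by_contra hcon
    push Not at hcon
    have : bs g β c ≤ 0 := Finset.sum_nonpos fun l hl => hcon l (by simpa using hl)
    rw [h1 c] at this
    linarith
  choose e he1 he2 using he
  unfold qq
  refine Finset.sum_pos' (fun T hT => ?_) ⟨Function.update e (g w) w, ?_, ?_⟩
  · exact mul_nonneg (Finset.prod_nonneg fun _ _ => hβ _)
      (hs T (Finset.mem_filter.1 hT).1 _).le
  · rw [Finset.mem_filter]
    refine ⟨mem_Tr.2 fun c => ?_, by simp⟩
    by_cases hc : c = g w
    · subst hc; simp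
    · rw [Function.update_of_ne hc]; exact he1 c
  · refine mul_pos (Finset.prod_pos fun c hc => ?_) (hs _ (mem_Tr.2 fun c => ?_) _)
    · rw [Function.update_of_ne (Finset.ne_of_mem_erase hc)]
      exact he2 c
    · by_cases hc : c = g w
      · subst hc; simp
      · rw [Function.update_of_ne hc]; exact he1 c

lemma sum_eq (g : Fin N → Fin k) (s : (Fin k → Fin N) → Fin k → ℝ) (β : Fin N → ℝ)
    (w : Fin N) :
    ∑ T ∈ (Tr k g).filter (fun T => T (g w) = w), (∏ c, β (T c)) * s T (g w) =
      β w * qq g s β w := by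
  classical
  unfold qq
  rw [Finset.mul_sum]
  refine Finset.sum_congr rfl fun T hT => ?_
  have h1 : T (g w) = w := (Finset.mem_filter.1 hT).2
  have h2 : ∏ c, β (T c) = β (T (g w)) * ∏ c ∈ univ.erase (g w), β (T c) :=
    (Finset.mul_prod_erase univ (fun c => β (T c)) (Finset.mem_univ (g w))).symm
  rw [h2, h1]
  ring

/-- The retraction onto the product of simplices. -/
noncomputable def rho (g : Fin N → Fin k) (u : Fin N → ℝ) (w : Fin N) : ℝ :=
  (u w + max 0 (1 - bs g u (g w)) / ((univ.filter fun l => g l = g w).card : ℝ)) /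
    (bs g u (g w) + max 0 (1 - bs g u (g w)))

lemma den_pos (g : Fin N → Fin k) (u : Fin N → ℝ) (c : Fin k) :
    0 < bs g u c + max 0 (1 - bs g u c) := by
  rcases le_total (1 : ℝ) (bs g u c) with h | h
  · have := le_max_left (0 : ℝ) (1 - bs g u c)
    linarith
  · have := le_max_right (0 : ℝ) (1 - bs g u c)
    linarith

lemma continuous_bs (g : Fin N → Fin k) (c : Fin k) : Continuous fun u => bs g u c := by
  unfold bs
  fun_prop

lemma continuous_rho (g : Fin N → Fin k) (w : Fin N) : Continuous fun u => rho g u w := by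
  unfold rho
  have h := continuous_bs g (g w)
  refine Continuous.div ?_ ?_ fun u => (den_pos g u (g w)).ne'
  · exact (continuous_apply w).add
      ((continuous_const.max (continuous_const.sub h)).div_const _)
  · exact h.add (continuous_const.max (continuous_const.sub h))

lemma rho_nonneg (g : Fin N → Fin k) {u : Fin N → ℝ} (hu : ∀ l, 0 ≤ u l) (w : Fin N) :
    0 ≤ rho g u w := by
  unfold rho
  refine div_nonneg (add_nonneg (hu w) (div_nonneg (le_max_left _ _) (Nat.cast_nonneg _)))
    (den_pos g u (g w)).le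

lemma bs_rho {g : Fin N → Fin k} (hg : Function.Surjective g) (u : Fin N → ℝ) (c : Fin k) :
    bs g (rho g u) c = 1 := by
  classical
  have h0 : bs g (rho g u) c = ∑ l ∈ univ.filter (fun l => g l = c),
      (u l + max 0 (1 - bs g u c) / ((univ.filter fun l => g l = c).card : ℝ)) /
    (bs g u c + max 0 (1 - bs g u c)) := by
    unfold bs rho
    refine Finset.sum_congr rfl fun l hl => ?_
    rw [(Finset.mem_filter.1 hl).2]
    rfl
  have hcard : ((univ.filter fun l => g l = c).card : ℝ) ≠ 0 := by
    obtain ⟨l, hl⟩ := hg c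
    have : 0 < (univ.filter fun l => g l = c).card :=
      Finset.card_pos.2 ⟨l, by simp [hl]⟩
    exact_mod_cast this.ne'
  rw [h0, ← Finset.sum_div, Finset.sum_add_distrib, Finset.sum_const, nsmul_eq_mul,
    mul_div_cancel₀ _ hcard]
  exact div_self (den_pos g u c).ne'

lemma rho_eq {g : Fin N → Fin k} {u : Fin N → ℝ} (h1 : ∀ c, bs g u c = 1) : rho g u = u := by
  funext w
  unfold rho
  rw [h1]
  simp

/-- The response map. -/
noncomputable def FF (g : Fin N → Fin k) (s : (Fin k → Fin N) → Fin k → ℝ) (β : Fin N → ℝ)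
    (w : Fin N) : ℝ :=
  (1 / qq g s β w) / ∑ l ∈ univ.filter (fun l => g l = g w), 1 / qq g s β l

end NashAux

open NashAux in
theorem exists_beta {N k : ℕ} (g : Fin N → Fin k) (hg : Function.Surjective g)
    (s : (Fin k → Fin N) → Fin k → ℝ) (hs : ∀ T ∈ Tr k g, ∀ c, 0 < s T c) :
    ∃ β : Fin N → ℝ, (∀ l, 0 < β l) ∧
      (∀ c, ∑ l ∈ univ.filter (fun l => g l = c), β l = 1) ∧
      ∀ w w' : Fin N, g w = g w' →
        ∑ T ∈ (Tr k g).filter (fun T => T (g w) = w), (∏ c, β (T c)) * s T (g w) =
        ∑ T ∈ (Tr k g).filter (fun T => T (g w) = w'), (∏ c, β (T c)) * s T (g w) := by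
  classical
  have hq : ∀ u ∈ Set.Icc (0 : Fin N → ℝ) 1, ∀ w, 0 < qq g s (rho g u) w := fun u hu w =>
    qq_pos hs (rho_nonneg g fun l => hu.1 l) (bs_rho hg u) w
  have hS : ∀ u ∈ Set.Icc (0 : Fin N → ℝ) 1, ∀ w,
      0 < ∑ l ∈ univ.filter (fun l => g l = g w), 1 / qq g s (rho g u) l := fun u hu w =>
    Finset.sum_pos (fun l _ => one_div_pos.2 (hq u hu l)) ⟨w, by simp⟩
  have hqc : ∀ w, Continuous fun u => qq g s (rho g u) w := by
    intro w
    unfold qq
    refine continuous_finset_sum _ fun T _ => ?_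
    refine Continuous.mul (continuous_finset_prod _ fun c _ => continuous_rho g _) continuous_const
  have hFs : ∀ u ∈ Set.Icc (0 : Fin N → ℝ) 1, ∀ c, bs g (FF g s (rho g u)) c = 1 := by
    intro u hu c
    obtain ⟨w, hw⟩ := hg c
    subst hw
    have h0 : bs g (FF g s (rho g u)) (g w) = ∑ l ∈ univ.filter (fun l => g l = g w),
        (1 / qq g s (rho g u) l) /
          ∑ l ∈ univ.filter (fun l => g l = g w), 1 / qq g s (rho g u) l := by
      unfold bs FF
      refine Finset.sum_congr rfl fun l hl => ?_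
      rw [(Finset.mem_filter.1 hl).2]
    rw [h0, ← Finset.sum_div]
    exact div_self (hS u hu w).ne'
  have hFp : ∀ u ∈ Set.Icc (0 : Fin N → ℝ) 1, ∀ w, 0 < FF g s (rho g u) w := fun u hu w =>
    div_pos (one_div_pos.2 (hq u hu w)) (hS u hu w)
  obtain ⟨u, hu, hfix⟩ := Pool.Agent.Helper23.VS.brouwer_cube N (fun u => FF g s (rho g u))
    (by
      refine continuousOn_pi.2 fun w => ?_
      unfold FF
      refine ContinuousOn.div ?_ ?_ fun u hu => (hS u hu w).ne'
      · exact ContinuousOn.div continuousOn_const (hqc w).continuousOn fun u hu => (hq u hu w).ne'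
      · exact continuousOn_finset_sum _ fun l _ =>
          ContinuousOn.div continuousOn_const (hqc l).continuousOn fun u hu => (hq u hu l).ne')
    (by
      intro u hu
      refine ⟨fun w => (hFp u hu w).le, fun w => ?_⟩
      have h1 := hFs u hu (g w)
      unfold bs at h1
      have h2 : FF g s (rho g u) w ≤ ∑ l ∈ univ.filter (fun l => g l = g w),
          FF g s (rho g u) l :=
        Finset.single_le_sum (f := fun l => FF g s (rho g u) l) (fun l _ => (hFp u hu l).le)
          (by simp)
      rw [h1] at h2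
      exact h2)
  have hfix' : FF g s (rho g u) = u := hfix
  have hb : ∀ c, bs g u c = 1 := fun c => by
    have := hFs u hu c
    rwa [hfix'] at this
  have hr : rho g u = u := rho_eq hb
  have hpos : ∀ l, 0 < u l := fun l => by
    have := hFp u hu l
    rwa [hfix'] at this
  have hval : ∀ w, u w * qq g s u w =
      1 / ∑ l ∈ univ.filter (fun l => g l = g w), 1 / qq g s u l := by
    intro w
    have h1 : FF g s u w = u w := by
      have := congrFun hfix' w
      rwa [hr] at this
    have h2 : 0 < qq g s u w := by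
      have := hq u hu w
      rwa [hr] at this
    have h3 := hS u hu w
    rw [hr] at h3
    rw [← h1]
    unfold FF
    field_simp
  refine ⟨u, hpos, hb, fun w w' hww => ?_⟩
  rw [sum_eq g s u w, hww, sum_eq g s u w', hval w, hval w', hww]

end Pool.Agent.Helper66.CapBig
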