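import Mathlib
import Pool.Agent.Helper66.CapBig.Average
import Pool.Agent.Helper66.CapBig.Nash

/-!
# The balanced product measure
-/

set_option autoImplicit false

open Finset
open scoped InnerProductSpace

namespace Pool.Agent.Helper66.CapBig

variable {N k : ℕ} {E : Type} [NormedAddCommGroup E] [InnerProductSpace ℝ E]
  {x : Fin N → E} {V : Finset (Finset (Fin N))} {P : Finset (Fin N) → ℝ}
  {v : Finset (Fin N) → E}

theorem mem_Tr_iff {g : Fin N → Fin k} {T : Fin k → Fin N} : T ∈ Tr k g ↔ ∀ c, g (T c) = c := by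
  unfold Tr
  simp [Fintype.mem_piFinset]

theorem sum_prod_Tr {g : Fin N → Fin k} {β : Fin N → ℝ}
    (hβ : ∀ c, ∑ l ∈ univ.filter (fun l => g l = c), β l = 1) :
    ∑ T ∈ Tr k g, ∏ c, β (T c) = 1 := by
  unfold Tr
  rw [← Finset.prod_univ_sum (fun c => univ.filter fun l => g l = c) (fun _ l => β l)]
  simp [hβ]

theorem image_mem_of_Tr {g : Fin N → Fin k} (hT : ProdType k V g) {T : Fin k → Fin N}
    (h : T ∈ Tr k g) : univ.image T ∈ V := by
  rw [mem_Tr_iff] at h
  rw [hT]
  constructor
  · rw [Finset.card_image_of_injective, card_univ, Fintype.card_fin]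
    intro a b hab
    rw [← h a, ← h b, hab]
  · intro c
    exact ⟨T c, Finset.mem_image_of_mem _ (mem_univ c), h c⟩

/-- For vertices of product type, there is a product measure with mean zero. -/
theorem GP.exists_PD (h : GP k x V P v) {g : Fin N → Fin k} (hT : ProdType k V g) :
    ∃ β : Fin N → ℝ, PD k x g β (fun T => v (univ.image T)) := by
  classical
  have hg : Function.Surjective g := by
    intro c
    obtain ⟨J, hJ⟩ := h.nonempty
    obtain ⟨l, -, hl⟩ := ((hT J).1 hJ).2 c
    exact ⟨l, hl⟩
  obtain ⟨β, hβpos, hβsum, hβ⟩ := exists_beta g hg (fun T c => sl x v (T c) (univ.image T))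
    (fun T hTr c => h.sl_pos (image_mem_of_Tr hT hTr) (Finset.mem_image_of_mem _ (mem_univ c)))
  refine ⟨β, ⟨fun l => (hβpos l).le, hβsum, ?_, ?_⟩⟩
  · intro T hTr l hl
    apply h.tight _ (image_mem_of_Tr hT hTr)
    intro hc
    obtain ⟨c, -, hc⟩ := Finset.mem_image.1 hc
    exact hl c hc
  · set vb : E := ∑ T ∈ Tr k g, (∏ c, β (T c)) • v (univ.image T) with hvb
    set τ : Fin N → ℝ := fun w => ∑ T ∈ (Tr k g).filter (fun T => T (g w) = w),
      (∏ c, β (T c)) * sl x v w (univ.image T) with hτ
    have hτeq : ∀ w w', g w = g w' → τ w = τ w' := by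
      intro w w' hww
      have h1 := hβ w w' hww
      rw [hτ]
      simp only
      have h2 : ∀ w : Fin N, ∑ T ∈ (Tr k g).filter (fun T => T (g w) = w),
          (∏ c, β (T c)) * sl x v w (univ.image T) =
          ∑ T ∈ (Tr k g).filter (fun T => T (g w) = w),
          (∏ c, β (T c)) * sl x v (T (g w)) (univ.image T) := by
        intro w
        apply Finset.sum_congr rfl
        intro T hT'
        rw [(Finset.mem_filter.1 hT').2]
      rw [h2 w, h2 w', h1, hww]
    have hxv : ∀ w, ⟪x w, vb⟫_ℝ = 1 - τ w := by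
      intro w
      rw [hvb, inner_sum]
      have h1 : ∀ T ∈ Tr k g, ⟪x w, (∏ c, β (T c)) • v (univ.image T)⟫_ℝ =
          ∏ c, β (T c) - (if T (g w) = w then (∏ c, β (T c)) * sl x v w (univ.image T) else 0) := by
        intro T hTr
        rw [inner_smul_right]
        split_ifs with hw
        · unfold sl; ring
        · rw [h.tight _ (image_mem_of_Tr hT hTr)]
          · ring
          · intro hc
            obtain ⟨c, -, hc⟩ := Finset.mem_image.1 hc
            apply hw
            have h2 := mem_Tr_iff.1 hTr c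
            rw [hc] at h2
            rw [h2, hc]
      rw [Finset.sum_congr rfl h1, Finset.sum_sub_distrib, sum_prod_Tr hβsum,
        ← Finset.sum_filter]
    -- the constant
    choose σ hσ using hg
    have hconst : ∀ J ∈ V, ⟪∑ l ∈ J, x l, vb⟫_ℝ = ∑ c, (1 - τ (σ c)) := by
      intro J hJ
      obtain ⟨hJc, hJt⟩ := (hT J).1 hJ
      have himg : J.image g = univ := by
        apply Finset.eq_univ_of_forall
        intro c
        obtain ⟨l, hl, hl2⟩ := hJt c
        exact Finset.mem_image.2 ⟨l, hl, hl2⟩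
      have hinj : Set.InjOn g J := by
        rw [← Finset.card_image_iff, himg, hJc, card_univ, Fintype.card_fin]
      rw [sum_inner, ← himg, Finset.sum_image (fun a ha b hb hab => hinj ha hb hab)]
      apply Finset.sum_congr rfl
      intro l _
      rw [hxv, hτeq l (σ (g l)) (hσ (g l)).symm]
    have hzero : ∀ y, ⟪y, vb⟫_ℝ = 0 := by
      intro y
      have h1 := h.cross y vb
      have h2 : ∑ J ∈ V, P J * ⟪v J, y⟫_ℝ * ⟪∑ l ∈ J, x l, vb⟫_ℝ =
          (∑ J ∈ V, P J * ⟪v J, y⟫_ℝ) * ∑ c, (1 - τ (σ c)) := by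
        rw [Finset.sum_mul]
        apply Finset.sum_congr rfl
        intro J hJ
        rw [hconst J hJ]
      rw [h2, h.mean y, zero_mul] at h1
      linarith
    intro y
    have h1 := hzero y
    rw [hvb, inner_sum] at h1
    rw [← h1]
    apply Finset.sum_congr rfl
    intro T _
    rw [inner_smul_right, real_inner_comm]

end Pool.Agent.Helper66.CapBig
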