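import Mathlib
import Pool.Agent.Helper66.CapBig.Defs

/-!
# Block C: a family of transversals closed under pivots is of product type
(helper51 for MP_7917db_co)
-/

set_option autoImplicit false

open Finset
open scoped InnerProductSpace

namespace Pool.Agent.Helper66.CapBig

theorem closure_injOn {N k : ℕ} (g : Fin N → Fin k) {J : Finset (Fin N)} (hJ : J.card = k)
    (hs : ∀ c, ∃ l ∈ J, g l = c) : Set.InjOn g J := by
  rw [← Finset.card_image_iff]
  have : J.image g = univ := by
    ext c
    simp only [mem_image, mem_univ, iff_true]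
    exact hs c
  rw [this, hJ, card_univ, Fintype.card_fin]

theorem prodType_of_transversal {N k : ℕ} {E : Type} [NormedAddCommGroup E]
    [InnerProductSpace ℝ E] {x : Fin N → E} {V : Finset (Finset (Fin N))}
    {P : Finset (Fin N) → ℝ} {v : Finset (Fin N) → E} (h : GP k x V P v) (g : Fin N → Fin k)
    (hT : ∀ J ∈ V, ∀ c, ∃ l ∈ J, g l = c) : ProdType k V g := by
  intro T
  constructor
  · intro hTV
    exact ⟨h.card T hTV, hT T hTV⟩
  · rintro ⟨hTc, hTs⟩
    have hTi := closure_injOn g hTc hTs
    have key : ∀ (m : ℕ) (J : Finset (Fin N)), J ∈ V → (T \ J).card = m → T ∈ V := by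
      intro m
      induction m using Nat.strong_induction_on with
      | _ m ih =>
        intro J hJ hm
        by_cases hsub : T ⊆ J
        · have : T = J := Finset.eq_of_subset_of_card_le hsub (by rw [h.card J hJ, hTc])
          rw [this]; exact hJ
        · obtain ⟨w, hwT, hwJ⟩ := Finset.not_subset.1 hsub
          obtain ⟨a, haJ, hJ', -⟩ := h.piv J hJ w hwJ
          have hJi := closure_injOn g (h.card _ hJ) (hT J hJ)
          have hJi' := closure_injOn g (h.card _ hJ') (hT _ hJ')
          obtain ⟨l, hlJ, hl⟩ := hT J hJ (g w)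
          have hal : a = l := by
            by_contra hne
            have h1 : l ∈ insert w (J.erase a) :=
              mem_insert_of_mem (mem_erase.2 ⟨fun h => hne h.symm, hlJ⟩)
            have h2 : w ∈ insert w (J.erase a) := mem_insert_self _ _
            have := hJi' h1 h2 hl
            exact hwJ (this ▸ hlJ)
          subst hal
          have haT : a ∉ T := by
            intro haT
            have := hTi haT hwT hl
            exact hwJ (this ▸ haJ)
          refine ih _ ?_ (insert w (J.erase a)) hJ' rfl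
          rw [← hm]
          apply Finset.card_lt_card
          refine ⟨?_, ?_⟩
          · intro z hz
            rw [mem_sdiff] at hz ⊢
            refine ⟨hz.1, fun hzJ => hz.2 (mem_insert_of_mem (mem_erase.2 ⟨?_, hzJ⟩))⟩
            rintro rfl
            exact haT hz.1
          · intro hsub'
            have h3 : w ∈ T \ insert w (J.erase a) := hsub' (mem_sdiff.2 ⟨hwT, hwJ⟩)
            exact (mem_sdiff.1 h3).2 (mem_insert_self _ _)
    obtain ⟨J, hJ⟩ := h.nonempty
    exact key _ J hJ rfl

theorem erase_pair_left {α : Type} [DecidableEq α] {a b : α} (hab : a ≠ b) :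
    ({a, b} : Finset α).erase a = {b} := by
  ext z
  simp only [mem_erase, mem_insert, mem_singleton]
  constructor
  · rintro ⟨h1, h2 | h2⟩
    · exact absurd h2 h1
    · exact h2
  · rintro rfl
    exact ⟨hab.symm, Or.inr rfl⟩

theorem erase_pair_right {α : Type} [DecidableEq α] {a b : α} (hab : a ≠ b) :
    ({a, b} : Finset α).erase b = {a} := by
  rw [Finset.pair_comm]
  exact erase_pair_left hab.symm

theorem prodType_two {N : ℕ} {E : Type} [NormedAddCommGroup E]
    [InnerProductSpace ℝ E] {x : Fin N → E} {V : Finset (Finset (Fin N))}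
    {P : Finset (Fin N) → ℝ} {v : Finset (Fin N) → E} (h : GP 2 x V P v) :
    ∃ g : Fin N → Fin 2, ProdType 2 V g := by
  classical
  obtain ⟨J0, hJ0⟩ := h.nonempty
  obtain ⟨a, b, hab, rfl⟩ := Finset.card_eq_two.1 (h.card J0 hJ0)
  -- uniqueness in the form used below
  have huq : ∀ i j w : Fin N, i ≠ j → w ≠ i → w ≠ j → ({i, j} : Finset (Fin N)) ∈ V →
      ({w, j} : Finset (Fin N)) ∈ V → ({w, i} : Finset (Fin N)) ∈ V → False := by
    intro i j w hij hwi hwj h1 h2 h3
    have hw : w ∉ ({i, j} : Finset (Fin N)) := by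
      simp only [mem_insert, mem_singleton, not_or]
      exact ⟨hwi, hwj⟩
    have := h.uniq _ h1 w hw i (by simp) j (by simp)
      (by rw [erase_pair_left hij]; exact h2) (by rw [erase_pair_right hij]; exact h3)
    exact hij this
  have hex : ∀ w : Fin N, w ≠ a → w ≠ b → ({w, b} : Finset (Fin N)) ∉ V →
      ({w, a} : Finset (Fin N)) ∈ V := by
    intro w hwa hwb hn
    have hw : w ∉ ({a, b} : Finset (Fin N)) := by
      simp only [mem_insert, mem_singleton, not_or]
      exact ⟨hwa, hwb⟩
    obtain ⟨c, hc, hcV, -⟩ := h.piv _ hJ0 w hw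
    rw [mem_insert, mem_singleton] at hc
    rcases hc with rfl | rfl
    · rw [erase_pair_left hab] at hcV
      exact absurd hcV hn
    · rw [erase_pair_right hab] at hcV
      exact hcV
  let g : Fin N → Fin 2 := fun w =>
    if w = b then 1 else if w = a then 0 else if ({w, b} : Finset (Fin N)) ∈ V then 0 else 1
  have g0 : ∀ w, g w = 0 → w ≠ b ∧ (w = a ∨ ({w, b} : Finset (Fin N)) ∈ V) := by
    intro w hw
    simp only [g] at hw
    by_cases h1 : w = b
    · rw [if_pos h1] at hw; exact absurd hw (by decide)
    · rw [if_neg h1] at hw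
      refine ⟨h1, ?_⟩
      by_cases h2 : w = a
      · exact Or.inl h2
      · rw [if_neg h2] at hw
        by_cases h3 : ({w, b} : Finset (Fin N)) ∈ V
        · exact Or.inr h3
        · rw [if_neg h3] at hw; exact absurd hw (by decide)
  have g1 : ∀ w, g w = 1 → w ≠ a ∧ (w = b ∨ (({w, b} : Finset (Fin N)) ∉ V ∧
      ({w, a} : Finset (Fin N)) ∈ V)) := by
    intro w hw
    simp only [g] at hw
    by_cases h1 : w = b
    · exact ⟨fun h => hab (h.symm.trans h1), Or.inl h1⟩
    · rw [if_neg h1] at hw
      by_cases h2 : w = a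
      · rw [if_pos h2] at hw; exact absurd hw (by decide)
      · rw [if_neg h2] at hw
        refine ⟨h2, Or.inr ?_⟩
        by_cases h3 : ({w, b} : Finset (Fin N)) ∈ V
        · rw [if_pos h3] at hw; exact absurd hw (by decide)
        · exact ⟨h3, hex w h2 h1 h3⟩
  have hne : ∀ i j, i ≠ j → ({i, j} : Finset (Fin N)) ∈ V → g i ≠ g j := by
    intro i j hij hV heq
    rcases Fin.exists_fin_two.1 ⟨g i, rfl⟩ with h0 | h0
    · have hi := g0 i h0
      have hj := g0 j (heq.symm.trans h0)
      rcases hi.2 with rfl | hi2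
      · rcases hj.2 with rfl | hj2
        · exact hij rfl
        · exact huq i b j hab hij.symm hj.1 hJ0 hj2 (by rw [Finset.pair_comm]; exact hV)
      · rcases hj.2 with rfl | hj2
        · exact huq j b i hab hij hi.1 hJ0 hi2 hV
        · exact huq i b j hi.1 hij.symm hj.1 hi2 hj2 (by rw [Finset.pair_comm]; exact hV)
    · have hi := g1 i h0
      have hj := g1 j (heq.symm.trans h0)
      rcases hi.2 with rfl | hi2
      · rcases hj.2 with rfl | hj2
        · exact hij rfl
        · exact hj2.1 (by rw [Finset.pair_comm]; exact hV)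
      · rcases hj.2 with rfl | hj2
        · exact hi2.1 hV
        · exact huq i a j hi.1 hij.symm hj.1 hi2.2 hj2.2 (by rw [Finset.pair_comm]; exact hV)
  refine ⟨g, prodType_of_transversal h g ?_⟩
  intro J hJ c
  obtain ⟨i, j, hij, rfl⟩ := Finset.card_eq_two.1 (h.card J hJ)
  have hg := hne i j hij hJ
  by_cases h1 : g i = c
  · exact ⟨i, by simp, h1⟩
  · refine ⟨j, by simp, ?_⟩
    omega

theorem prodType_one {N : ℕ} {E : Type} [NormedAddCommGroup E]
    [InnerProductSpace ℝ E] {x : Fin N → E} {V : Finset (Finset (Fin N))}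
    {P : Finset (Fin N) → ℝ} {v : Finset (Fin N) → E} (h : GP 1 x V P v) :
    ∃ g : Fin N → Fin 1, ProdType 1 V g := by
  refine ⟨fun _ => 0, prodType_of_transversal h _ ?_⟩
  intro J hJ c
  obtain ⟨a, rfl⟩ := Finset.card_eq_one.1 (h.card J hJ)
  exact ⟨a, by simp, Subsingleton.elim _ _⟩

end Pool.Agent.Helper66.CapBig
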