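import Mathlib
import Pool.Agent.Helper66.CapBig.Average

/-!
# Every vertex meets every group of a good base vertex
-/

set_option autoImplicit false

open Finset
open scoped InnerProductSpace

namespace Pool.Agent.Helper66.CapBig

variable {N k : ℕ} {E : Type} [NormedAddCommGroup E] [InnerProductSpace ℝ E]
  {x : Fin N → E} {V : Finset (Finset (Fin N))} {P : Finset (Fin N) → ℝ}
  {v : Finset (Fin N) → E}

/-- Expansion of a point in terms of the neighbours of a vertex. -/
theorem GP.expand (h : GP k x V P v) {J0 : Finset (Fin N)} (hJ0 : J0 ∈ V) (r : Fin N → Fin N)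
    (hr : ∀ w, w ∉ J0 → r w ∈ J0 ∧ insert w (J0.erase (r w)) ∈ V) (y : E) :
    y - v J0 = ∑ w ∈ J0ᶜ, ((1 - ⟪x w, y⟫_ℝ) / sl x v w (insert w (J0.erase (r w)))) •
      (v (insert w (J0.erase (r w))) - v J0) := by
  classical
  have h1 := h.span J0 hJ0 (y - v J0 - ∑ w ∈ J0ᶜ,
    ((1 - ⟪x w, y⟫_ℝ) / sl x v w (insert w (J0.erase (r w)))) •
      (v (insert w (J0.erase (r w))) - v J0)) (by
    intro l hl
    rw [inner_sub_right, inner_sub_right, h.tight J0 hJ0 l hl, inner_sum]
    rw [Finset.sum_eq_single l]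
    · rw [inner_smul_right, inner_sub_right, h.tight J0 hJ0 l hl]
      have h2 : 0 < sl x v l (insert l (J0.erase (r l))) :=
        h.sl_pos (hr l hl).2 (Finset.mem_insert_self _ _)
      have h3 : ⟪x l, v (insert l (J0.erase (r l)))⟫_ℝ - 1 =
          -sl x v l (insert l (J0.erase (r l))) := by unfold sl; ring
      rw [h3]
      field_simp
      ring
    · intro w hw hwl
      have hw' : w ∉ J0 := by simpa using hw
      have hlJ : l ∉ insert w (J0.erase (r w)) := by
        simp only [Finset.mem_insert, Finset.mem_erase, not_or, not_and]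
        exact ⟨fun hc => hwl hc.symm, fun _ => hl⟩
      rw [inner_smul_right, inner_sub_right, h.tight J0 hJ0 l hl, h.tight _ (hr w hw').2 l hlJ,
        sub_self, mul_zero]
    · intro hc
      exact absurd (Finset.mem_compl.2 hl) hc)
  exact sub_eq_zero.1 h1

/-- The second moment of the slacks. -/
theorem GP.slack_moment (h : GP k x V P v) {J : Finset (Fin N)} (hJ : J ∈ V) :
    19 * ∑ l ∈ J, muV V P l * sl x v l J ^ 2 ≤
      20 * (∑ l, muV V P l * ⟪x l, v J⟫_ℝ ^ 2 + 19 * k) := by
  classical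
  have h1 : ∑ l ∈ J, muV V P l * sl x v l J ^ 2 = ∑ l, muV V P l * sl x v l J ^ 2 := by
    apply Finset.sum_subset (Finset.subset_univ J)
    intro l _ hl
    rw [h.sl_zero hJ hl]; ring
  rw [h1, ← h.sum_muV, Finset.mul_sum, Finset.mul_sum, ← Finset.sum_add_distrib, Finset.mul_sum]
  apply Finset.sum_le_sum
  intro l _
  have h2 : ⟪x l, v J⟫_ℝ = 1 - sl x v l J := by unfold sl; ring
  rw [h2]
  have h3 := h.muV_nonneg l
  nlinarith [mul_nonneg h3 (sq_nonneg (sl x v l J - 20))]

theorem GP.meets (h : GP k x V P v) {J0 : Finset (Fin N)} (hJ0 : J0 ∈ V) (r : Fin N → Fin N)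
    (hr : ∀ w, w ∉ J0 → r w ∈ J0 ∧ insert w (J0.erase (r w)) ∈ V) (hk : 1 ≤ k) {ν : ℝ}
    (hν : 200 ≤ ν) (hμ : ∀ w, 1 / ν ≤ muV V P w)
    (hA : k * min (Psi x V P v J0) 1 +
        ∑ w ∈ J0ᶜ, muV V P w * min (Psi x V P v (insert w (J0.erase (r w)))) 1 ≤ 1 / (8 * ν))
    (hL : ∀ J ∈ V, ∑ l ∈ J, muV V P l * sl x v l J ^ 2 ≤ 31 / 25 * ν) :
    ∀ J ∈ V, ∀ b ∈ J0, ∃ l ∈ J, l = b ∨ (l ∉ J0 ∧ r l = b) := by
  classical
  intro J hJ b hb
  by_contra hcon
  push Not at hcon
  have hν0 : 0 < ν := by linarith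
  have hk' : (1 : ℝ) ≤ k := by exact_mod_cast hk
  have hbJ : b ∉ J := fun hc => (hcon b hc).1 rfl
  have hmin0 : ∀ J' : Finset (Fin N), 0 ≤ min (Psi x V P v J') 1 :=
    fun J' => le_min (Psi_nonneg _) zero_le_one
  have hsum0 : 0 ≤ ∑ w ∈ J0ᶜ, muV V P w * min (Psi x V P v (insert w (J0.erase (r w)))) 1 :=
    Finset.sum_nonneg fun w _ => mul_nonneg (h.muV_nonneg w) (hmin0 _)
  have h8 : 1 / (8 * ν) ≤ 1 / 1600 := one_div_le_one_div_of_le (by norm_num) (by linarith)
  -- the base vertex
  have hP0 : min (Psi x V P v J0) 1 ≤ 1 / 1600 := by nlinarith [hmin0 J0]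
  have hP0' : min (Psi x V P v J0) 1 = Psi x V P v J0 := by
    apply min_eq_left
    by_contra hc
    rw [min_eq_right (not_le.1 hc).le] at hP0
    norm_num at hP0
  rw [hP0'] at hP0 hA
  -- the neighbours
  have hPw : ∀ w, w ∉ J0 → Psi x V P v (insert w (J0.erase (r w))) ≤ 1 / 8 := by
    intro w hw
    have h1 : muV V P w * min (Psi x V P v (insert w (J0.erase (r w)))) 1 ≤ 1 / (8 * ν) := by
      have h2 := Finset.single_le_sum (f := fun w => muV V P w *
        min (Psi x V P v (insert w (J0.erase (r w)))) 1)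
        (fun w _ => mul_nonneg (h.muV_nonneg w) (hmin0 _)) (Finset.mem_compl.2 hw)
      have h3 : 0 ≤ k * Psi x V P v J0 := mul_nonneg (by linarith) (Psi_nonneg _)
      linarith
    have h2 : 1 / ν * min (Psi x V P v (insert w (J0.erase (r w)))) 1 ≤ 1 / (8 * ν) :=
      (mul_le_mul_of_nonneg_right (hμ w) (hmin0 _)).trans h1
    have h3 : min (Psi x V P v (insert w (J0.erase (r w)))) 1 ≤ 1 / 8 := by
      rw [one_div, inv_mul_le_iff₀ hν0] at h2
      have : ν * (1 / (8 * ν)) = 1 / 8 := by field_simp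
      rwa [this] at h2
    rcases le_total (Psi x V P v (insert w (J0.erase (r w)))) 1 with h4 | h4
    · rwa [min_eq_left h4] at h3
    · rw [min_eq_right h4] at h3; norm_num at h3
  have hAsum : k * Psi x V P v J0 +
      ∑ w ∈ J0ᶜ, muV V P w * Psi x V P v (insert w (J0.erase (r w))) ≤ 1 / (8 * ν) := by
    refine le_trans (le_of_eq ?_) hA
    congr 1
    apply Finset.sum_congr rfl
    intro w hw
    rw [min_eq_left ((hPw w (Finset.mem_compl.1 hw)).trans (by norm_num))]
  -- single deviations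
  have hdev : ∀ J' : Finset (Fin N), ∀ l ∈ J', (muV V P l * sl x v l J' - 1) ^ 2 ≤
      Psi x V P v J' := by
    intro J' l hl
    exact Finset.single_le_sum (f := fun l => (muV V P l * sl x v l J' - 1) ^ 2)
      (fun _ _ => sq_nonneg _) hl
  set lb := muV V P b * sl x v b J0 with hlb
  have hlb1 : 19 / 20 < lb ^ 2 := by
    have h1 := (hdev J0 b hb).trans hP0
    rw [← hlb] at h1
    have h2 : 39 / 40 ≤ lb := by nlinarith
    nlinarith
  have hlw : ∀ w, w ∉ J0 → 16 / 25 ≤ muV V P w * sl x v w (insert w (J0.erase (r w))) := by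
    intro w hw
    have h1 := (hdev _ w (Finset.mem_insert_self w (J0.erase (r w)))).trans (hPw w hw)
    nlinarith
  -- the identity
  have hid : lb = ∑ w ∈ J \ J0, muV V P w * sl x v w J *
      ((lb - muV V P b * sl x v b (insert w (J0.erase (r w)))) /
        (muV V P w * sl x v w (insert w (J0.erase (r w))))) := by
    have h1 := congrArg (fun z => muV V P b * ⟪x b, z⟫_ℝ) (h.expand hJ0 r hr (v J))
    simp only [inner_sub_right, inner_sum, inner_smul_right] at h1
    rw [h.tight J hJ b hbJ] at h1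
    have h2 : muV V P b * (1 - ⟪x b, v J0⟫_ℝ) = lb := rfl
    rw [h2, Finset.mul_sum] at h1
    refine h1.trans ?_
    symm
    have hsub : J \ J0 ⊆ J0ᶜ := by
      intro w hw
      exact Finset.mem_compl.2 (Finset.mem_sdiff.1 hw).2
    rw [← Finset.sum_subset hsub]
    · apply Finset.sum_congr rfl
      intro w hw
      have hw' := (Finset.mem_sdiff.1 hw).2
      have h3 : 0 < muV V P w := h.muV_pos w
      have h4 : 0 < sl x v w (insert w (J0.erase (r w))) :=
        h.sl_pos (hr w hw').2 (Finset.mem_insert_self _ _)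
      have h5 : 1 - ⟪x w, v J⟫_ℝ = sl x v w J := rfl
      have h6 : ⟪x b, v (insert w (J0.erase (r w)))⟫_ℝ - ⟪x b, v J0⟫_ℝ =
          sl x v b J0 - sl x v b (insert w (J0.erase (r w))) := by unfold sl; ring
      rw [h5, h6, hlb]
      field_simp
    · intro w hw hwJ
      have hw' := Finset.mem_compl.1 hw
      have hwJ' : w ∉ J := fun hc => hwJ (Finset.mem_sdiff.2 ⟨hc, hw'⟩)
      rw [h.tight J hJ w hwJ', sub_self, zero_div, zero_mul, mul_zero]
  -- Cauchy-Schwarz
  set κ : Fin N → ℝ := fun w => (lb - muV V P b * sl x v b (insert w (J0.erase (r w)))) /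
        (muV V P w * sl x v w (insert w (J0.erase (r w)))) with hκ
  have hCS := Finset.sum_mul_sq_le_sq_mul_sq (J \ J0) (fun w => √(muV V P w) * sl x v w J)
    (fun w => √(muV V P w) * κ w)
  have e1 : ∑ w ∈ J \ J0, √(muV V P w) * sl x v w J * (√(muV V P w) * κ w) = lb := by
    conv_rhs => rw [hid]
    apply Finset.sum_congr rfl
    intro w _
    have := Real.mul_self_sqrt (h.muV_nonneg w)
    rw [hκ]
    simp only
    calc _ = (√(muV V P w) * √(muV V P w)) * (sl x v w J *
          ((lb - muV V P b * sl x v b (insert w (J0.erase (r w)))) /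
        (muV V P w * sl x v w (insert w (J0.erase (r w)))))) := by ring
      _ = _ := by rw [this]; ring
  have e2 : ∑ w ∈ J \ J0, (√(muV V P w) * sl x v w J) ^ 2 ≤ 31 / 25 * ν := by
    refine le_trans ?_ (hL J hJ)
    calc ∑ w ∈ J \ J0, (√(muV V P w) * sl x v w J) ^ 2
        = ∑ w ∈ J \ J0, muV V P w * sl x v w J ^ 2 := by
          apply Finset.sum_congr rfl
          intro w _
          rw [mul_pow, Real.sq_sqrt (h.muV_nonneg w)]
      _ ≤ _ := Finset.sum_le_sum_of_subset_of_nonneg Finset.sdiff_subset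
          (fun w _ _ => mul_nonneg (h.muV_nonneg w) (sq_nonneg _))
  have e3 : ∑ w ∈ J \ J0, (√(muV V P w) * κ w) ^ 2 ≤ 1250 / 256 * (1 / (8 * ν)) := by
    have h1 : ∀ w ∈ J \ J0, (√(muV V P w) * κ w) ^ 2 ≤ 1250 / 256 *
        (muV V P w * Psi x V P v J0 + muV V P w * Psi x V P v (insert w (J0.erase (r w)))) := by
      intro w hw
      obtain ⟨hwJ, hw'⟩ := Finset.mem_sdiff.1 hw
      have hrb : r w ≠ b := (hcon w hwJ).2 hw'
      have hbm : b ∈ insert w (J0.erase (r w)) :=
        Finset.mem_insert_of_mem (Finset.mem_erase.2 ⟨hrb.symm, hb⟩)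
      rw [mul_pow, Real.sq_sqrt (h.muV_nonneg w)]
      have h2 : κ w ^ 2 ≤ 1250 / 256 * (Psi x V P v J0 +
          Psi x V P v (insert w (J0.erase (r w)))) := by
        have h3 := hlw w hw'
        have h4 := hdev J0 b hb
        rw [← hlb] at h4
        have h5 := hdev _ b hbm
        rw [hκ]
        simp only
        rw [div_pow, div_le_iff₀ (by positivity)]
        have h6 : (256 / 625 : ℝ) ≤ (muV V P w * sl x v w (insert w (J0.erase (r w)))) ^ 2 := by
          nlinarith
        have h7 : (lb - muV V P b * sl x v b (insert w (J0.erase (r w)))) ^ 2 ≤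
            2 * (Psi x V P v J0 + Psi x V P v (insert w (J0.erase (r w)))) := by
          nlinarith [sq_nonneg ((lb - 1) + (muV V P b * sl x v b (insert w (J0.erase (r w))) - 1))]
        have h8 : 0 ≤ Psi x V P v J0 + Psi x V P v (insert w (J0.erase (r w))) :=
          add_nonneg (Psi_nonneg _) (Psi_nonneg _)
        calc _ ≤ 2 * (Psi x V P v J0 + Psi x V P v (insert w (J0.erase (r w)))) := h7
          _ = 1250 / 256 * (Psi x V P v J0 + Psi x V P v (insert w (J0.erase (r w)))) *
              (256 / 625) := by ring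
          _ ≤ _ := mul_le_mul_of_nonneg_left h6 (by positivity)
      calc muV V P w * κ w ^ 2 ≤ muV V P w * (1250 / 256 * (Psi x V P v J0 +
          Psi x V P v (insert w (J0.erase (r w))))) :=
            mul_le_mul_of_nonneg_left h2 (h.muV_nonneg w)
        _ = _ := by ring
    refine (Finset.sum_le_sum h1).trans ?_
    rw [← Finset.mul_sum, Finset.sum_add_distrib]
    apply mul_le_mul_of_nonneg_left _ (by norm_num)
    refine le_trans (add_le_add ?_ ?_) hAsum
    · rw [← Finset.sum_mul]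
      apply mul_le_mul_of_nonneg_right _ (Psi_nonneg _)
      rw [← h.sum_muV]
      exact Finset.sum_le_sum_of_subset_of_nonneg (Finset.subset_univ _)
        (fun l _ _ => h.muV_nonneg l)
    · apply Finset.sum_le_sum_of_subset_of_nonneg
      · intro w hw
        exact Finset.mem_compl.2 (Finset.mem_sdiff.1 hw).2
      · intro w _ _
        exact mul_nonneg (h.muV_nonneg w) (Psi_nonneg _)
  rw [e1] at hCS
  have e4 : (∑ w ∈ J \ J0, (√(muV V P w) * sl x v w J) ^ 2) *
      (∑ w ∈ J \ J0, (√(muV V P w) * κ w) ^ 2) ≤ 31 / 25 * ν * (1250 / 256 * (1 / (8 * ν))) :=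
    mul_le_mul e2 e3 (Finset.sum_nonneg fun _ _ => sq_nonneg _) (by positivity)
  have e5 : 31 / 25 * ν * (1250 / 256 * (1 / (8 * ν))) = 31 / 25 * (1250 / 256) / 8 := by
    field_simp
  rw [e5] at e4
  linarith

end Pool.Agent.Helper66.CapBig
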