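import Mathlib
import Pool.Agent.Helper66.CapBig.Meets
import Pool.Agent.Helper66.CapBig.Closure

/-!
# Product type for `n ≥ 10 k⁴`
-/

set_option autoImplicit false

open Finset
open scoped InnerProductSpace

namespace Pool.Agent.Helper66.CapBig

variable {n k : ℕ} {E : Type} [NormedAddCommGroup E] [InnerProductSpace ℝ E]
  {x : Fin (n + k) → E} {V : Finset (Finset (Fin (n + k)))} {P : Finset (Fin (n + k)) → ℝ}
  {v : Finset (Fin (n + k)) → E}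

theorem numerics {K ν : ℝ} (hK : 3 ≤ K) (hν : 10 * K ^ 4 ≤ ν) :
    270 * K ≤ ν ∧ K ^ 2 / ν ≤ 1 / 90 ∧
    10 / 9 * (K / ν) * (91 / 250 * (K ^ 2 / ν)) ≤ 1 / 10000 ∧
    3 * K * (10 / 9 * (K / ν) * (91 / 250 * (K ^ 2 / ν))) ≤ 99 / 100 * (1 / (8 * ν)) := by
  have hK2 : 9 ≤ K ^ 2 := by nlinarith
  have hK3 : 27 ≤ K ^ 3 := by nlinarith
  have hν1 : 270 * K ≤ ν := by nlinarith
  have hν0 : 0 < ν := by nlinarith
  have h1 : K ^ 2 / ν ≤ 1 / 90 := by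
    rw [div_le_div_iff₀ hν0 (by norm_num)]
    nlinarith
  have hKn : K / ν ≤ 1 / 270 := by
    rw [div_le_div_iff₀ hν0 (by norm_num)]
    linarith
  have hKn0 : 0 ≤ K / ν := by positivity
  have hKn2 : 0 ≤ K ^ 2 / ν := by positivity
  refine ⟨hν1, h1, ?_, ?_⟩
  · calc 10 / 9 * (K / ν) * (91 / 250 * (K ^ 2 / ν)) ≤
        10 / 9 * (1 / 270) * (91 / 250 * (1 / 90)) := by gcongr
      _ ≤ 1 / 10000 := by norm_num
  · have h4 : K ^ 4 / ν ≤ 1 / 10 := by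
      rw [div_le_div_iff₀ hν0 (by norm_num)]
      linarith
    have e1 : 3 * K * (10 / 9 * (K / ν) * (91 / 250 * (K ^ 2 / ν))) =
        91 / 75 * (K ^ 4 / ν) * (1 / ν) := by
      field_simp
      ring
    have e2 : 99 / 100 * (1 / (8 * ν)) = 99 / 800 * (1 / ν) := by
      field_simp
      ring
    rw [e1, e2]
    apply mul_le_mul_of_nonneg_right _ (by positivity)
    linarith

theorem GP.prodType_large (h : GP k x V P v) (hk : 3 ≤ k) (hn : 10 * k ^ 4 ≤ n)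
    (hx : ∀ l, ‖x l‖ ≤ 1) (hx' : ∀ l, 99 / 100 ≤ ‖x l‖ ^ 2)
    (hM : ∀ y, ∑ l, muV V P l * ⟪x l, y⟫_ℝ ^ 2 ≤ 11 / 10 * ((k : ℝ) / n) * ‖y‖ ^ 2)
    (hE : ∑ J ∈ V, P J * ∑ l, muV V P l * ⟪x l, v J⟫_ℝ ^ 2 ≤
      n + 7 / 5 * (13 / 50 * ((k : ℝ) ^ 2 / n)))
    (hR : ∀ J ∈ V, ‖v J‖ ^ 2 ≤ (n : ℝ) ^ 2 / k + 13 / 50 * k) :
    ∃ g : Fin (n + k) → Fin k, ProdType k V g := by
  classical
  have hK : (3 : ℝ) ≤ k := by exact_mod_cast hk
  have hν : 10 * (k : ℝ) ^ 4 ≤ n := by exact_mod_cast hn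
  obtain ⟨h270, h90, hsm, hfin⟩ := numerics hK hν
  have hk0 : (0 : ℝ) < k := by linarith
  have hn0 : (0 : ℝ) < n := by linarith
  have hn200 : (200 : ℝ) ≤ n := by linarith
  -- upper bound for the probabilities
  have hκ : ∀ l, muV V P l ≤ 10 / 9 * ((k : ℝ) / n) := by
    intro l
    have h1 := hM (x l)
    have h2 : muV V P l * ⟪x l, x l⟫_ℝ ^ 2 ≤ ∑ l', muV V P l' * ⟪x l', x l⟫_ℝ ^ 2 :=
      Finset.single_le_sum (f := fun l' => muV V P l' * ⟪x l', x l⟫_ℝ ^ 2)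
        (fun l' _ => mul_nonneg (h.muV_nonneg l') (sq_nonneg _)) (mem_univ l)
    rw [real_inner_self_eq_norm_sq] at h2
    have h3 := hx' l
    have h4 := h.muV_nonneg l
    have h5 : 0 < ‖x l‖ ^ 2 := by linarith
    have h6 : muV V P l * ‖x l‖ ^ 2 ≤ 11 / 10 * ((k : ℝ) / n) := by
      have h7 : (muV V P l * ‖x l‖ ^ 2) * ‖x l‖ ^ 2 ≤ 11 / 10 * ((k : ℝ) / n) * ‖x l‖ ^ 2 := by
        calc _ = muV V P l * (‖x l‖ ^ 2) ^ 2 := by ring
          _ ≤ _ := h2.trans h1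
      exact le_of_mul_le_mul_right h7 h5
    have h7 : muV V P l * (99 / 100) ≤ 11 / 10 * ((k : ℝ) / n) :=
      (mul_le_mul_of_nonneg_left h3 h4).trans h6
    linarith
  -- norm of the vertices
  have hvn : ∀ J ∈ V, ‖v J‖ ≤ n - 1 := by
    intro J hJ
    apply le_of_sq_le_sq _ (by linarith)
    refine (hR J hJ).trans ?_
    have h1 : (n : ℝ) ^ 2 / k ≤ n ^ 2 / 3 := div_le_div_of_nonneg_left (by positivity) (by norm_num) hK
    nlinarith
  -- lower bound for the probabilities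
  have hμ : ∀ w, 1 / (n : ℝ) ≤ muV V P w := by
    intro w
    have h1 := h.mean_sl w
    have h2 : ∑ J ∈ V, P J * sl x v w J ≤ ∑ J ∈ V, (if w ∈ J then P J else 0) * n := by
      apply Finset.sum_le_sum
      intro J hJ
      by_cases hw : w ∈ J
      · rw [if_pos hw]
        apply mul_le_mul_of_nonneg_left _ (h.pos J hJ).le
        unfold sl
        have h3 : -(‖x w‖ * ‖v J‖) ≤ ⟪x w, v J⟫_ℝ := (abs_le.1 (abs_real_inner_le_norm _ _)).1
        have h4 : ‖x w‖ * ‖v J‖ ≤ 1 * (n - 1) :=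
          mul_le_mul (hx w) (hvn J hJ) (norm_nonneg _) zero_le_one
        linarith
      · rw [if_neg hw, h.sl_zero hJ hw]
        simp
    rw [h1, ← Finset.sum_mul] at h2
    rw [div_le_iff₀ hn0]
    exact h2
  -- the base vertex
  have hδ : ∑ J ∈ V, P J * ∑ l, muV V P l * ⟪x l, v J⟫_ℝ ^ 2 ≤
      (((n + k : ℕ) : ℝ) - k) + 91 / 250 * ((k : ℝ) ^ 2 / n) := by
    push_cast
    linarith
  obtain ⟨J0, hJ0, r, hr, hbase⟩ := h.exists_base hκ hδ (by positivity) (by linarith)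
  set e := 10 / 9 * ((k : ℝ) / n) * (91 / 250 * ((k : ℝ) ^ 2 / n)) with he
  have hsq : √e ≤ 1 / 100 := by
    rw [Real.sqrt_le_left (by norm_num)]
    refine hsm.trans (by norm_num)
  set A := k * min (Psi x V P v J0) 1 +
        ∑ w ∈ J0ᶜ, muV V P w * min (Psi x V P v (insert w (J0.erase (r w)))) 1 with hAdef
  have hA0 : 0 ≤ A := add_nonneg (mul_nonneg hk0.le (le_min (Psi_nonneg _) zero_le_one))
    (Finset.sum_nonneg fun w _ => mul_nonneg (h.muV_nonneg w) (le_min (Psi_nonneg _) zero_le_one))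
  have hA : A ≤ 1 / (8 * n) := by
    have h1 : 99 / 100 * A ≤ (1 - √e) * A := mul_le_mul_of_nonneg_right (by linarith) hA0
    have h2 := h1.trans (hbase.trans hfin)
    linarith
  have hL : ∀ J ∈ V, ∑ l ∈ J, muV V P l * sl x v l J ^ 2 ≤ 31 / 25 * (n : ℝ) := by
    intro J hJ
    have h1 := h.slack_moment hJ
    have h2 := hM (v J)
    have h3 : 11 / 10 * ((k : ℝ) / n) * ‖v J‖ ^ 2 ≤ 11 / 10 * n + 143 / 500 * ((k : ℝ) ^ 2 / n) := by
      calc 11 / 10 * ((k : ℝ) / n) * ‖v J‖ ^ 2 ≤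
          11 / 10 * ((k : ℝ) / n) * ((n : ℝ) ^ 2 / k + 13 / 50 * k) :=
            mul_le_mul_of_nonneg_left (hR J hJ) (by positivity)
        _ = _ := by field_simp; ring
    linarith
  have hmeets := h.meets hJ0 r hr (by omega) hn200 hμ hA hL
  -- the partition
  let e0 : J0 ≃ Fin k := J0.equivFinOfCardEq (h.card J0 hJ0)
  let r' : Fin (n + k) → J0 := fun w => if hw : w ∈ J0 then ⟨w, hw⟩ else ⟨r w, (hr w hw).1⟩
  refine ⟨fun w => e0 (r' w), prodType_of_transversal h _ ?_⟩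
  intro J hJ c
  obtain ⟨l, hl, hl2⟩ := hmeets J hJ (e0.symm c) (e0.symm c).2
  refine ⟨l, hl, ?_⟩
  rw [← Equiv.apply_symm_apply e0 c]
  congr 1
  apply Subtype.ext
  simp only [r']
  rcases hl2 with h1 | ⟨h1, h2⟩
  · rw [dif_pos (by rw [h1]; exact (e0.symm c).2)]
    exact h1
  · rw [dif_neg h1]
    exact h2

end Pool.Agent.Helper66.CapBig
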