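import Mathlib
import Pool.Agent.Helper66.CapBig.Defs

/-!
# Limits of product data
-/

set_option autoImplicit false

open Finset Filter Topology
open scoped InnerProductSpace

namespace Pool.Agent.Helper66.CapBig

theorem exists_PD_limit {n N k : ℕ} (x : Fin N → EuclideanSpace ℝ (Fin n)) (R : ℝ)
    (happ : ∀ m : ℕ, ∃ (x' : Fin N → EuclideanSpace ℝ (Fin n)) (g : Fin N → Fin k)
      (β : Fin N → ℝ) (v : (Fin k → Fin N) → EuclideanSpace ℝ (Fin n)),
      (∀ j, ‖x' j - x j‖ ≤ 1 / ((m : ℝ) + 1)) ∧ PD k x' g β v ∧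
      ∀ T, ‖v T‖ ≤ R + 1 / ((m : ℝ) + 1)) :
    ∃ (g : Fin N → Fin k) (β : Fin N → ℝ) (v : (Fin k → Fin N) → EuclideanSpace ℝ (Fin n)),
      PD k x g β v ∧ ∀ T, ‖v T‖ ≤ R := by
  classical
  choose xs gs βs vs h1 h2 h3 using happ
  have hbeta1 : ∀ m l, βs m l ≤ 1 := by
    intro m l
    rw [← (h2 m).sum_one (gs m l)]
    exact Finset.single_le_sum (f := βs m) (fun l _ => (h2 m).nonneg l)
      (Finset.mem_filter.2 ⟨mem_univ l, rfl⟩)
  have hm1 : ∀ m : ℕ, 1 / ((m : ℝ) + 1) ≤ 1 := by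
    intro m
    rw [div_le_one (by positivity)]
    linarith [Nat.cast_nonneg (α := ℝ) m]
  let K : Set ((Fin N → Fin k) × (Fin N → ℝ) × ((Fin k → Fin N) → EuclideanSpace ℝ (Fin n))) :=
    Set.univ ×ˢ (Set.Icc 0 1 ×ˢ Set.pi Set.univ fun _ => Metric.closedBall 0 (R + 1))
  have hK : IsCompact K := isCompact_univ.prod (isCompact_Icc.prod
    (isCompact_univ_pi fun _ => isCompact_closedBall _ _))
  have hmem : ∀ m, ((gs m, βs m, vs m) : (Fin N → Fin k) × (Fin N → ℝ) ×
      ((Fin k → Fin N) → EuclideanSpace ℝ (Fin n))) ∈ K := by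
    intro m
    refine ⟨Set.mem_univ _, ⟨fun l => (h2 m).nonneg l, fun l => hbeta1 m l⟩, ?_⟩
    intro T _
    rw [mem_closedBall_zero_iff]
    linarith [h3 m T, hm1 m]
  obtain ⟨⟨g, β, v⟩, -, φ, hφ, hlim⟩ := hK.tendsto_subseq hmem
  have hg : ∀ᶠ m in atTop, gs (φ m) = g := by
    have h4 : Tendsto (fun m => gs (φ m)) atTop (𝓝 g) := (continuous_fst.tendsto _).comp hlim
    have h5 : ∀ l, ∀ᶠ m in atTop, gs (φ m) l = g l := by
      intro l
      have h6 : Tendsto (fun m => gs (φ m) l) atTop (𝓝 (g l)) :=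
        ((continuous_apply l).tendsto _).comp h4
      rw [nhds_discrete, tendsto_pure] at h6
      exact h6
    rw [← eventually_all] at h5
    filter_upwards [h5] with m hm
    exact funext hm
  have hβ : ∀ l, Tendsto (fun m => βs (φ m) l) atTop (𝓝 (β l)) := fun l =>
    ((continuous_apply l).tendsto _).comp
      (((continuous_fst.comp continuous_snd).tendsto _).comp hlim)
  have hv : ∀ T, Tendsto (fun m => vs (φ m) T) atTop (𝓝 (v T)) := fun T =>
    ((continuous_apply T).tendsto _).comp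
      (((continuous_snd.comp continuous_snd).tendsto _).comp hlim)
  have hone : Tendsto (fun m : ℕ => 1 / ((m : ℝ) + 1)) atTop (𝓝 0) :=
    tendsto_one_div_add_atTop_nhds_zero_nat
  have honeφ : Tendsto (fun m : ℕ => 1 / ((φ m : ℝ) + 1)) atTop (𝓝 0) :=
    hone.comp hφ.tendsto_atTop
  have hx : ∀ l, Tendsto (fun m => xs (φ m) l) atTop (𝓝 (x l)) := by
    intro l
    rw [tendsto_iff_norm_sub_tendsto_zero]
    exact squeeze_zero (fun m => norm_nonneg _) (fun m => h1 (φ m) l) honeφ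
  have hxv : ∀ l T, Tendsto (fun m => ⟪xs (φ m) l, vs (φ m) T⟫_ℝ) atTop (𝓝 ⟪x l, v T⟫_ℝ) :=
    fun l T => (hx l).inner (hv T)
  refine ⟨g, β, v, ⟨?_, ?_, ?_, ?_⟩, ?_⟩
  · intro l
    exact ge_of_tendsto' (hβ l) fun m => (h2 (φ m)).nonneg l
  · intro c
    refine tendsto_nhds_unique (tendsto_finsetSum _ fun l _ => hβ l) ?_
    refine Tendsto.congr' ?_ tendsto_const_nhds
    filter_upwards [hg] with m hm
    rw [← (h2 (φ m)).sum_one c, hm]
  · intro T hT l hl
    refine tendsto_nhds_unique (hxv l T) ?_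
    refine Tendsto.congr' ?_ tendsto_const_nhds
    filter_upwards [hg] with m hm
    rw [(h2 (φ m)).tight T (by rw [hm]; exact hT) l hl]
  · intro y
    refine tendsto_nhds_unique (tendsto_finsetSum _ fun T _ =>
      (tendsto_finsetProd _ fun c _ => hβ (T c)).mul ((hv T).inner tendsto_const_nhds)) ?_
    refine Tendsto.congr' ?_ tendsto_const_nhds
    filter_upwards [hg] with m hm
    rw [← (h2 (φ m)).mean y, hm]
  · intro T
    have h5 : Tendsto (fun m : ℕ => R + 1 / ((φ m : ℝ) + 1)) atTop (𝓝 (R + 0)) :=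
      tendsto_const_nhds.add honeφ
    rw [add_zero] at h5
    exact le_of_tendsto_of_tendsto' (hv T).norm h5 fun m => h3 (φ m) T

end Pool.Agent.Helper66.CapBig
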