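import Mathlib
import Pool.Agent.Helper66.CapBig.Defs
import Pool.Agent.Helper66.CapCover.Main

/-!
# Block B: stability of the second moments
(helper51 for MP_7917db_co)
-/

set_option autoImplicit false

open Finset
open scoped InnerProductSpace

namespace Pool.Agent.Helper66.CapBig

open Pool.Agent.Helper66.CapCover

/-! ### elementary inequalities for three numbers -/

theorem three_le {a b z : ℝ} (ha : 0 < a) (hb : 0 < b) (hz : 0 < z) (h : 1 ≤ a * b * z) :
    3 ≤ a + b + z := by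
  -- `(a+b+z)^3 ≥ 27 abz`
  have h1 : 27 * (a * b * z) ≤ (a + b + z) ^ 3 := by
    nlinarith [mul_nonneg ha.le (sq_nonneg (b - z)), mul_nonneg hb.le (sq_nonneg (a - z)),
      mul_nonneg hz.le (sq_nonneg (a - b)), mul_nonneg ha.le (sq_nonneg (a - b)),
      mul_nonneg ha.le (sq_nonneg (a - z)), mul_nonneg hb.le (sq_nonneg (b - z)),
      mul_nonneg hb.le (sq_nonneg (b - a)), mul_nonneg hz.le (sq_nonneg (z - a)),
      mul_nonneg hz.le (sq_nonneg (z - b))]
  by_contra hc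
  rw [not_le] at hc
  have h2 : (a + b + z) ^ 3 < 3 ^ 3 := pow_lt_pow_left₀ hc (by positivity) (by norm_num)
  linarith

theorem le_eleven {a b z : ℝ} (ha : 0 < a) (hb : 0 < b) (hz : 0 < z) (h : 1 ≤ a * b * z)
    (hs : a + b + z ≤ 3 + 1 / 150) : a ≤ 11 / 10 := by
  by_contra hc
  rw [not_le] at hc
  have h1 : 4 ≤ a * (b + z) ^ 2 := by nlinarith [mul_nonneg ha.le (sq_nonneg (b - z))]
  have hu : b + z ≤ 451 / 150 - a := by linarith
  have hu0 : 0 < b + z := by linarith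
  have h2 : (b + z) ^ 2 ≤ (451 / 150 - a) ^ 2 := pow_le_pow_left₀ hu0.le hu 2
  have h3 : a * (b + z) ^ 2 ≤ a * (451 / 150 - a) ^ 2 := mul_le_mul_of_nonneg_left h2 ha.le
  have h4 : a < 451 / 150 := by linarith
  have h5 : a * (451 / 150 - a) ^ 2 < 4 := by
    nlinarith [mul_pos (sub_pos.2 hc) (sub_pos.2 h4),
      mul_pos (mul_pos (sub_pos.2 hc) (sub_pos.2 h4)) ha,
      mul_pos (mul_pos (sub_pos.2 hc) (sub_pos.2 h4)) (sub_pos.2 hc),
      mul_pos (mul_pos (sub_pos.2 hc) (sub_pos.2 h4)) (sub_pos.2 h4)]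
  linarith

theorem ab_le {a b z : ℝ} (ha : 0 < a) (hb : 0 < b) (_hz : 0 < z) (h : 1 ≤ a * b * z)
    (ha' : a ≤ 11 / 10) (hb' : b ≤ 11 / 10) :
    a * b ≤ 1 + 7 / 5 * (a - 1) + 7 / 5 * (b - 1) + 2 / 5 * (z - 1) := by
  set s := √(a * b) with hs
  have hab : 0 < a * b := mul_pos ha hb
  have hs0 : 0 < s := Real.sqrt_pos.2 hab
  have hss : s ^ 2 = a * b := Real.sq_sqrt hab.le
  have hs1 : s ≤ 11 / 10 := by
    have : s ^ 2 ≤ (11 / 10) ^ 2 := by rw [hss]; nlinarith
    exact le_of_sq_le_sq this (by norm_num)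
  have h2s : 2 * s ≤ a + b := by
    have : (2 * s) ^ 2 ≤ (a + b) ^ 2 := by
      rw [mul_pow, hss]; nlinarith [sq_nonneg (a - b)]
    exact le_of_sq_le_sq this (by linarith)
  have hz1 : 1 ≤ s ^ 2 * z := by rw [hss]; exact h
  have hq : 0 ≤ (s - 1) ^ 2 * (-s ^ 2 + 4 / 5 * s + 2 / 5) := by
    apply mul_nonneg (sq_nonneg _)
    nlinarith
  -- multiply the claim by `s^2`
  rw [← hss]
  have key : 0 ≤ s ^ 2 * (1 + 7 / 5 * (a - 1) + 7 / 5 * (b - 1) + 2 / 5 * (z - 1) - s ^ 2) := by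
    have e : s ^ 2 * (1 + 7 / 5 * (a - 1) + 7 / 5 * (b - 1) + 2 / 5 * (z - 1) - s ^ 2) =
        (s - 1) ^ 2 * (-s ^ 2 + 4 / 5 * s + 2 / 5) + 7 / 5 * s ^ 2 * (a + b - 2 * s) +
          2 / 5 * (s ^ 2 * z - 1) := by ring
    rw [e]
    have h1 : 0 ≤ 7 / 5 * s ^ 2 * (a + b - 2 * s) := by
      apply mul_nonneg (by positivity) (by linarith)
    have h2 : 0 ≤ 2 / 5 * (s ^ 2 * z - 1) := by linarith
    linarith
  have := nonneg_of_mul_nonneg_right key (by positivity)
  linarith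

theorem moment_bounds {n N : ℕ} {x : Fin N → EuclideanSpace ℝ (Fin n)}
    {p : (Fin n → Fin N) → ℝ} {v : (Fin n → Fin N) → EuclideanSpace ℝ (Fin n)}
    (h : IsMeasE x p v) (hx : ∀ j, ‖x j‖ ≤ 1) (hn : 0 < n) (hN : n < N) (ε : ℝ)
    (hε : ε ≤ 1 / 150)
    (hv : ∑ t, p t * ‖v t‖ ^ 2 ≤ (n : ℝ) ^ 2 / ((N : ℝ) - n) + n / ((N : ℝ) - n) * ε) :
    (∀ y, ∑ j, mu p j * ⟪x j, y⟫_ℝ ^ 2 ≤ 11 / 10 * (((N : ℝ) - n) / n) * ‖y‖ ^ 2) ∧
    ∑ t, p t * ∑ j, mu p j * ⟪x j, v t⟫_ℝ ^ 2 ≤ n + 7 / 5 * ε := by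
  classical
  have hn' : (0 : ℝ) < n := by exact_mod_cast hn
  have hk : (0 : ℝ) < (N : ℝ) - n := by
    have : (n : ℝ) < N := by exact_mod_cast hN
    linarith
  set k : ℝ := (N : ℝ) - n with hkdef
  set κ : ℝ := k / n with hκ
  have hκpos : 0 < κ := div_pos hk hn'
  obtain ⟨b, lam, hlam, hb, -⟩ := key_ineq h hx hn hN
  have hlamform : ∀ a, lam a = ∑ j, mu p j * ⟪x j, b a⟫_ℝ * ⟪x j, b a⟫_ℝ := by
    intro a
    rw [← inner_Top, hb a, inner_smul_left]
    simp
  -- trace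
  have htr : ∑ a, lam a ≤ k := by
    have h1 : ∑ a, lam a = ∑ j, mu p j * ‖x j‖ ^ 2 := by
      simp_rw [hlamform]
      rw [Finset.sum_comm]
      apply Finset.sum_congr rfl
      intro j _
      rw [← b.sum_sq_norm_inner_right (x j), Finset.mul_sum]
      apply Finset.sum_congr rfl
      intro a _
      rw [Real.norm_eq_abs, sq_abs, real_inner_comm (b a) (x j)]
      ring
    rw [h1, hkdef, ← h.sum_mu]
    apply Finset.sum_le_sum
    intro j _
    have h2 : ‖x j‖ ^ 2 ≤ 1 := by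
      have := hx j
      nlinarith [norm_nonneg (x j)]
    exact mul_le_of_le_one_right (h.mu_nonneg j) h2
  -- the second moments of `g`
  have hsumG : ∑ t, p t * ∑ a, ⟪gv x p t, b a⟫_ℝ ^ 2 / lam a ≤ n := by
    have h1 : ∀ t, p t * ∑ a, ⟪gv x p t, b a⟫_ℝ ^ 2 / lam a ≤
        p t * ∑ j, (Jt t j - mu p j) ^ 2 / mu p j := by
      intro t
      by_cases ht : p t = 0
      · rw [ht]; simp
      · rw [sum_dev h b lam (fun a => (hlam a).ne') hb t ht]
        apply mul_le_mul_of_nonneg_left _ (h.nonneg t)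
        apply sub_le_self
        apply Finset.sum_nonneg
        intro j _
        exact mul_nonneg (h.mu_nonneg j) (sq_nonneg _)
    calc ∑ t, p t * ∑ a, ⟪gv x p t, b a⟫_ℝ ^ 2 / lam a
        ≤ ∑ t, p t * ∑ j, (Jt t j - mu p j) ^ 2 / mu p j := Finset.sum_le_sum fun t _ => h1 t
      _ = n - ∑ j, (if mu p j = 0 then (1 : ℝ) else 0) := avg_dev h
      _ ≤ n := by
        apply sub_le_self
        apply Finset.sum_nonneg
        intro j _
        split_ifs <;> norm_num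
  set c : Fin n → ℝ := fun a => ∑ t, p t * ⟪gv x p t, b a⟫_ℝ ^ 2 with hc
  set yy : Fin n → ℝ := fun a => ∑ t, p t * ⟪v t, b a⟫_ℝ ^ 2 with hyy
  have hcz : ∑ a, c a / lam a ≤ n := by
    have : ∑ a, c a / lam a = ∑ t, p t * ∑ a, ⟪gv x p t, b a⟫_ℝ ^ 2 / lam a := by
      simp_rw [Finset.mul_sum]
      rw [Finset.sum_comm]
      apply Finset.sum_congr rfl
      intro a _
      rw [hc]
      simp only
      rw [Finset.sum_div]
      apply Finset.sum_congr rfl
      intro t _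
      ring
    rw [this]; exact hsumG
  have hyn : ∑ a, yy a = ∑ t, p t * ‖v t‖ ^ 2 := by
    rw [hyy]
    simp only
    rw [Finset.sum_comm]
    apply Finset.sum_congr rfl
    intro t _
    rw [← b.sum_sq_norm_inner_right (v t), Finset.mul_sum]
    apply Finset.sum_congr rfl
    intro a _
    rw [Real.norm_eq_abs, sq_abs, real_inner_comm]
  have hc0 : ∀ a, 0 ≤ c a := fun a =>
    Finset.sum_nonneg fun t _ => mul_nonneg (h.nonneg t) (sq_nonneg _)
  have hy0 : ∀ a, 0 ≤ yy a := fun a =>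
    Finset.sum_nonneg fun t _ => mul_nonneg (h.nonneg t) (sq_nonneg _)
  have hyc : ∀ a, 1 ≤ yy a * c a := by
    intro a
    have hcr : ∑ t, p t * ⟪v t, b a⟫_ℝ * ⟪gv x p t, b a⟫_ℝ = -1 := by
      rw [h.cross_gv (b a) (b a), real_inner_self_eq_norm_sq, b.norm_eq_one]
      norm_num
    have := Finset.sum_sq_le_sum_mul_sum_of_sq_eq_mul (univ : Finset (Fin n → Fin N))
      (r := fun t => p t * ⟪v t, b a⟫_ℝ * ⟪gv x p t, b a⟫_ℝ)
      (f := fun t => p t * ⟪v t, b a⟫_ℝ ^ 2) (g := fun t => p t * ⟪gv x p t, b a⟫_ℝ ^ 2)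
      (fun t _ => mul_nonneg (h.nonneg t) (sq_nonneg _))
      (fun t _ => mul_nonneg (h.nonneg t) (sq_nonneg _))
      (fun t _ => by ring)
    rw [hcr] at this
    simpa using this
  have hcp : ∀ a, 0 < c a := by
    intro a
    refine lt_of_le_of_ne (hc0 a) (fun h0 => ?_)
    have := hyc a
    rw [← h0, mul_zero] at this
    linarith
  have hyp : ∀ a, 0 < yy a := by
    intro a
    refine lt_of_le_of_ne (hy0 a) (fun h0 => ?_)
    have := hyc a
    rw [← h0, zero_mul] at this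
    linarith
  -- the three families
  have hA : ∀ a, 0 < lam a / κ := fun a => div_pos (hlam a) hκpos
  have hB : ∀ a, 0 < κ * yy a := fun a => mul_pos hκpos (hyp a)
  have hZ : ∀ a, 0 < c a / lam a := fun a => div_pos (hcp a) (hlam a)
  have hABZ : ∀ a, 1 ≤ lam a / κ * (κ * yy a) * (c a / lam a) := by
    intro a
    have h1 : lam a / κ * (κ * yy a) * (c a / lam a) = yy a * c a := by
      have := (hlam a).ne'
      have := hκpos.ne'
      field_simp
    rw [h1]; exact hyc a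
  have hnk : (n : ℝ) * κ = k := by rw [hκ]; field_simp
  have hSA : ∑ a, lam a / κ ≤ n := by
    rw [← Finset.sum_div, div_le_iff₀ hκpos, hnk]
    exact htr
  have hSB : ∑ a, κ * yy a ≤ n + ε := by
    rw [← Finset.mul_sum, hyn]
    calc κ * ∑ t, p t * ‖v t‖ ^ 2 ≤ κ * ((n : ℝ) ^ 2 / k + n / k * ε) :=
          mul_le_mul_of_nonneg_left hv hκpos.le
      _ = n + ε := by
        rw [hκ]
        field_simp
  have hsum3 : ∑ a, (lam a / κ + κ * yy a + c a / lam a - 3) ≤ ε := by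
    rw [Finset.sum_sub_distrib, Finset.sum_add_distrib, Finset.sum_add_distrib]
    simp only [Finset.sum_const, Finset.card_univ, Fintype.card_fin, nsmul_eq_mul]
    linarith
  have h3 : ∀ a, 0 ≤ lam a / κ + κ * yy a + c a / lam a - 3 := by
    intro a
    have := three_le (hA a) (hB a) (hZ a) (hABZ a)
    linarith
  have hone : ∀ a, lam a / κ + κ * yy a + c a / lam a ≤ 3 + 1 / 150 := by
    intro a
    have := Finset.single_le_sum (f := fun a => lam a / κ + κ * yy a + c a / lam a - 3)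
      (fun a _ => h3 a) (mem_univ a)
    linarith
  have hA' : ∀ a, lam a / κ ≤ 11 / 10 := fun a =>
    le_eleven (hA a) (hB a) (hZ a) (hABZ a) (hone a)
  have hB' : ∀ a, κ * yy a ≤ 11 / 10 := fun a => by
    refine le_eleven (hB a) (hA a) (hZ a) ?_ ?_
    · have := hABZ a
      rwa [mul_comm (lam a / κ)] at this
    · have := hone a
      linarith
  -- the quadratic form in the eigenbasis
  have hform : ∀ y : EuclideanSpace ℝ (Fin n),
      ∑ j, mu p j * ⟪x j, y⟫_ℝ ^ 2 = ∑ a, lam a * ⟪y, b a⟫_ℝ ^ 2 := by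
    intro y
    have h1 : ∑ j, mu p j * ⟪x j, y⟫_ℝ ^ 2 = ⟪Top x (mu p) y, y⟫_ℝ := by
      rw [inner_Top]
      apply Finset.sum_congr rfl
      intro j _
      ring
    rw [h1]
    have h2 : Top x (mu p) y = ∑ a, (lam a * ⟪b a, y⟫_ℝ) • b a := by
      conv_lhs => rw [← b.sum_repr' y]
      rw [map_sum]
      apply Finset.sum_congr rfl
      intro a _
      rw [map_smul, hb a, smul_smul, mul_comm]
    rw [h2, sum_inner]
    apply Finset.sum_congr rfl
    intro a _
    rw [inner_smul_left, real_inner_comm y (b a)]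
    change lam a * ⟪y, b a⟫_ℝ * ⟪y, b a⟫_ℝ = _
    ring
  have hnorm : ∀ y : EuclideanSpace ℝ (Fin n), ∑ a, ⟪y, b a⟫_ℝ ^ 2 = ‖y‖ ^ 2 := by
    intro y
    rw [← b.sum_sq_norm_inner_right y]
    apply Finset.sum_congr rfl
    intro a _
    rw [Real.norm_eq_abs, sq_abs, real_inner_comm]
  refine ⟨fun y => ?_, ?_⟩
  · rw [hform, ← hnorm y, Finset.mul_sum]
    apply Finset.sum_le_sum
    intro a _
    apply mul_le_mul_of_nonneg_right _ (sq_nonneg _)
    have := hA' a
    rwa [div_le_iff₀ hκpos] at this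
  · have h1 : ∑ t, p t * ∑ j, mu p j * ⟪x j, v t⟫_ℝ ^ 2 =
        ∑ a, lam a / κ * (κ * yy a) := by
      simp_rw [hform, Finset.mul_sum]
      rw [Finset.sum_comm]
      apply Finset.sum_congr rfl
      intro a _
      have h2 : lam a / κ * (κ * yy a) = lam a * yy a := by
        have := hκpos.ne'
        field_simp
      rw [h2, hyy]
      simp only
      rw [Finset.mul_sum]
      apply Finset.sum_congr rfl
      intro t _
      ring
    rw [h1]
    calc ∑ a, lam a / κ * (κ * yy a)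
        ≤ ∑ a, (1 + 7 / 5 * (lam a / κ - 1) + 7 / 5 * (κ * yy a - 1) +
            2 / 5 * (c a / lam a - 1)) :=
          Finset.sum_le_sum fun a _ => ab_le (hA a) (hB a) (hZ a) (hABZ a) (hA' a) (hB' a)
      _ = n + 7 / 5 * (∑ a, lam a / κ - n) + 7 / 5 * (∑ a, κ * yy a - n) +
            2 / 5 * (∑ a, c a / lam a - n) := by
          rw [Finset.sum_add_distrib, Finset.sum_add_distrib, Finset.sum_add_distrib,
            ← Finset.mul_sum, ← Finset.mul_sum, ← Finset.mul_sum, Finset.sum_sub_distrib,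
            Finset.sum_sub_distrib, Finset.sum_sub_distrib]
          simp
      _ ≤ n + 7 / 5 * ε := by linarith

end Pool.Agent.Helper66.CapBig
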