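import Mathlib
import Pool.Agent.Helper66.CapBig.Defs
import Pool.Agent.Helper66.CapCover.Ineq

/-!
# The vertices of a simple polytope, indexed by the sets of constraints which are not tight
-/

set_option autoImplicit false

open Finset Matrix
open scoped InnerProductSpace

namespace Pool.Agent.Helper66.CapBig

open Pool.Agent.Helper66.CapCover

section tuples

variable {n N : ℕ}

open Classical in
theorem isMeas_explicit (x : Fin N → Fin n → ℝ)
    (hpos : ∀ y : Fin n → ℝ, y ≠ 0 → ∃ i, 0 < x i ⬝ᵥ y)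
    (hgen : ∀ v : Fin n → ℝ, (univ.filter fun i => x i ⬝ᵥ v = 1).card ≤ n) (Z : ℝ)
    (hZ : Z = ∑ t, sg x t * (mat x t).det) :
    0 < Z ∧ IsMeas x (fun t => sg x t * (mat x t).det / Z)
      (fun t => if Feas x t then vert x t else 0) := by
  have hZpos : 0 < Z := by
    obtain ⟨t, ht⟩ := exists_feas x hpos
    rw [hZ]
    exact Finset.sum_pos' (fun t _ => sg_mul_det_nonneg x t)
      ⟨t, mem_univ _, sg_mul_det_pos x t ht⟩
  have hfeas : ∀ t, (sg x t * (mat x t).det / Z) ≠ 0 → Feas x t := by
    intro t ht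
    apply sg_ne_zero
    intro h0
    apply ht
    rw [h0]; simp
  refine ⟨hZpos, ?_, ?_, ?_, ?_, ?_, ?_, ?_⟩
  · intro t; exact div_nonneg (sg_mul_det_nonneg x t) hZpos.le
  · rw [← Finset.sum_div, ← hZ]; exact div_self hZpos.ne'
  · intro t ht
    by_contra h
    exact ht (injective_of_det x t (hfeas t h).1)
  · intro t b
    by_cases h : (sg x t * (mat x t).det / Z) = 0
    · simp only [h, zero_mul]
    · have hF := hfeas t h
      simp only [if_pos hF]
      rw [vert_tight x t hF.1, sub_self, mul_zero]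
  · intro t j
    by_cases h : (sg x t * (mat x t).det / Z) = 0
    · simp only [h, zero_mul]; exact le_rfl
    · have hF := hfeas t h
      simp only [if_pos hF]
      exact mul_nonpos_of_nonneg_of_nonpos (div_nonneg (sg_mul_det_nonneg x t) hZpos.le)
        (by linarith [hF.2 j])
  · intro c
    have h1 : ∀ t, (sg x t * (mat x t).det / Z) * (if Feas x t then vert x t else 0) c =
        (sg x t * (mat x t).det * vert x t c) / Z := by
      intro t
      by_cases hF : Feas x t
      · rw [if_pos hF]; ring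
      · have : sg x t = 0 := by unfold sg; rw [if_neg hF]
        rw [this]; simp
    simp_rw [h1]
    rw [← Finset.sum_div, sum_vert_eq_zero x hpos hgen c, zero_div]
  · intro c d
    have h1 : ∀ t, (sg x t * (mat x t).det / Z) * (if Feas x t then vert x t else 0) c *
        (∑ b, x (t b) d) = (sg x t * (mat x t).det * vert x t c * (∑ b, x (t b) d)) / Z := by
      intro t
      by_cases hF : Feas x t
      · rw [if_pos hF]; ring
      · have : sg x t = 0 := by unfold sg; rw [if_neg hF]
        rw [this]; simp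
    simp_rw [h1]
    rw [← Finset.sum_div, sum_cross x hpos hgen c d]
    split_ifs
    · rw [← hZ]; exact div_self hZpos.ne'
    · simp

theorem isMeasE_of (x : Fin N → EuclideanSpace ℝ (Fin n)) (p : (Fin n → Fin N) → ℝ)
    (v : (Fin n → Fin N) → Fin n → ℝ) (h : IsMeas (fun i => (x i).ofLp) p v) :
    IsMeasE x p (fun t => WithLp.toLp 2 (v t)) := by
  have hsum : ∀ t : Fin n → Fin N, ∀ d, (∑ b, x (t b)).ofLp d = ∑ b, (x (t b)).ofLp d := by
    intro t d
    rw [WithLp.ofLp_sum, Finset.sum_apply]
  refine ⟨h.nonneg, h.sum_one, ?_, ?_, ?_, ?_, ?_⟩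
  · intro t ht
    by_contra hc
    exact ht (h.inj t hc)
  · intro t ht b
    rw [inner_eq_dot]
    rcases mul_eq_zero.1 (h.tight t b) with h1 | h1
    · exact absurd h1 ht
    · exact sub_eq_zero.1 h1
  · intro t ht j
    rw [inner_eq_dot]
    have h1 := h.feas t j
    have h2 : 0 < p t := lt_of_le_of_ne (h.nonneg t) (Ne.symm ht)
    by_contra hc
    have h3 : 0 < (x j).ofLp ⬝ᵥ v t - 1 := sub_pos.2 (not_le.1 hc)
    exact absurd h1 (not_le.2 (mul_pos h2 h3))
  · intro y
    simp_rw [inner_eq_dot, dotProduct, Finset.mul_sum]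
    rw [Finset.sum_comm]
    apply Finset.sum_eq_zero
    intro c _
    have h1 := h.mean c
    simp_rw [← mul_assoc]
    rw [← Finset.sum_mul, h1, zero_mul]
  · intro y z
    have h1 : ∀ t : Fin n → Fin N, p t * ⟪WithLp.toLp 2 (v t), y⟫_ℝ * ⟪∑ b, x (t b), z⟫_ℝ =
        ∑ c, ∑ d, (p t * v t c * (∑ b, (x (t b)).ofLp d)) * (y.ofLp c * z.ofLp d) := by
      intro t
      rw [inner_eq_dot, inner_eq_dot]
      simp only [dotProduct]
      rw [mul_assoc, Finset.sum_mul_sum, Finset.mul_sum]
      apply Finset.sum_congr rfl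
      intro c _
      rw [Finset.mul_sum]
      apply Finset.sum_congr rfl
      intro d _
      rw [hsum]
      ring
    simp_rw [h1]
    rw [Finset.sum_comm]
    have h2 : ∀ c d : Fin n, ∑ t, (p t * v t c * (∑ b, (x (t b)).ofLp d)) * (y.ofLp c * z.ofLp d) =
        (if c = d then 1 else 0) * (y.ofLp c * z.ofLp d) := by
      intro c d
      rw [← Finset.sum_mul, h.cross c d]
    have h3 : ∀ c : Fin n, ∑ t, ∑ d, (p t * v t c * (∑ b, (x (t b)).ofLp d)) *
        (y.ofLp c * z.ofLp d) = y.ofLp c * z.ofLp c := by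
      intro c
      rw [Finset.sum_comm]
      simp_rw [h2]
      simp
    simp_rw [h3]
    rw [inner_eq_dot]
    rfl

theorem det_ne_of_image (x : Fin N → Fin n → ℝ) (t t' : Fin n → Fin N) (h : (mat x t).det ≠ 0)
    (himg : ∀ b, ∃ c, t' c = t b) : (mat x t').det ≠ 0 := by
  intro h0
  obtain ⟨y, hy0, hy⟩ := Matrix.exists_mulVec_eq_zero_iff.2 h0
  apply hy0
  apply eq_zero_of_orth x t h
  intro b
  obtain ⟨c, hc⟩ := himg b
  rw [← hc]
  exact congrFun hy c

theorem vert_congr (x : Fin N → Fin n → ℝ) (t t' : Fin n → Fin N) (h : (mat x t).det ≠ 0)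
    (h' : (mat x t').det ≠ 0) (himg : ∀ b, ∃ c, t' c = t b) : vert x t' = vert x t := by
  apply vert_unique x t h
  intro b
  obtain ⟨c, hc⟩ := himg b
  rw [← hc]
  exact vert_tight x t' h' c

theorem feas_of_image (x : Fin N → Fin n → ℝ) (t t' : Fin n → Fin N) (h : Feas x t)
    (himg : ∀ b, ∃ c, t' c = t b) : Feas x t' := by
  have h' := det_ne_of_image x t t' h.1 himg
  refine ⟨h', fun j => ?_⟩
  rw [vert_congr x t t' h.1 h' himg]
  exact h.2 j

/-- The weight of an edge. -/
theorem edge_weight (x : Fin N → Fin n → ℝ) (t : Fin n → Fin N) (b : Fin n) (i : Fin N)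
    (ht : Feas x t) (ht' : Feas x (Function.update t b i)) :
    sg x t * (mat x t).det * (1 - x i ⬝ᵥ vert x t) =
      sg x (Function.update t b i) * (mat x (Function.update t b i)).det *
        (1 - x (t b) ⬝ᵥ vert x (Function.update t b i)) := by
  set t' := Function.update t b i with ht'def
  have e1 : sg x t * (mat x t).det = |(mat x t).det| := by
    unfold sg; rw [if_pos ht, sign_mul_self]
  have e2 : sg x t' * (mat x t').det = |(mat x t').det| := by
    unfold sg; rw [if_pos ht', sign_mul_self]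
  have htb : ∀ c, c ≠ b → x (t c) ⬝ᵥ vert x t' = 1 := fun c hc => by
    have := vert_tight x t' ht'.1 c
    rwa [ht'def, Function.update_of_ne hc] at this
  have hi : x i ⬝ᵥ vert x t' = 1 := by
    have := vert_tight x t' ht'.1 b
    rwa [ht'def, Function.update_self] at this
  set τ : ℝ := (x (t b) ⬝ᵥ (vert x t - vert x t')) / (mat x t).det with hτ
  have hline : vert x t - vert x t' = τ • dir x t b := by
    have := eq_zero_of_orth x t ht.1 ((vert x t - vert x t') - τ • dir x t b) (fun c => by
      by_cases hc : c = b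
      · subst hc
        rw [dotProduct_sub, dotProduct_smul, dir_self, smul_eq_mul, hτ,
          div_mul_cancel₀ _ ht.1, sub_self]
      · rw [dotProduct_sub, dotProduct_smul, dir_orth x t b c hc, dotProduct_sub,
          vert_tight x t ht.1 c, htb c hc]
        simp)
    exact sub_eq_zero.1 this
  have h1 : 1 - x (t b) ⬝ᵥ vert x t' = τ * (mat x t).det := by
    have := congrArg (fun y => x (t b) ⬝ᵥ y) hline
    simp only [dotProduct_sub, dotProduct_smul, dir_self, smul_eq_mul] at this
    rw [vert_tight x t ht.1 b] at this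
    exact this
  have h2 : x i ⬝ᵥ vert x t - 1 = τ * (mat x t').det := by
    have := congrArg (fun y => x i ⬝ᵥ y) hline
    simp only [dotProduct_sub, dotProduct_smul, smul_eq_mul] at this
    rw [hi, ← det_update] at this
    exact this
  have h3 : 0 ≤ 1 - x (t b) ⬝ᵥ vert x t' := by linarith [ht'.2 (t b)]
  have h4 : 0 ≤ 1 - x i ⬝ᵥ vert x t := by linarith [ht.2 i]
  rw [e1, e2]
  rw [← abs_of_nonneg h3, ← abs_of_nonneg h4, h1, abs_sub_comm, h2, abs_mul, abs_mul]
  ring

end tuples

theorem exists_GP {n k : ℕ} (hn : 0 < n) (x : Fin (n + k) → EuclideanSpace ℝ (Fin n))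
    (hpos : ∀ y, y ≠ 0 → ∃ i, 0 < ⟪x i, y⟫_ℝ)
    (hgen : ∀ v, (univ.filter fun i => ⟪x i, v⟫_ℝ = 1).card ≤ n) :
    ∃ (V : Finset (Finset (Fin (n + k)))) (P : Finset (Fin (n + k)) → ℝ)
      (v : Finset (Fin (n + k)) → EuclideanSpace ℝ (Fin n)), GP k x V P v ∧
      ∃ (p : (Fin n → Fin (n + k)) → ℝ)
        (w : (Fin n → Fin (n + k)) → EuclideanSpace ℝ (Fin n)), IsMeasE x p w ∧
        ∀ f : Finset (Fin (n + k)) → EuclideanSpace ℝ (Fin n) → ℝ,
          ∑ t, p t * f ((univ.image t)ᶜ) (w t) = ∑ J ∈ V, P J * f J (v J) := by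
  classical
  let X : Fin (n + k) → Fin n → ℝ := fun i => (x i).ofLp
  have hposX : ∀ y : Fin n → ℝ, y ≠ 0 → ∃ i, 0 < X i ⬝ᵥ y := by
    intro y hy
    obtain ⟨i, hi⟩ := hpos (WithLp.toLp 2 y) (by
      intro h0
      apply hy
      have := congrArg WithLp.ofLp h0
      simpa using this)
    exact ⟨i, by rw [inner_eq_dot] at hi; exact hi⟩
  have hgenX : ∀ v : Fin n → ℝ, (univ.filter fun i => X i ⬝ᵥ v = 1).card ≤ n := by
    intro v
    have h := hgen (WithLp.toLp 2 v)
    simp_rw [inner_eq_dot] at h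
    exact h
  obtain ⟨hZpos, hmeas⟩ := isMeas_explicit X hposX hgenX _ rfl
  set Z := ∑ t, sg X t * (mat X t).det with hZdef
  set p : (Fin n → Fin (n + k)) → ℝ := fun t => sg X t * (mat X t).det / Z with hp
  set w : (Fin n → Fin (n + k)) → EuclideanSpace ℝ (Fin n) :=
    fun t => WithLp.toLp 2 (if Feas X t then vert X t else 0) with hw
  have hM : IsMeasE x p w := isMeasE_of x p _ hmeas
  have hp0 : ∀ t, ¬ Feas X t → p t = 0 := by
    intro t ht
    have : sg X t = 0 := by unfold sg; rw [if_neg ht]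
    simp [hp, this]
  have hppos : ∀ t, Feas X t → 0 < p t := fun t ht => div_pos (sg_mul_det_pos X t ht) hZpos
  let Fs : Finset (Fin n → Fin (n + k)) := univ.filter fun t => Feas X t
  let cp : (Fin n → Fin (n + k)) → Finset (Fin (n + k)) := fun t => (univ.image t)ᶜ
  let V : Finset (Finset (Fin (n + k))) := Fs.image cp
  let P : Finset (Fin (n + k)) → ℝ := fun J => ∑ t ∈ Fs.filter (fun t => cp t = J), p t
  let v : Finset (Fin (n + k)) → EuclideanSpace ℝ (Fin n) := fun J =>
    if h : ∃ t, Feas X t ∧ cp t = J then WithLp.toLp 2 (vert X h.choose) else 0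
  have hcp : ∀ t l, l ∉ cp t ↔ ∃ b, t b = l := by
    intro t l
    simp [cp]
  have himg : ∀ t t', cp t = cp t' → ∀ b, ∃ c, t' c = t b := by
    intro t t' h b
    have : t b ∉ cp t := (hcp t _).2 ⟨b, rfl⟩
    rw [h] at this
    exact (hcp t' _).1 this
  have hv : ∀ t, Feas X t → v (cp t) = WithLp.toLp 2 (vert X t) := by
    intro t ht
    have h : ∃ t', Feas X t' ∧ cp t' = cp t := ⟨t, ht, rfl⟩
    simp only [v, dif_pos h]
    have h1 := h.choose_spec
    rw [vert_congr X t h.choose ht.1 h1.1.1 (himg t _ h1.2.symm)]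
  have hVex : ∀ J ∈ V, ∃ t, Feas X t ∧ cp t = J := by
    intro J hJ
    obtain ⟨t, ht, htJ⟩ := Finset.mem_image.1 hJ
    exact ⟨t, (Finset.mem_filter.1 ht).2, htJ⟩
  have hVof : ∀ t, Feas X t → cp t ∈ V := fun t ht =>
    Finset.mem_image.2 ⟨t, Finset.mem_filter.2 ⟨mem_univ _, ht⟩, rfl⟩
  have hinner : ∀ l t, Feas X t → ⟪x l, v (cp t)⟫_ℝ = X l ⬝ᵥ vert X t := by
    intro l t ht
    rw [hv t ht, inner_eq_dot]
  -- the transfer identity
  have htrans : ∀ f : Finset (Fin (n + k)) → EuclideanSpace ℝ (Fin n) → ℝ,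
          ∑ t, p t * f ((univ.image t)ᶜ) (w t) = ∑ J ∈ V, P J * f J (v J) := by
    intro f
    have e1 : ∑ t, p t * f ((univ.image t)ᶜ) (w t) = ∑ t ∈ Fs, p t * f (cp t) (v (cp t)) := by
      rw [Finset.sum_filter]
      apply Finset.sum_congr rfl
      intro t _
      by_cases ht : Feas X t
      · rw [if_pos ht, hv t ht]
        simp only [hw, if_pos ht, cp]
      · rw [if_neg ht, hp0 t ht, zero_mul]
    rw [e1, ← Finset.sum_fiberwise_of_maps_to (g := cp) (t := V)
      (fun t ht => Finset.mem_image_of_mem cp ht)]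
    apply Finset.sum_congr rfl
    intro J _
    simp only [P]
    rw [Finset.sum_mul]
    apply Finset.sum_congr rfl
    intro t ht
    rw [(Finset.mem_filter.1 ht).2]
  -- swapping
  have hupd_img : ∀ (t : Fin n → Fin (n + k)) (b : Fin n) (i : Fin (n + k)),
      Function.Injective t → i ∈ cp t → cp (Function.update t b i) = insert (t b) ((cp t).erase i) := by
    intro t b i hinj hi
    ext l
    rw [← not_iff_not, hcp, Finset.mem_insert, Finset.mem_erase, not_or, not_and_or, not_not, hcp]
    constructor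
    · rintro ⟨c, hc⟩
      by_cases hcb : c = b
      · subst hcb
        rw [Function.update_self] at hc
        subst hc
        refine ⟨?_, Or.inl rfl⟩
        intro h
        have : i ∉ cp t := (hcp t i).2 ⟨c, h.symm⟩
        exact this hi
      · rw [Function.update_of_ne hcb] at hc
        subst hc
        exact ⟨fun h => hcb (hinj h), Or.inr ⟨c, rfl⟩⟩
    · rintro ⟨h1, h2 | ⟨c, hc⟩⟩
      · exact ⟨b, by rw [Function.update_self, h2]⟩
      · refine ⟨c, ?_⟩
        have hcb : c ≠ b := by rintro rfl; exact h1 hc.symm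
        rw [Function.update_of_ne hcb, hc]
  refine ⟨V, P, v, ?_, p, w, hM, htrans⟩
  refine
    { nonempty := ?_, card := ?_, tight := ?_, slack := ?_, pos := ?_, sum_one := ?_, mean := ?_,
      cross := ?_, span := ?_, piv := ?_, uniq := ?_ }
  · obtain ⟨t, ht⟩ := exists_feas X hposX
    exact ⟨cp t, hVof t ht⟩
  · intro J hJ
    obtain ⟨t, ht, rfl⟩ := hVex J hJ
    simp only [cp]
    rw [Finset.card_compl, Finset.card_image_of_injective _ (injective_of_det X t ht.1)]
    simp
  · intro J hJ l hl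
    obtain ⟨t, ht, rfl⟩ := hVex J hJ
    obtain ⟨b, rfl⟩ := (hcp t l).1 hl
    rw [hinner _ t ht]
    exact vert_tight X t ht.1 b
  · intro J hJ l hl
    obtain ⟨t, ht, rfl⟩ := hVex J hJ
    rw [hinner _ t ht]
    refine lt_of_le_of_ne (ht.2 l) ?_
    intro heq
    have hsub : insert l (univ.image t) ⊆ univ.filter fun j => X j ⬝ᵥ vert X t = 1 := by
      intro j hj
      rw [Finset.mem_filter]
      refine ⟨mem_univ _, ?_⟩
      rcases Finset.mem_insert.1 hj with rfl | hj
      · exact heq
      · obtain ⟨b, -, rfl⟩ := Finset.mem_image.1 hj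
        exact vert_tight X t ht.1 b
    have hnot : l ∉ univ.image t := Finset.mem_compl.1 hl
    have hcard := card_le_card hsub
    rw [card_insert_of_notMem hnot, card_image_of_injective _ (injective_of_det X t ht.1),
      card_univ, Fintype.card_fin] at hcard
    have := hgenX (vert X t)
    omega
  · intro J hJ
    obtain ⟨t, ht, rfl⟩ := hVex J hJ
    refine Finset.sum_pos (fun t' ht' => ?_) ⟨t, ?_⟩
    · exact hppos t' (Finset.mem_filter.1 (Finset.mem_filter.1 ht').1).2
    · exact Finset.mem_filter.2 ⟨Finset.mem_filter.2 ⟨mem_univ _, ht⟩, rfl⟩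
  · have := htrans (fun _ _ => 1)
    simp only [mul_one] at this
    rw [← this]
    exact hM.sum_one
  · intro y
    rw [← htrans (fun _ u => ⟪u, y⟫_ℝ)]
    exact hM.mean y
  · intro y z
    have e1 : ∑ J ∈ V, P J * ⟪v J, y⟫_ℝ * ⟪∑ l ∈ J, x l, z⟫_ℝ =
        ∑ t, p t * (⟪w t, y⟫_ℝ * ⟪∑ l ∈ (univ.image t)ᶜ, x l, z⟫_ℝ) := by
      rw [htrans (fun J u => ⟪u, y⟫_ℝ * ⟪∑ l ∈ J, x l, z⟫_ℝ)]
      apply Finset.sum_congr rfl
      intro J _
      ring
    rw [e1]
    have e2 : ∀ t, p t * (⟪w t, y⟫_ℝ * ⟪∑ l ∈ (univ.image t)ᶜ, x l, z⟫_ℝ) =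
        p t * ⟪w t, y⟫_ℝ * ⟪∑ l, x l, z⟫_ℝ - p t * ⟪w t, y⟫_ℝ * ⟪∑ b, x (t b), z⟫_ℝ := by
      intro t
      by_cases ht : p t = 0
      · simp [ht]
      · have hinj := hM.inj t ht
        have e3 : ∑ l ∈ (univ.image t)ᶜ, x l = ∑ l, x l - ∑ b, x (t b) := by
          rw [← Finset.sum_compl_add_sum (univ.image t), Finset.sum_image (fun a _ b _ h => hinj h)]
          abel
        rw [e3, inner_sub_left]
        ring
    simp_rw [e2]
    rw [Finset.sum_sub_distrib, hM.cross y z, ← Finset.sum_mul, hM.mean y, zero_mul, zero_sub]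
  · intro J hJ y hy
    obtain ⟨t, ht, rfl⟩ := hVex J hJ
    have h0 : y.ofLp = 0 := by
      apply eq_zero_of_orth X t ht.1
      intro b
      have := hy (t b) ((hcp t _).2 ⟨b, rfl⟩)
      rwa [inner_eq_dot] at this
    have := congrArg (WithLp.toLp 2) h0
    simpa using this
  · intro J hJ w0 hw0
    obtain ⟨t0, ht0, rfl⟩ := hVex J hJ
    obtain ⟨b0, rfl⟩ := (hcp t0 w0).1 hw0
    obtain ⟨i, hi, hneg⟩ := exists_other_side X hposX t0 b0 ht0
    have hinj0 := injective_of_det X t0 ht0.1
    have hiJ : i ∈ cp t0 := by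
      by_contra hcon
      obtain ⟨c, hc⟩ := (hcp t0 i).1 hcon
      by_cases hcb : c = b0
      · subst hcb
        rw [← hc, Function.update_eq_self] at hneg
        exact absurd hneg (not_lt.2 (mul_self_nonneg _))
      · have h1 := injective_of_det X _ hi.1
        apply hcb
        apply h1
        rw [Function.update_self, Function.update_of_ne hcb, hc]
    have hJ' : cp (Function.update t0 b0 i) = insert (t0 b0) ((cp t0).erase i) :=
      hupd_img t0 b0 i hinj0 hiJ
    refine ⟨i, hiJ, hJ' ▸ hVof _ hi, ?_⟩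
    rw [← hJ']
    -- both sides are sums over fibres
    have hsl : ∀ t l, Feas X t → sl x v l (cp t) = 1 - X l ⬝ᵥ vert X t := by
      intro t l ht
      unfold sl
      rw [hinner l t ht]
    have eL : P (cp t0) * sl x v i (cp t0) =
        ∑ t ∈ Fs.filter (fun t => cp t = cp t0), p t * (1 - X i ⬝ᵥ vert X t) := by
      simp only [P]
      rw [Finset.sum_mul]
      apply Finset.sum_congr rfl
      intro t ht
      have ht1 := (Finset.mem_filter.1 (Finset.mem_filter.1 ht).1).2
      have ht2 := (Finset.mem_filter.1 ht).2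
      rw [← ht2, hsl t i ht1]
    have eR : P (cp (Function.update t0 b0 i)) * sl x v (t0 b0) (cp (Function.update t0 b0 i)) =
        ∑ t ∈ Fs.filter (fun t => cp t = cp (Function.update t0 b0 i)),
          p t * (1 - X (t0 b0) ⬝ᵥ vert X t) := by
      simp only [P]
      rw [Finset.sum_mul]
      apply Finset.sum_congr rfl
      intro t ht
      have ht1 := (Finset.mem_filter.1 (Finset.mem_filter.1 ht).1).2
      have ht2 := (Finset.mem_filter.1 ht).2
      rw [← ht2, hsl t (t0 b0) ht1]
    rw [eL, eR]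
    have hne : t0 b0 ≠ i := by
      intro h
      exact ((hcp t0 i).2 ⟨b0, h⟩) hiJ
    -- the bijection
    have hswap : ∀ t : Fin n → Fin (n + k), ∀ b, Function.Injective t → t b = t0 b0 → i ∈ cp t →
        (Equiv.swap (t0 b0) i) ∘ t = Function.update t b i := by
      intro t b hinj hb hit
      funext c
      by_cases hcb : c = b
      · subst hcb
        rw [Function.update_self, Function.comp_apply, hb, Equiv.swap_apply_left]
      · rw [Function.update_of_ne hcb, Function.comp_apply]
        apply Equiv.swap_apply_of_ne_of_ne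
        · intro h
          apply hcb
          apply hinj
          rw [h, hb]
        · intro h
          exact ((hcp t i).2 ⟨c, h⟩) hit
    refine Finset.sum_bij' (fun t _ => (Equiv.swap (t0 b0) i) ∘ t)
      (fun t _ => (Equiv.swap (t0 b0) i) ∘ t) ?_ ?_ ?_ ?_ ?_
    · intro t ht
      have ht1 := (Finset.mem_filter.1 (Finset.mem_filter.1 ht).1).2
      have ht2 := (Finset.mem_filter.1 ht).2
      obtain ⟨b, hb⟩ := himg t0 t ht2.symm b0
      have hinj := injective_of_det X t ht1.1
      have hit : i ∈ cp t := by rw [ht2]; exact hiJ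
      rw [hswap t b hinj hb hit]
      have hcpt : cp (Function.update t b i) = cp (Function.update t0 b0 i) := by
        rw [hupd_img t b i hinj hit, hJ', ht2, hb]
      refine Finset.mem_filter.2 ⟨Finset.mem_filter.2 ⟨mem_univ _, ?_⟩, hcpt⟩
      exact feas_of_image X _ _ hi (himg _ _ hcpt.symm)
    · intro t ht
      have ht1 := (Finset.mem_filter.1 (Finset.mem_filter.1 ht).1).2
      have ht2 := (Finset.mem_filter.1 ht).2
      obtain ⟨b, hb⟩ := himg (Function.update t0 b0 i) t ht2.symm b0
      rw [Function.update_self] at hb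
      have hinj := injective_of_det X t ht1.1
      have hit : t0 b0 ∈ cp t := by rw [ht2, hJ']; exact Finset.mem_insert_self _ _
      have hs : (Equiv.swap (t0 b0) i) ∘ t = Function.update t b (t0 b0) := by
        funext c
        by_cases hcb : c = b
        · subst hcb
          rw [Function.update_self, Function.comp_apply, hb, Equiv.swap_apply_right]
        · rw [Function.update_of_ne hcb, Function.comp_apply]
          apply Equiv.swap_apply_of_ne_of_ne
          · intro h
            exact ((hcp t (t0 b0)).2 ⟨c, h⟩) hit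
          · intro h
            apply hcb
            apply hinj
            rw [h, hb]
      rw [hs]
      have hcpt : cp (Function.update t b (t0 b0)) = cp t0 := by
        rw [hupd_img t b (t0 b0) hinj hit, ht2, hJ', hb, Finset.erase_insert, Finset.insert_erase hiJ]
        intro h
        exact hw0 (Finset.mem_of_mem_erase h)
      refine Finset.mem_filter.2 ⟨Finset.mem_filter.2 ⟨mem_univ _, ?_⟩, hcpt⟩
      exact feas_of_image X _ _ ht0 (himg _ _ hcpt.symm)
    · intro t _
      funext c
      simp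
    · intro t _
      funext c
      simp
    · intro t ht
      have ht1 := (Finset.mem_filter.1 (Finset.mem_filter.1 ht).1).2
      have ht2 := (Finset.mem_filter.1 ht).2
      obtain ⟨b, hb⟩ := himg t0 t ht2.symm b0
      have hinj := injective_of_det X t ht1.1
      have hit : i ∈ cp t := by rw [ht2]; exact hiJ
      have hcpt : cp (Function.update t b i) = cp (Function.update t0 b0 i) := by
        rw [hupd_img t b i hinj hit, hJ', ht2, hb]
      have hfe : Feas X (Function.update t b i) := feas_of_image X _ _ hi (himg _ _ hcpt.symm)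
      rw [hswap t b hinj hb hit]
      have := edge_weight X t b i ht1 hfe
      rw [hb] at this
      simp only [hp]
      rw [div_mul_eq_mul_div, div_mul_eq_mul_div, this]
  · intro J hJ w0 hw0 a ha a' ha' hVa hVa'
    by_contra hne
    obtain ⟨t0, ht0, rfl⟩ := hVex J hJ
    obtain ⟨b0, rfl⟩ := (hcp t0 w0).1 hw0
    have hinj0 := injective_of_det X t0 ht0.1
    have hfa : ∀ c ∈ cp t0, insert (t0 b0) ((cp t0).erase c) ∈ V → Feas X (Function.update t0 b0 c) := by
      intro c hc hVc
      obtain ⟨t1, ht1, h1⟩ := hVex _ hVc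
      rw [← hupd_img t0 b0 c hinj0 hc] at h1
      exact feas_of_image X _ _ ht1 (himg _ _ h1)
    have f1 := hfa a ha hVa
    have f2 := hfa a' ha' hVa'
    have f0 : Feas X (Function.update t0 b0 (t0 b0)) := by rw [Function.update_eq_self]; exact ht0
    have n1 : t0 b0 ≠ a := fun h => hw0 (h ▸ ha)
    have n2 : t0 b0 ≠ a' := fun h => hw0 (h ▸ ha')
    have s1 := same_side X hgenX t0 b0 (t0 b0) a n1 f0 f1
    have s2 := same_side X hgenX t0 b0 (t0 b0) a' n2 f0 f2
    have s3 := same_side X hgenX t0 b0 a a' hne f1 f2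
    set d0 := (mat X (Function.update t0 b0 (t0 b0))).det
    set d1 := (mat X (Function.update t0 b0 a)).det
    set d2 := (mat X (Function.update t0 b0 a')).det
    have h1 : 0 < (d0 * d1) * (d0 * d2) := mul_pos_of_neg_of_neg s1 s2
    have h2 : 0 ≤ (d0 * d0) := mul_self_nonneg d0
    have h3 : (d0 * d1) * (d0 * d2) = (d0 * d0) * (d1 * d2) := by ring
    rw [h3] at h1
    exact absurd h1 (not_lt.2 (mul_nonpos_of_nonneg_of_nonpos h2 s3.le))

end Pool.Agent.Helper66.CapBig
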