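import Mathlib
import Pool.Agent.Helper66.CapBig.Large
import Pool.Agent.Helper66.CapBig.Balance
import Pool.Agent.Helper66.CapBig.Limit
import Pool.Agent.Helper66.CapBig.Vertices
import Pool.Agent.Helper66.CapBig.Moments
import Pool.Agent.Helper66.CapBig.Approx

/-!
# Product data for an arbitrary configuration
-/

set_option autoImplicit false

open Finset
open scoped InnerProductSpace

namespace Pool.Agent.Helper66.CapBig

open Pool.Agent.Helper66.CapCover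

/-- All simple polytopes near `x` and of circumradius not much larger than `R` are of product
type. -/
def Good (n k : ℕ) (x : Fin (n + k) → EuclideanSpace ℝ (Fin n)) (R : ℝ) : Prop :=
  ∃ ε0 : ℝ, 0 < ε0 ∧ ∀ (x' : Fin (n + k) → EuclideanSpace ℝ (Fin n))
    (V : Finset (Finset (Fin (n + k)))) (P : Finset (Fin (n + k)) → ℝ)
    (v : Finset (Fin (n + k)) → EuclideanSpace ℝ (Fin n)), (∀ j, ‖x' j - x j‖ ≤ ε0) →
    (∀ j, ‖x' j‖ ≤ 1) → GP k x' V P v →
    (∃ (p : (Fin n → Fin (n + k)) → ℝ)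
        (w : (Fin n → Fin (n + k)) → EuclideanSpace ℝ (Fin n)), IsMeasE x' p w ∧
        ∀ f : Finset (Fin (n + k)) → EuclideanSpace ℝ (Fin n) → ℝ,
          ∑ t, p t * f ((univ.image t)ᶜ) (w t) = ∑ J ∈ V, P J * f J (v J)) →
    (∀ J ∈ V, ‖v J‖ ≤ R + ε0) → ∃ g : Fin (n + k) → Fin k, ProdType k V g

theorem good_small {n k : ℕ} (hk : 1 ≤ k) (hk2 : k ≤ 2)
    (x : Fin (n + k) → EuclideanSpace ℝ (Fin n)) (R : ℝ) : Good n k x R := by
  refine ⟨1, one_pos, ?_⟩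
  intro x' V P v _ _ h _ _
  interval_cases k
  · exact prodType_one h
  · exact prodType_two h

theorem good_large {n k : ℕ} (hk : 3 ≤ k) (hn : 10 * k ^ 4 ≤ n)
    (x : Fin (n + k) → EuclideanSpace ℝ (Fin n)) (hx : ∀ j, ‖x j‖ = 1) (R : ℝ) (hR0 : 0 ≤ R)
    (hR : R ^ 2 ≤ (n : ℝ) ^ 2 / k + k / 4) : Good n k x R := by
  classical
  have hK : (3 : ℝ) ≤ k := by exact_mod_cast hk
  have hν : 10 * (k : ℝ) ^ 4 ≤ n := by exact_mod_cast hn
  obtain ⟨h270, h90, -, -⟩ := numerics hK hν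
  have hk0 : (0 : ℝ) < k := by linarith
  have hn0 : (0 : ℝ) < n := by linarith
  have hnn : 0 < n := by exact_mod_cast hn0
  -- the size of the perturbation
  set ε0 : ℝ := min (1 / 200) (1 / 100 / (2 * R + 1)) with hε0
  have hε0pos : 0 < ε0 := lt_min (by norm_num) (by positivity)
  have hε1 : ε0 ≤ 1 / 200 := min_le_left _ _
  have hε2 : ε0 * (2 * R + 1) ≤ 1 / 100 := by
    have h1 : ε0 ≤ 1 / 100 / (2 * R + 1) := min_le_right _ _
    rwa [le_div_iff₀ (by positivity)] at h1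
  have hRε : (R + ε0) ^ 2 ≤ (n : ℝ) ^ 2 / k + 13 / 50 * k := by
    have h1 : (R + ε0) ^ 2 ≤ R ^ 2 + ε0 * (2 * R + 1) := by nlinarith
    linarith
  refine ⟨ε0, hε0pos, ?_⟩
  intro x' V P v hclose hx1 h hmeas hvR
  obtain ⟨p, w, hpw, htr⟩ := hmeas
  have hvR2 : ∀ J ∈ V, ‖v J‖ ^ 2 ≤ (n : ℝ) ^ 2 / k + 13 / 50 * k := by
    intro J hJ
    refine le_trans ?_ hRε
    exact pow_le_pow_left₀ (norm_nonneg _) (hvR J hJ) 2
  have hNn : (((n + k : ℕ) : ℝ) - n) = k := by push_cast; ring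
  have hmu : ∀ j, mu p j = muV V P j := by
    intro j
    have h1 := htr (fun J _ => if j ∈ J then 1 else 0)
    have h2 : ∀ t : Fin n → Fin (n + k), (if j ∈ (univ.image t)ᶜ then (1 : ℝ) else 0) = Jt t j := by
      intro t
      unfold Jt
      by_cases hj : j ∈ Set.range t
      · rw [if_pos hj, if_neg]
        obtain ⟨b, hb⟩ := hj
        simp only [Finset.mem_compl, not_not]
        exact Finset.mem_image.2 ⟨b, mem_univ b, hb⟩
      · rw [if_neg hj, if_pos]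
        rw [Finset.mem_compl]
        intro hc
        obtain ⟨b, -, hb⟩ := Finset.mem_image.1 hc
        exact hj ⟨b, hb⟩
    simp_rw [h2] at h1
    unfold mu muV
    rw [h1]
    apply Finset.sum_congr rfl
    intro J _
    split_ifs <;> simp
  have hmean : ∑ t, p t * ‖w t‖ ^ 2 ≤ (n : ℝ) ^ 2 / (((n + k : ℕ) : ℝ) - n) +
      n / (((n + k : ℕ) : ℝ) - n) * (13 / 50 * ((k : ℝ) ^ 2 / n)) := by
    have h1 := htr (fun _ y => ‖y‖ ^ 2)
    rw [h1, hNn]
    calc ∑ J ∈ V, P J * ‖v J‖ ^ 2 ≤ ∑ J ∈ V, P J * ((n : ℝ) ^ 2 / k + 13 / 50 * k) :=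
          Finset.sum_le_sum fun J hJ => mul_le_mul_of_nonneg_left (hvR2 J hJ) (h.pos J hJ).le
      _ = (n : ℝ) ^ 2 / k + 13 / 50 * k := by rw [← Finset.sum_mul, h.sum_one, one_mul]
      _ = _ := by field_simp
  obtain ⟨hM, hE⟩ := moment_bounds hpw hx1 hnn (by omega) (13 / 50 * ((k : ℝ) ^ 2 / n))
    (by linarith) hmean
  simp_rw [hmu] at hM hE
  rw [hNn] at hM
  have hE' := htr (fun _ y => ∑ j, muV V P j * ⟪x' j, y⟫_ℝ ^ 2)
  rw [hE'] at hE
  apply h.prodType_large hk hn hx1 _ hM hE hvR2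
  intro l
  have h1 : ‖x l‖ ≤ ‖x' l‖ + ‖x' l - x l‖ := by
    have := norm_sub_norm_le (x l) (x' l)
    rw [norm_sub_rev] at this
    linarith
  rw [hx l] at h1
  have h2 : 199 / 200 ≤ ‖x' l‖ := by linarith [hclose l]
  nlinarith

/-- Product data for an arbitrary configuration. -/
theorem exists_PD_of_good {n k : ℕ} (hn : 0 < n) (x : Fin (n + k) → EuclideanSpace ℝ (Fin n))
    (hx : ∀ j, ‖x j‖ ≤ 1) (hpos : ∀ y, y ≠ 0 → ∃ i, 0 < ⟪x i, y⟫_ℝ) (R : ℝ)
    (hR : ∀ y, (∀ i, ⟪x i, y⟫_ℝ ≤ 1) → ‖y‖ ≤ R) (hgood : Good n k x R) :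
    ∃ (g : Fin (n + k) → Fin k) (β : Fin (n + k) → ℝ)
      (v : (Fin k → Fin (n + k)) → EuclideanSpace ℝ (Fin n)),
      PD k x g β v ∧ ∀ T, ‖v T‖ ≤ R := by
  classical
  obtain ⟨ε0, hε0, hgood⟩ := hgood
  have hR0 : 0 ≤ R := by
    have h1 := hR 0 (fun i => by simp)
    simpa using h1
  apply exists_PD_limit x R
  intro m
  have hm : (0 : ℝ) < 1 / ((m : ℝ) + 1) := by positivity
  obtain ⟨x', h1, h2, h3, h4, h5⟩ := exists_approx hn x hx hpos R hR (min ε0 (1 / ((m : ℝ) + 1)))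
    (lt_min hε0 hm)
  obtain ⟨V, P, v, hGP, hmeas⟩ := exists_GP hn x' h3 h4
  have hvJ : ∀ J ∈ V, ‖v J‖ ≤ R + min ε0 (1 / ((m : ℝ) + 1)) := by
    intro J hJ
    apply h5
    intro i
    by_cases hi : i ∈ J
    · exact (hGP.slack J hJ i hi).le
    · exact (hGP.tight J hJ i hi).le
  obtain ⟨g, hg⟩ := hgood x' V P v (fun j => (h1 j).trans (min_le_left _ _)) h2 hGP hmeas
    (fun J hJ => (hvJ J hJ).trans (by linarith [min_le_left ε0 (1 / ((m : ℝ) + 1))]))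
  obtain ⟨β, hβ⟩ := hGP.exists_PD hg
  refine ⟨x', g, β, fun T => if T ∈ Tr k g then v (univ.image T) else 0,
    fun j => (h1 j).trans (min_le_right _ _), ⟨hβ.nonneg, hβ.sum_one, ?_, ?_⟩, ?_⟩
  · intro T hT l hl
    rw [if_pos hT]
    exact hβ.tight T hT l hl
  · intro y
    rw [← hβ.mean y]
    apply Finset.sum_congr rfl
    intro T hT
    rw [if_pos hT]
  · intro T
    by_cases hT : T ∈ Tr k g
    · simp only [if_pos hT]
      exact (hvJ _ (image_mem_of_Tr hg hT)).trans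
        (by linarith [min_le_right ε0 (1 / ((m : ℝ) + 1))])
    · simp only [if_neg hT, norm_zero]
      positivity

end Pool.Agent.Helper66.CapBig
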