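import Mathlib
import Pool.Agent.Helper66.CapBig.Defs
import Pool.Agent.Helper66.CapCover.Lower

/-!
# Product data: the bound `∑ (|G_c| - 1)² ≤ R²`, and the case of equality
(block F of helper66's project, by helper81)
-/

set_option autoImplicit false

open Finset
open scoped InnerProductSpace

namespace Pool.Agent.Helper66.CapBig

open Pool.Agent.Helper66.CapCover

namespace Product

variable {N k : ℕ} {E : Type} [NormedAddCommGroup E] [InnerProductSpace ℝ E]

/-- the weight of a transversal -/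
noncomputable def W (β : Fin N → ℝ) (T : Fin k → Fin N) : ℝ := ∏ c, β (T c)

/-- the group of index `c` -/
def Gr (g : Fin N → Fin k) (c : Fin k) : Finset (Fin N) := univ.filter fun l => g l = c

theorem mem_Gr {g : Fin N → Fin k} {c : Fin k} {l : Fin N} : l ∈ Gr g c ↔ g l = c := by
  simp [Gr]

theorem mem_Tr {g : Fin N → Fin k} {T : Fin k → Fin N} : T ∈ Tr k g ↔ ∀ c, g (T c) = c := by
  simp [Tr]

theorem update_mem {g : Fin N → Fin k} {T : Fin k → Fin N} (hT : T ∈ Tr k g) {c : Fin k}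
    {l : Fin N} (hl : g l = c) : Function.update T c l ∈ Tr k g := by
  rw [mem_Tr] at hT ⊢
  intro b
  by_cases hb : b = c
  · subst hb; simp [hl]
  · simp [Function.update_of_ne hb, hT b]

theorem W_update (β : Fin N → ℝ) (T : Fin k → Fin N) (c : Fin k) (l : Fin N) :
    W β (Function.update T c l) * β (T c) = W β T * β l := by
  unfold W
  rw [← Finset.mul_prod_erase univ (fun b => β (Function.update T c l b)) (mem_univ c),
    ← Finset.mul_prod_erase univ (fun b => β (T b)) (mem_univ c)]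
  have : ∏ b ∈ univ.erase c, β (Function.update T c l b) = ∏ b ∈ univ.erase c, β (T b) := by
    apply Finset.prod_congr rfl
    intro b hb
    rw [Function.update_of_ne (Finset.ne_of_mem_erase hb)]
  rw [this]
  simp
  ring

theorem sum_W {g : Fin N → Fin k} {β : Fin N → ℝ}
    (h1 : ∀ c, ∑ l ∈ univ.filter (fun l => g l = c), β l = 1) :
    ∑ T ∈ Tr k g, W β T = 1 := by
  unfold W Tr
  rw [← Finset.prod_univ_sum (fun c => univ.filter fun l => g l = c) (fun _ l => β l)]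
  exact Finset.prod_eq_one (fun c _ => h1 c)

/-- resampling one coordinate -/
theorem resample {g : Fin N → Fin k} {β : Fin N → ℝ}
    (h1 : ∀ c, ∑ l ∈ univ.filter (fun l => g l = c), β l = 1) (c : Fin k)
    (f : (Fin k → Fin N) → ℝ) :
    ∑ T ∈ Tr k g, W β T * f T =
      ∑ T ∈ Tr k g, W β T * ∑ l ∈ Gr g c, β l * f (Function.update T c l) := by
  have e1 : ∑ T ∈ Tr k g, W β T * ∑ l ∈ Gr g c, β l * f (Function.update T c l)
      = ∑ p ∈ Tr k g ×ˢ Gr g c, W β p.1 * (β p.2 * f (Function.update p.1 c p.2)) := by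
    rw [Finset.sum_product]
    apply Finset.sum_congr rfl
    intro T _
    rw [Finset.mul_sum]
  have e2 : ∑ T ∈ Tr k g, W β T * f T
      = ∑ p ∈ Tr k g ×ˢ Gr g c, W β p.1 * (β p.2 * f p.1) := by
    rw [Finset.sum_product]
    apply Finset.sum_congr rfl
    intro T _
    have : ∑ l ∈ Gr g c, W β T * (β l * f T) = (W β T * f T) * ∑ l ∈ Gr g c, β l := by
      rw [Finset.mul_sum]; apply Finset.sum_congr rfl; intro l _; ring
    rw [this]
    have h := h1 c
    unfold Gr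
    rw [h, mul_one]
  rw [e1, e2]
  refine Finset.sum_nbij' (fun p => (Function.update p.1 c p.2, p.1 c))
    (fun p => (Function.update p.1 c p.2, p.1 c)) ?_ ?_ ?_ ?_ ?_
  · intro p hp
    rw [Finset.mem_product] at hp ⊢
    exact ⟨update_mem hp.1 (mem_Gr.1 hp.2), mem_Gr.2 (mem_Tr.1 hp.1 c)⟩
  · intro p hp
    rw [Finset.mem_product] at hp ⊢
    exact ⟨update_mem hp.1 (mem_Gr.1 hp.2), mem_Gr.2 (mem_Tr.1 hp.1 c)⟩
  · intro p hp
    simp
  · intro p hp
    simp
  · intro p hp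
    simp only [Function.update_idem, Function.update_eq_self]
    have h := W_update β p.1 c p.2
    calc W β p.1 * (β p.2 * f p.1) = (W β p.1 * β p.2) * f p.1 := by ring
      _ = _ := by rw [← h]; ring

theorem marginal {g : Fin N → Fin k} {β : Fin N → ℝ}
    (h1 : ∀ c, ∑ l ∈ univ.filter (fun l => g l = c), β l = 1) (c : Fin k)
    (φ : Fin N → ℝ) :
    ∑ T ∈ Tr k g, W β T * φ (T c) = ∑ l ∈ Gr g c, β l * φ l := by
  rw [resample h1 c (fun T => φ (T c))]
  simp only [Function.update_self]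
  rw [← Finset.sum_mul, sum_W h1, one_mul]

/-- the barycentre of a group -/
noncomputable def m (x : Fin N → E) (g : Fin N → Fin k) (β : Fin N → ℝ) (c : Fin k) : E :=
  ∑ l ∈ Gr g c, β l • x l

/-- the dimension number of a group -/
noncomputable def nn (g : Fin N → Fin k) (c : Fin k) : ℝ :=
  ((univ.filter fun l => g l = c).card : ℝ) - 1

noncomputable def Y (x : Fin N → E) (g : Fin N → Fin k) (β : Fin N → ℝ) (T : Fin k → Fin N) : E :=
  ∑ c, nn g c • (x (T c) - m x g β c)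

theorem inner_m (x : Fin N → E) (g : Fin N → Fin k) (β : Fin N → ℝ) (c : Fin k) (y : E) :
    ∑ l ∈ Gr g c, β l * ⟪x l, y⟫_ℝ = ⟪m x g β c, y⟫_ℝ := by
  unfold m
  rw [sum_inner]
  apply Finset.sum_congr rfl
  intro l _
  rw [real_inner_smul_left]

theorem sum_Gr {x : Fin N → E} {g : Fin N → Fin k} {β : Fin N → ℝ} {v : (Fin k → Fin N) → E}
    (h : PD k x g β v) {T : Fin k → Fin N} (hT : T ∈ Tr k g) (c : Fin k) :
    ∑ l ∈ Gr g c, ⟪x l, v T⟫_ℝ = nn g c + ⟪x (T c), v T⟫_ℝ := by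
  have hTc : T c ∈ Gr g c := mem_Gr.2 (mem_Tr.1 hT c)
  rw [← Finset.add_sum_erase _ _ hTc]
  have : ∑ l ∈ (Gr g c).erase (T c), ⟪x l, v T⟫_ℝ = ∑ l ∈ (Gr g c).erase (T c), (1 : ℝ) := by
    apply Finset.sum_congr rfl
    intro l hl
    rw [Finset.mem_erase] at hl
    apply h.tight T hT
    intro b hb
    have hg : g l = b := by rw [← hb]; exact mem_Tr.1 hT b
    have hg' : g l = c := mem_Gr.1 hl.2
    have : b = c := by rw [← hg, hg']
    subst this
    exact hl.1 hb.symm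
  rw [this, Finset.sum_const, nsmul_eq_mul, mul_one, Finset.card_erase_of_mem hTc]
  have hpos : 1 ≤ (Gr g c).card := Finset.card_pos.2 ⟨_, hTc⟩
  rw [Nat.cast_sub hpos]
  unfold nn
  have : (Gr g c).card = (univ.filter fun l => g l = c).card := rfl
  rw [this]
  push_cast
  ring

theorem E_inner_Tc {x : Fin N → E} {g : Fin N → Fin k} {β : Fin N → ℝ}
    {v : (Fin k → Fin N) → E} (h : PD k x g β v) (c : Fin k) :
    ∑ T ∈ Tr k g, W β T * ⟪x (T c), v T⟫_ℝ = - nn g c := by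
  have h0 : ∑ T ∈ Tr k g, W β T * ∑ l ∈ Gr g c, ⟪x l, v T⟫_ℝ = 0 := by
    have : ∑ T ∈ Tr k g, W β T * ∑ l ∈ Gr g c, ⟪x l, v T⟫_ℝ
        = ∑ l ∈ Gr g c, ∑ T ∈ Tr k g, W β T * ⟪v T, x l⟫_ℝ := by
      rw [Finset.sum_comm]
      apply Finset.sum_congr rfl
      intro T _
      rw [Finset.mul_sum]
      apply Finset.sum_congr rfl
      intro l _
      rw [real_inner_comm]
    rw [this]
    apply Finset.sum_eq_zero
    intro l _
    exact h.mean (x l)
  have h2 : ∑ T ∈ Tr k g, W β T * ∑ l ∈ Gr g c, ⟪x l, v T⟫_ℝ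
      = ∑ T ∈ Tr k g, (W β T * nn g c + W β T * ⟪x (T c), v T⟫_ℝ) := by
    apply Finset.sum_congr rfl
    intro T hT
    rw [sum_Gr h hT c]
    ring
  rw [h2, Finset.sum_add_distrib, ← Finset.sum_mul, sum_W h.sum_one, one_mul] at h0
  linarith

theorem E_inner_Y {x : Fin N → E} {g : Fin N → Fin k} {β : Fin N → ℝ}
    {v : (Fin k → Fin N) → E} (h : PD k x g β v) :
    ∑ T ∈ Tr k g, W β T * ⟪v T, Y x g β T⟫_ℝ = - ∑ c, nn g c ^ 2 := by
  have h1 : ∀ T, W β T * ⟪v T, Y x g β T⟫_ℝ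
      = ∑ c, nn g c * (W β T * ⟪x (T c), v T⟫_ℝ - W β T * ⟪v T, m x g β c⟫_ℝ) := by
    intro T
    unfold Y
    rw [inner_sum, Finset.mul_sum]
    apply Finset.sum_congr rfl
    intro c _
    rw [real_inner_smul_right, inner_sub_right, real_inner_comm (v T) (x (T c))]
    ring
  simp_rw [h1]
  rw [Finset.sum_comm, ← Finset.sum_neg_distrib]
  apply Finset.sum_congr rfl
  intro c _
  rw [← Finset.mul_sum, Finset.sum_sub_distrib, E_inner_Tc h c]
  have := h.mean (m x g β c)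
  change ∑ T ∈ Tr k g, W β T * ⟪v T, m x g β c⟫_ℝ = 0 at this
  rw [this]
  ring

theorem E_cross {x : Fin N → E} {g : Fin N → Fin k} {β : Fin N → ℝ}
    (h1 : ∀ c, ∑ l ∈ univ.filter (fun l => g l = c), β l = 1) {c c' : Fin k} (hc : c ≠ c') :
    ∑ T ∈ Tr k g, W β T * ⟪x (T c) - m x g β c, x (T c') - m x g β c'⟫_ℝ = 0 := by
  rw [resample h1 c (fun T => ⟪x (T c) - m x g β c, x (T c') - m x g β c'⟫_ℝ)]
  apply Finset.sum_eq_zero
  intro T _
  simp only [Function.update_self, Function.update_of_ne hc.symm]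
  have : ∑ l ∈ Gr g c, β l * ⟪x l - m x g β c, x (T c') - m x g β c'⟫_ℝ = 0 := by
    set z := x (T c') - m x g β c'
    have e : ∀ l, β l * ⟪x l - m x g β c, z⟫_ℝ
        = β l * ⟪x l, z⟫_ℝ - β l * ⟪m x g β c, z⟫_ℝ := by
      intro l; rw [inner_sub_left]; ring
    simp_rw [e]
    rw [Finset.sum_sub_distrib, inner_m, ← Finset.sum_mul]
    have h := h1 c
    change ∑ l ∈ Gr g c, β l = 1 at h
    rw [h]; ring
  rw [this, mul_zero]

theorem E_diag {x : Fin N → E} {g : Fin N → Fin k} {β : Fin N → ℝ}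
    (h1 : ∀ c, ∑ l ∈ univ.filter (fun l => g l = c), β l = 1) (c : Fin k) :
    ∑ T ∈ Tr k g, W β T * ⟪x (T c) - m x g β c, x (T c) - m x g β c⟫_ℝ
      = ∑ l ∈ Gr g c, β l * ‖x l‖ ^ 2 - ‖m x g β c‖ ^ 2 := by
  rw [marginal h1 c (fun l => ⟪x l - m x g β c, x l - m x g β c⟫_ℝ)]
  have e : ∀ l, β l * ⟪x l - m x g β c, x l - m x g β c⟫_ℝ
      = β l * ‖x l‖ ^ 2 - 2 * (β l * ⟪x l, m x g β c⟫_ℝ) + β l * ‖m x g β c‖ ^ 2 := by
    intro l
    rw [real_inner_self_eq_norm_sq, @norm_sub_sq_real]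
    ring
  simp_rw [e]
  rw [Finset.sum_add_distrib, Finset.sum_sub_distrib, ← Finset.mul_sum, inner_m,
    ← Finset.sum_mul, real_inner_self_eq_norm_sq]
  have h := h1 c
  change ∑ l ∈ Gr g c, β l = 1 at h
  rw [h]; ring

theorem E_normY {x : Fin N → E} {g : Fin N → Fin k} {β : Fin N → ℝ}
    (h1 : ∀ c, ∑ l ∈ univ.filter (fun l => g l = c), β l = 1) :
    ∑ T ∈ Tr k g, W β T * ‖Y x g β T‖ ^ 2
      = ∑ c, nn g c ^ 2 * (∑ l ∈ Gr g c, β l * ‖x l‖ ^ 2 - ‖m x g β c‖ ^ 2) := by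
  have e : ∀ T, W β T * ‖Y x g β T‖ ^ 2 = ∑ c, ∑ c', nn g c * nn g c' *
      (W β T * ⟪x (T c) - m x g β c, x (T c') - m x g β c'⟫_ℝ) := by
    intro T
    rw [← real_inner_self_eq_norm_sq]
    unfold Y
    rw [sum_inner, Finset.mul_sum]
    apply Finset.sum_congr rfl
    intro c _
    rw [inner_sum, Finset.mul_sum]
    apply Finset.sum_congr rfl
    intro c' _
    rw [real_inner_smul_left, real_inner_smul_right]
    ring
  simp_rw [e]
  rw [Finset.sum_comm]
  apply Finset.sum_congr rfl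
  intro c _
  rw [Finset.sum_comm]
  rw [Finset.sum_eq_single c]
  · rw [← Finset.mul_sum, E_diag h1 c]; ring
  · intro c' _ hne
    rw [← Finset.mul_sum, E_cross h1 hne.symm, mul_zero]
  · intro hc; exact absurd (mem_univ c) hc

theorem W_nonneg {g : Fin N → Fin k} {x : Fin N → E} {β : Fin N → ℝ}
    {v : (Fin k → Fin N) → E} (h : PD k x g β v) (T : Fin k → Fin N) : 0 ≤ W β T :=
  Finset.prod_nonneg fun _ _ => h.nonneg _

/-- the sum `E‖v + Y‖²` -/
theorem E_total {x : Fin N → E} {g : Fin N → Fin k} {β : Fin N → ℝ}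
    {v : (Fin k → Fin N) → E} (h : PD k x g β v) (R : ℝ) (hv : ∀ T ∈ Tr k g, ‖v T‖ ≤ R) :
    ∑ T ∈ Tr k g, W β T * ‖v T + Y x g β T‖ ^ 2 ≤ R ^ 2 - 2 * ∑ c, nn g c ^ 2 +
      ∑ c, nn g c ^ 2 * (∑ l ∈ Gr g c, β l * ‖x l‖ ^ 2 - ‖m x g β c‖ ^ 2) := by
  have e : ∀ T, W β T * ‖v T + Y x g β T‖ ^ 2 = W β T * ‖v T‖ ^ 2 +
      2 * (W β T * ⟪v T, Y x g β T⟫_ℝ) + W β T * ‖Y x g β T‖ ^ 2 := by
    intro T
    rw [@norm_add_sq_real]
    ring
  simp_rw [e]
  rw [Finset.sum_add_distrib, Finset.sum_add_distrib, ← Finset.mul_sum, E_inner_Y h,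
    E_normY h.sum_one]
  have : ∑ T ∈ Tr k g, W β T * ‖v T‖ ^ 2 ≤ R ^ 2 := by
    calc ∑ T ∈ Tr k g, W β T * ‖v T‖ ^ 2 ≤ ∑ T ∈ Tr k g, W β T * R ^ 2 := by
          apply Finset.sum_le_sum
          intro T hT
          apply mul_le_mul_of_nonneg_left _ (W_nonneg h T)
          exact pow_le_pow_left₀ (norm_nonneg _) (hv T hT) 2
      _ = R ^ 2 := by rw [← Finset.sum_mul, sum_W h.sum_one, one_mul]
  linarith

theorem sum_beta_norm_le {x : Fin N → E} {g : Fin N → Fin k} {β : Fin N → ℝ}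
    {v : (Fin k → Fin N) → E} (h : PD k x g β v) (hx : ∀ l, ‖x l‖ ≤ 1) (c : Fin k) :
    ∑ l ∈ Gr g c, β l * ‖x l‖ ^ 2 ≤ 1 := by
  calc ∑ l ∈ Gr g c, β l * ‖x l‖ ^ 2 ≤ ∑ l ∈ Gr g c, β l := by
        apply Finset.sum_le_sum
        intro l _
        have h1 : ‖x l‖ ^ 2 ≤ 1 := pow_le_one₀ (norm_nonneg _) (hx l)
        nlinarith [h.nonneg l]
    _ = 1 := h.sum_one c

end Product

open Product

theorem pd_bound {N k : ℕ} {E : Type} [NormedAddCommGroup E] [InnerProductSpace ℝ E]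
    {x : Fin N → E} {g : Fin N → Fin k} {β : Fin N → ℝ} {v : (Fin k → Fin N) → E}
    (h : PD k x g β v) (hx : ∀ l, ‖x l‖ ≤ 1) (R : ℝ) (hv : ∀ T ∈ Tr k g, ‖v T‖ ≤ R) :
    ∑ c, (((univ.filter fun l => g l = c).card : ℝ) - 1) ^ 2 ≤ R ^ 2 := by
  change ∑ c, nn g c ^ 2 ≤ R ^ 2
  have h1 := E_total h R hv
  have h2 : 0 ≤ ∑ T ∈ Tr k g, W β T * ‖v T + Y x g β T‖ ^ 2 :=
    Finset.sum_nonneg fun T _ => mul_nonneg (W_nonneg h T) (sq_nonneg _)
  have h3 : ∑ c, nn g c ^ 2 * (∑ l ∈ Gr g c, β l * ‖x l‖ ^ 2 - ‖m x g β c‖ ^ 2)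
      ≤ ∑ c, nn g c ^ 2 := by
    apply Finset.sum_le_sum
    intro c _
    have := sum_beta_norm_le h hx c
    have h4 : ∑ l ∈ Gr g c, β l * ‖x l‖ ^ 2 - ‖m x g β c‖ ^ 2 ≤ 1 := by
      nlinarith [sq_nonneg ‖m x g β c‖]
    nlinarith [sq_nonneg (nn g c)]
  linarith

namespace Product

variable {N k : ℕ} {E : Type} [NormedAddCommGroup E] [InnerProductSpace ℝ E]

theorem eq_facts {x : Fin N → E} {g : Fin N → Fin k} {β : Fin N → ℝ} {v : (Fin k → Fin N) → E}
    (h : PD k x g β v) (hx : ∀ l, ‖x l‖ = 1) (R : ℝ) (hv : ∀ T ∈ Tr k g, ‖v T‖ ≤ R)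
    (hc : ∀ c, 2 ≤ (univ.filter fun l => g l = c).card)
    (hR : R ^ 2 ≤ ∑ c, (((univ.filter fun l => g l = c).card : ℝ) - 1) ^ 2) :
    (∀ c, m x g β c = 0) ∧
    ∀ T ∈ Tr k g, (∀ c, 0 < β (T c)) → v T = - ∑ c, nn g c • x (T c) := by
  change R ^ 2 ≤ ∑ c, nn g c ^ 2 at hR
  have hn : ∀ c, 1 ≤ nn g c := by
    intro c
    have : (2 : ℝ) ≤ ((univ.filter fun l => g l = c).card : ℝ) := by exact_mod_cast hc c
    unfold nn
    linarith
  have h1 := E_total h R hv
  have h2 : 0 ≤ ∑ T ∈ Tr k g, W β T * ‖v T + Y x g β T‖ ^ 2 :=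
    Finset.sum_nonneg fun T _ => mul_nonneg (W_nonneg h T) (sq_nonneg _)
  have h3 : ∑ c, nn g c ^ 2 * (∑ l ∈ Gr g c, β l * ‖x l‖ ^ 2 - ‖m x g β c‖ ^ 2)
      = ∑ c, nn g c ^ 2 - ∑ c, nn g c ^ 2 * ‖m x g β c‖ ^ 2 := by
    rw [← Finset.sum_sub_distrib]
    apply Finset.sum_congr rfl
    intro c _
    have : ∑ l ∈ Gr g c, β l * ‖x l‖ ^ 2 = 1 := by
      simp only [hx, one_pow, mul_one]
      exact h.sum_one c
    rw [this]; ring
  rw [h3] at h1
  have h4 : 0 ≤ ∑ c, nn g c ^ 2 * ‖m x g β c‖ ^ 2 :=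
    Finset.sum_nonneg fun c _ => mul_nonneg (sq_nonneg _) (sq_nonneg _)
  have h5 : ∑ c, nn g c ^ 2 * ‖m x g β c‖ ^ 2 = 0 := by linarith
  have h6 : ∑ T ∈ Tr k g, W β T * ‖v T + Y x g β T‖ ^ 2 = 0 := by linarith
  have hm : ∀ c, m x g β c = 0 := by
    intro c
    have := (Finset.sum_eq_zero_iff_of_nonneg
      (fun c _ => mul_nonneg (sq_nonneg (nn g c)) (sq_nonneg ‖m x g β c‖))).1 h5 c (mem_univ c)
    have hne : nn g c ^ 2 ≠ 0 := by
      have := hn c
      positivity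
    have h7 : ‖m x g β c‖ ^ 2 = 0 := by
      rcases mul_eq_zero.1 this with h8 | h8
      · exact absurd h8 hne
      · exact h8
    have h8 : ‖m x g β c‖ = 0 := by
      simpa using h7
    exact norm_eq_zero.1 h8
  refine ⟨hm, ?_⟩
  intro T hT hpos
  have h7 := (Finset.sum_eq_zero_iff_of_nonneg
      (fun T _ => mul_nonneg (W_nonneg h T) (sq_nonneg ‖v T + Y x g β T‖))).1 h6 T hT
  have hW : 0 < W β T := Finset.prod_pos fun c _ => hpos c
  have h8 : ‖v T + Y x g β T‖ ^ 2 = 0 := by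
    rcases mul_eq_zero.1 h7 with h9 | h9
    · exact absurd h9 hW.ne'
    · exact h9
  have h9 : ‖v T + Y x g β T‖ = 0 := by simpa using h8
  have h10 := norm_eq_zero.1 h9
  have h11 : Y x g β T = ∑ c, nn g c • x (T c) := by
    unfold Y
    apply Finset.sum_congr rfl
    intro c _
    rw [hm c, sub_zero]
  rw [h11] at h10
  exact eq_neg_of_add_eq_zero_left h10

/-- averaging over the coordinates outside `D` -/
theorem avg_eq {x : Fin N → E} {g : Fin N → Fin k} {β : Fin N → ℝ} {v : (Fin k → Fin N) → E}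
    (h : PD k x g β v) (hm : ∀ c, m x g β c = 0)
    (hvT : ∀ T ∈ Tr k g, (∀ c, 0 < β (T c)) → v T = - ∑ c, nn g c • x (T c))
    (l : Fin N) (D : Finset (Fin k)) (hD : g l ∈ D) (T0 : Fin k → Fin N) (hT0 : T0 ∈ Tr k g)
    (hl : T0 (g l) ≠ l) (hpos : ∀ d ∈ D, 0 < β (T0 d)) :
    ∑ d ∈ D, nn g d * ⟪x l, x (T0 d)⟫_ℝ = -1 := by
  classical
  -- the modified transversal
  set M : (Fin k → Fin N) → (Fin k → Fin N) := fun T d => if d ∈ D then T0 d else T d with hM
  have hMT : ∀ T ∈ Tr k g, M T ∈ Tr k g := by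
    intro T hT
    rw [mem_Tr] at hT hT0 ⊢
    intro c
    simp only [hM]
    split_ifs
    · exact hT0 c
    · exact hT c
  have hne : ∀ T ∈ Tr k g, ∀ c, M T c ≠ l := by
    intro T hT c hcl
    have h1 : g (M T c) = c := mem_Tr.1 (hMT T hT) c
    rw [hcl] at h1
    subst h1
    simp only [hM, hD, if_true] at hcl
    exact hl hcl
  have key : ∀ T ∈ Tr k g, W β T * (∑ d, nn g d * ⟪x l, x (M T d)⟫_ℝ) = W β T * (-1) := by
    intro T hT
    by_cases hW : ∀ c, 0 < β (T c)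
    · congr 1
      have h1 : ∀ c, 0 < β (M T c) := by
        intro c
        simp only [hM]
        split_ifs with hcD
        · exact hpos c hcD
        · exact hW c
      have h2 := hvT (M T) (hMT T hT) h1
      have h3 := h.tight (M T) (hMT T hT) l (hne T hT)
      rw [h2, inner_neg_right, inner_sum] at h3
      simp only [real_inner_smul_right] at h3
      linarith
    · rw [not_forall] at hW
      obtain ⟨c, hc⟩ := hW
      rw [not_lt] at hc
      have h0 : β (T c) = 0 := le_antisymm hc (h.nonneg _)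
      have : W β T = 0 := Finset.prod_eq_zero (mem_univ c) h0
      rw [this]; ring
  have h1 : ∑ T ∈ Tr k g, W β T * (∑ d, nn g d * ⟪x l, x (M T d)⟫_ℝ) = -1 := by
    rw [Finset.sum_congr rfl key, ← Finset.sum_mul, sum_W h.sum_one]
    ring
  have h2 : ∑ T ∈ Tr k g, W β T * (∑ d, nn g d * ⟪x l, x (M T d)⟫_ℝ)
      = ∑ d, nn g d * ∑ T ∈ Tr k g, W β T * ⟪x l, x (M T d)⟫_ℝ := by
    simp_rw [Finset.mul_sum]
    rw [Finset.sum_comm]
    apply Finset.sum_congr rfl
    intro d _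
    apply Finset.sum_congr rfl
    intro T _
    ring
  have h3 : ∀ d, nn g d * ∑ T ∈ Tr k g, W β T * ⟪x l, x (M T d)⟫_ℝ
      = if d ∈ D then nn g d * ⟪x l, x (T0 d)⟫_ℝ else 0 := by
    intro d
    split_ifs with hd
    · simp only [hM, hd, if_true]
      rw [← Finset.sum_mul, sum_W h.sum_one, one_mul]
    · simp only [hM, hd, if_false]
      rw [marginal h.sum_one d (fun l' => ⟪x l, x l'⟫_ℝ)]
      have : ∑ l' ∈ Gr g d, β l' * ⟪x l, x l'⟫_ℝ = 0 := by
        simp_rw [real_inner_comm (x _) (x l)]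
        rw [inner_m, hm d, inner_zero_left]
      rw [this, mul_zero]
  rw [h2] at h1
  simp_rw [h3] at h1
  rw [Finset.sum_ite_mem, Finset.univ_inter] at h1
  exact h1

end Product

theorem pd_equality {N k : ℕ} {E : Type} [NormedAddCommGroup E] [InnerProductSpace ℝ E]
    {x : Fin N → E} {g : Fin N → Fin k} {β : Fin N → ℝ} {v : (Fin k → Fin N) → E}
    (h : PD k x g β v) (hx : ∀ l, ‖x l‖ = 1) (R : ℝ) (hv : ∀ T ∈ Tr k g, ‖v T‖ ≤ R)
    (hc : ∀ c, 2 ≤ (univ.filter fun l => g l = c).card)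
    (hR : R ^ 2 ≤ ∑ c, (((univ.filter fun l => g l = c).card : ℝ) - 1) ^ 2) :
    (∀ l l', l ≠ l' → g l = g l' →
      ⟪x l, x l'⟫_ℝ = -(1 / (((univ.filter fun j => g j = g l).card : ℝ) - 1))) ∧
    (∀ l l', g l ≠ g l' → ⟪x l, x l'⟫_ℝ = 0) := by
  classical
  obtain ⟨hm, hvT⟩ := eq_facts h hx R hv hc hR
  have hn : ∀ c, 1 ≤ nn g c := by
    intro c
    have : (2 : ℝ) ≤ ((univ.filter fun l => g l = c).card : ℝ) := by exact_mod_cast hc c
    unfold nn
    linarith
  -- some transversal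
  have hex : ∀ c, ∃ l, g l = c := by
    intro c
    have : 0 < (univ.filter fun l => g l = c).card := by have := hc c; omega
    obtain ⟨l, hl⟩ := Finset.card_pos.1 this
    exact ⟨l, by simpa using hl⟩
  choose T1 hT1 using hex
  have hT1' : T1 ∈ Tr k g := mem_Tr.2 hT1
  -- same group, positive weight
  have same : ∀ l l', l ≠ l' → g l = g l' → 0 < β l' → nn g (g l) * ⟪x l, x l'⟫_ℝ = -1 := by
    intro l l' hne hg hpos
    have := avg_eq h hm hvT l {g l} (mem_singleton_self _) (Function.update T1 (g l) l')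
      (update_mem hT1' hg.symm) (by simp [hne.symm]) (by simp [hpos])
    simpa using this
  -- all weights are positive
  have pos : ∀ l, 0 < β l := by
    intro l
    have h1 : ∑ l' ∈ Gr g (g l), β l' * ⟪x l, x l'⟫_ℝ = 0 := by
      simp_rw [real_inner_comm (x _) (x l)]
      rw [inner_m, hm (g l), inner_zero_left]
    have hl : l ∈ Gr g (g l) := mem_Gr.2 rfl
    have h2 : ∑ l' ∈ Gr g (g l), β l' * (nn g (g l) * ⟪x l, x l'⟫_ℝ) = 0 := by
      have : ∑ l' ∈ Gr g (g l), β l' * (nn g (g l) * ⟪x l, x l'⟫_ℝ)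
          = nn g (g l) * ∑ l' ∈ Gr g (g l), β l' * ⟪x l, x l'⟫_ℝ := by
        rw [Finset.mul_sum]; apply Finset.sum_congr rfl; intro l' _; ring
      rw [this, h1, mul_zero]
    rw [← Finset.add_sum_erase _ _ hl] at h2
    have h3 : ∑ l' ∈ (Gr g (g l)).erase l, β l' * (nn g (g l) * ⟪x l, x l'⟫_ℝ)
        = ∑ l' ∈ (Gr g (g l)).erase l, - β l' := by
      apply Finset.sum_congr rfl
      intro l' hl'
      rw [Finset.mem_erase] at hl'
      by_cases hp : 0 < β l'
      · rw [same l l' hl'.1.symm (mem_Gr.1 hl'.2).symm hp]; ring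
      · have : β l' = 0 := le_antisymm (not_lt.1 hp) (h.nonneg _)
        rw [this]; ring
    rw [h3, real_inner_self_eq_norm_sq, hx l, Finset.sum_neg_distrib] at h2
    have h4 := h.sum_one (g l)
    change ∑ l' ∈ Gr g (g l), β l' = 1 at h4
    rw [← Finset.add_sum_erase _ _ hl] at h4
    have h5 : β l * (nn g (g l) + 1) = 1 := by
      have : ∑ l' ∈ (Gr g (g l)).erase l, β l' = 1 - β l := by linarith
      rw [this] at h2
      ring_nf at h2 ⊢
      linarith
    have h6 : 0 < nn g (g l) + 1 := by linarith [hn (g l)]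
    by_contra hcon
    have : β l * (nn g (g l) + 1) ≤ 0 := mul_nonpos_of_nonpos_of_nonneg (not_lt.1 hcon) h6.le
    linarith
  refine ⟨?_, ?_⟩
  · intro l l' hne hg
    have h1 := same l l' hne hg (pos l')
    have h2 : nn g (g l) ≠ 0 := by have := hn (g l); positivity
    change ⟪x l, x l'⟫_ℝ = -(1 / nn g (g l))
    field_simp
    linarith
  · intro l l' hg
    -- another element of the group of l
    obtain ⟨l2, hl2, hne2⟩ : ∃ l2, g l2 = g l ∧ l2 ≠ l := by
      have h1 : 1 < (univ.filter fun j => g j = g l).card := by have := hc (g l); omega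
      obtain ⟨a, ha, hne⟩ := Finset.exists_mem_ne h1 l
      exact ⟨a, by simpa using ha, hne⟩
    set T0 := Function.update (Function.update T1 (g l) l2) (g l') l' with hT0
    have hT0m : T0 ∈ Tr k g := update_mem (update_mem hT1' hl2) rfl
    have hT0l : T0 (g l) = l2 := by
      rw [hT0, Function.update_of_ne hg, Function.update_self]
    have hT0l' : T0 (g l') = l' := by rw [hT0, Function.update_self]
    have h1 := avg_eq h hm hvT l {g l} (mem_singleton_self _) T0 hT0m (by rw [hT0l]; exact hne2)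
      (fun d _ => pos _)
    have h2 := avg_eq h hm hvT l {g l, g l'} (by simp) T0 hT0m (by rw [hT0l]; exact hne2)
      (fun d _ => pos _)
    rw [Finset.sum_singleton] at h1
    rw [Finset.sum_pair hg, hT0l'] at h2
    have h3 : nn g (g l') * ⟪x l, x l'⟫_ℝ = 0 := by linarith
    rcases mul_eq_zero.1 h3 with h4 | h4
    · have := hn (g l'); linarith
    · exact h4

theorem balanced_of_sum {n k : ℕ} (hk : 1 ≤ k) (d : Fin k → ℕ) (hsum : ∑ c, d c = n) :
    (Lower.balancedSq n k : ℝ) ≤ ∑ c, (d c : ℝ) ^ 2 ∧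
    ((Lower.balancedSq n k : ℝ) = ∑ c, (d c : ℝ) ^ 2 ↔ ∀ c, d c = n / k ∨ d c = n / k + 1) := by
  set q : ℕ := n / k with hq
  have hr : n % k ≤ k := (Nat.mod_lt n (by omega)).le
  have hdiv : (k : ℝ) * q + ((n % k : ℕ) : ℝ) = n := by
    exact_mod_cast Nat.div_add_mod n k
  have hB : (Lower.balancedSq n k : ℝ) = ((n % k : ℕ) : ℝ) * ((q : ℝ) + 1) ^ 2 +
      ((k : ℝ) - ((n % k : ℕ) : ℝ)) * (q : ℝ) ^ 2 := by
    unfold Lower.balancedSq
    rw [← hq]
    push_cast [Nat.cast_sub hr]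
    ring
  have hS : ∑ c, (d c : ℝ) = n := by exact_mod_cast hsum
  have key : ∑ c, (d c : ℝ) ^ 2 - (Lower.balancedSq n k : ℝ)
      = ∑ c, ((d c : ℝ) - q) * ((d c : ℝ) - q - 1) := by
    have e : ∀ c, ((d c : ℝ) - q) * ((d c : ℝ) - q - 1)
        = (d c : ℝ) ^ 2 - (2 * q + 1) * (d c : ℝ) + (q : ℝ) * (q + 1) := by
      intro c; ring
    simp_rw [e]
    rw [Finset.sum_add_distrib, Finset.sum_sub_distrib, ← Finset.mul_sum, hS, hB]
    simp only [Finset.sum_const, Finset.card_univ, Fintype.card_fin, nsmul_eq_mul]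
    rw [← hdiv]
    ring
  have hnn : ∀ c, 0 ≤ ((d c : ℝ) - q) * ((d c : ℝ) - q - 1) := by
    intro c
    rcases Nat.lt_or_ge q (d c) with h1 | h1
    · have : (q : ℝ) + 1 ≤ (d c : ℝ) := by exact_mod_cast h1
      exact mul_nonneg (by linarith) (by linarith)
    · have : (d c : ℝ) ≤ (q : ℝ) := by exact_mod_cast h1
      exact mul_nonneg_of_nonpos_of_nonpos (by linarith) (by linarith)
  have htot : 0 ≤ ∑ c, ((d c : ℝ) - q) * ((d c : ℝ) - q - 1) := Finset.sum_nonneg fun c _ => hnn c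
  refine ⟨by linarith, ?_⟩
  constructor
  · intro h c
    have h0 : ∑ c, ((d c : ℝ) - q) * ((d c : ℝ) - q - 1) = 0 := by rw [← key, h]; ring
    have h1 := (Finset.sum_eq_zero_iff_of_nonneg (fun c _ => hnn c)).1 h0 c (mem_univ c)
    rcases mul_eq_zero.1 h1 with h2 | h2
    · left
      have : (d c : ℝ) = (q : ℝ) := by linarith
      exact_mod_cast this
    · right
      have : (d c : ℝ) = ((q + 1 : ℕ) : ℝ) := by push_cast; linarith
      exact_mod_cast this
  · intro h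
    have h0 : ∑ c, ((d c : ℝ) - q) * ((d c : ℝ) - q - 1) = 0 := by
      apply Finset.sum_eq_zero
      intro c _
      rcases h c with h1 | h1
      · rw [h1]; ring
      · rw [h1]; push_cast; ring
    linarith

end Pool.Agent.Helper66.CapBig
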