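import Mathlib
import Pool.Agent.Helper66.CapCover.Union

/-!
# Unions of mutually orthogonal regular simplices of arbitrary dimensions cover the sphere
(block G of helper66, MP_7917db_co)
-/

set_option autoImplicit false

open Finset
open scoped InnerProductSpace

namespace Pool.Agent.Helper66.CapBig

open Pool.Agent.Helper66.CapCover

section

variable {n k : ℕ} {d : Fin k → ℕ} (hd : ∀ c, 1 ≤ d c)
  (hsum : ∑ c, d c = n)
  {B : Fin k → Finset (EuclideanSpace ℝ (Fin n))}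
  (hcard : ∀ c, (B c).card = d c + 1) (hunit : ∀ c, ∀ x ∈ B c, ‖x‖ = 1)
  (hin : ∀ c, ∀ x ∈ B c, ∀ y ∈ B c, x ≠ y → ⟪x, y⟫_ℝ = -(1 / (d c : ℝ)))
  (hcross : ∀ c c', c ≠ c' → ∀ x ∈ B c, ∀ y ∈ B c', ⟪x, y⟫_ℝ = 0)

include hunit hin in
theorem block_inner_gen (c : Fin k) (a : EuclideanSpace ℝ (Fin n) → ℝ) :
    ⟪∑ x ∈ B c, a x • x, ∑ y ∈ B c, a y • y⟫_ℝ =
      (1 + 1 / (d c : ℝ)) * ∑ x ∈ B c, a x ^ 2 - (1 / (d c : ℝ)) * (∑ x ∈ B c, a x) ^ 2 :=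
  block_inner (k := 1) (d := d c) (B := fun _ => B c) (fun _ => hunit c) (fun _ => hin c) 0 a

include hcross in
theorem total_inner_gen (a : Fin k → EuclideanSpace ℝ (Fin n) → ℝ) :
    ⟪∑ c, ∑ x ∈ B c, a c x • x, ∑ c, ∑ y ∈ B c, a c y • y⟫_ℝ =
      ∑ c, ⟪∑ x ∈ B c, a c x • x, ∑ y ∈ B c, a c y • y⟫_ℝ := by
  classical
  rw [sum_inner]
  apply Finset.sum_congr rfl
  intro c _
  rw [inner_sum]
  apply Finset.sum_eq_single c
  · intro c' _ hne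
    rw [sum_inner]
    apply Finset.sum_eq_zero
    intro x hx
    rw [inner_sum]
    apply Finset.sum_eq_zero
    intro y hy
    rw [inner_smul_left, inner_smul_right, hcross c c' hne.symm x hx y hy]
    simp
  · intro h; exact absurd (mem_univ _) h

include hd hunit hin hcard in
theorem block_sum_zero_gen (c : Fin k) : ∑ x ∈ B c, x = 0 :=
  block_sum_zero (k := 1) (d := d c) (B := fun _ => B c) (hd c) (fun _ => hcard c)
    (fun _ => hunit c) (fun _ => hin c) 0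

include hd hsum hcard hunit hin hcross in
theorem sum_sq_inner_gen (y : EuclideanSpace ℝ (Fin n)) :
    ∑ c, (d c : ℝ) / (d c + 1) * ∑ x ∈ B c, ⟪x, y⟫_ℝ ^ 2 = ‖y‖ ^ 2 := by
  classical
  have hd' : ∀ c, (0 : ℝ) < d c := fun c => by exact_mod_cast hd c
  let w : Fin k → ℝ := fun c => (d c : ℝ) / (d c + 1)
  have hw : ∀ c, 0 < w c := fun c => div_pos (hd' c) (by linarith [hd' c])
  let T : EuclideanSpace ℝ (Fin n) → EuclideanSpace ℝ (Fin n) :=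
    fun y => ∑ c, ∑ x ∈ B c, (w c * ⟪x, y⟫_ℝ) • x
  change ∑ c, w c * ∑ x ∈ B c, ⟪x, y⟫_ℝ ^ 2 = ‖y‖ ^ 2
  have hTT : ∀ y, ‖T y‖ ^ 2 ≤ ∑ c, w c * ∑ x ∈ B c, ⟪x, y⟫_ℝ ^ 2 := by
    intro y
    rw [← real_inner_self_eq_norm_sq]
    change ⟪∑ c, ∑ x ∈ B c, (w c * ⟪x, y⟫_ℝ) • x, ∑ c, ∑ x ∈ B c, (w c * ⟪x, y⟫_ℝ) • x⟫_ℝ ≤ _
    rw [total_inner_gen hcross (fun c x => w c * ⟪x, y⟫_ℝ)]
    apply Finset.sum_le_sum
    intro c _
    rw [block_inner_gen hunit hin c]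
    have h0 : 0 ≤ (1 / (d c : ℝ)) * (∑ x ∈ B c, w c * ⟪x, y⟫_ℝ) ^ 2 := by positivity
    have h1 : ∑ x ∈ B c, (w c * ⟪x, y⟫_ℝ) ^ 2 = w c ^ 2 * ∑ x ∈ B c, ⟪x, y⟫_ℝ ^ 2 := by
      rw [Finset.mul_sum]
      exact Finset.sum_congr rfl fun x _ => by ring
    have h2 : (1 + 1 / (d c : ℝ)) * w c = 1 := by
      have := hd' c
      simp only [w]
      field_simp
    rw [h1]
    have h3 : (1 + 1 / (d c : ℝ)) * (w c ^ 2 * ∑ x ∈ B c, ⟪x, y⟫_ℝ ^ 2) =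
        w c * ∑ x ∈ B c, ⟪x, y⟫_ℝ ^ 2 := by
      calc (1 + 1 / (d c : ℝ)) * (w c ^ 2 * ∑ x ∈ B c, ⟪x, y⟫_ℝ ^ 2)
          = ((1 + 1 / (d c : ℝ)) * w c) * (w c * ∑ x ∈ B c, ⟪x, y⟫_ℝ ^ 2) := by ring
        _ = _ := by rw [h2, one_mul]
    rw [h3]
    linarith
  have hTy : ∀ y, ⟪T y, y⟫_ℝ = ∑ c, w c * ∑ x ∈ B c, ⟪x, y⟫_ℝ ^ 2 := by
    intro y
    change ⟪∑ c, ∑ x ∈ B c, (w c * ⟪x, y⟫_ℝ) • x, y⟫_ℝ = _
    rw [sum_inner]
    apply Finset.sum_congr rfl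
    intro c _
    rw [sum_inner, Finset.mul_sum]
    apply Finset.sum_congr rfl
    intro x _
    rw [inner_smul_left, sq]
    simp
    ring
  -- upper bound
  have hup : ∀ y, ‖y‖ = 1 → ∑ c, w c * ∑ x ∈ B c, ⟪x, y⟫_ℝ ^ 2 ≤ 1 := by
    intro y hy
    have h1 := hTT y
    rw [← hTy] at h1 ⊢
    have h2 : ⟪T y, y⟫_ℝ ≤ ‖T y‖ := by
      have := real_inner_le_norm (T y) y
      rwa [hy, mul_one] at this
    have h3 : ‖T y‖ ^ 2 ≤ ‖T y‖ := h1.trans h2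
    have h4 : ‖T y‖ ≤ 1 := by
      by_contra hc
      push Not at hc
      nlinarith [norm_nonneg (T y)]
    exact h2.trans h4
  -- trace
  let e := EuclideanSpace.basisFun (Fin n) ℝ
  have htr : ∑ a, ∑ c, w c * ∑ x ∈ B c, ⟪x, e a⟫_ℝ ^ 2 = ∑ _a : Fin n, (1 : ℝ) := by
    rw [Finset.sum_comm]
    have h1 : ∀ c, ∑ a, w c * ∑ x ∈ B c, ⟪x, e a⟫_ℝ ^ 2 = (d c : ℝ) := by
      intro c
      rw [← Finset.mul_sum, Finset.sum_comm]
      have h2 : ∀ x ∈ B c, ∑ a, ⟪x, e a⟫_ℝ ^ 2 = 1 := by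
        intro x hx
        have h3 := e.sum_sq_norm_inner_right x
        rw [hunit c x hx] at h3
        rw [show (1 : ℝ) = 1 ^ 2 by norm_num, ← h3]
        apply Finset.sum_congr rfl
        intro a _
        rw [Real.norm_eq_abs, sq_abs, real_inner_comm]
      rw [Finset.sum_congr rfl h2, Finset.sum_const, hcard c]
      have := hd' c
      simp only [w, nsmul_eq_mul, mul_one]
      push_cast
      field_simp
    simp_rw [h1]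
    simp only [Finset.sum_const, Finset.card_univ, Fintype.card_fin, nsmul_eq_mul, mul_one]
    rw [← hsum]
    push_cast
    rfl
  have hea : ∀ a, ∑ c, w c * ∑ x ∈ B c, ⟪x, e a⟫_ℝ ^ 2 = 1 := by
    have h1 := (Finset.sum_eq_sum_iff_of_le (fun a _ => hup (e a) (e.norm_eq_one a))).1 htr
    exact fun a => h1 a (mem_univ a)
  have hTe : ∀ a, T (e a) = e a := by
    intro a
    have h1 : ‖T (e a) - e a‖ ^ 2 ≤ 0 := by
      rw [norm_sub_sq_real, e.norm_eq_one, hTy, hea]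
      have := hTT (e a)
      rw [hea] at this
      linarith
    have h2 : ‖T (e a) - e a‖ = 0 := by
      have := sq_nonneg ‖T (e a) - e a‖
      have h3 : ‖T (e a) - e a‖ ^ 2 = 0 := le_antisymm h1 this
      simpa using h3
    exact sub_eq_zero.1 (norm_eq_zero.1 h2)
  -- symmetric bilinear form
  have hsym : ∀ y z, ⟪T y, z⟫_ℝ = ⟪y, T z⟫_ℝ := by
    intro y z
    change ⟪∑ c, ∑ x ∈ B c, (w c * ⟪x, y⟫_ℝ) • x, z⟫_ℝ =
      ⟪y, ∑ c, ∑ x ∈ B c, (w c * ⟪x, z⟫_ℝ) • x⟫_ℝ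
    rw [sum_inner, inner_sum]
    apply Finset.sum_congr rfl
    intro c _
    rw [sum_inner, inner_sum]
    apply Finset.sum_congr rfl
    intro x _
    rw [inner_smul_left, inner_smul_right, real_inner_comm x y]
    simp
    ring
  rw [← hTy]
  have h1 : T y = y := by
    have h2 : ∀ a, ⟪e a, T y⟫_ℝ = ⟪e a, y⟫_ℝ := by
      intro a
      rw [← hsym, hTe a]
    calc T y = ∑ a, ⟪e a, T y⟫_ℝ • e a := (e.sum_repr' (T y)).symm
      _ = ∑ a, ⟪e a, y⟫_ℝ • e a := Finset.sum_congr rfl fun a _ => by rw [h2 a]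
      _ = y := e.sum_repr' _
  rw [h1, real_inner_self_eq_norm_sq]

end

/-- A union of `k` mutually orthogonal regular simplices of dimensions `d c` with `∑ d c = n`
covers with cosine `1/√(∑ d c ^ 2)`. -/
theorem union_covers_gen {n k : ℕ} (hk : 0 < k) (d : Fin k → ℕ) (hd : ∀ c, 1 ≤ d c)
    (hsum : ∑ c, d c = n) {B : Fin k → Finset (EuclideanSpace ℝ (Fin n))}
    (hcard : ∀ c, (B c).card = d c + 1) (hunit : ∀ c, ∀ x ∈ B c, ‖x‖ = 1)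
    (hin : ∀ c, ∀ x ∈ B c, ∀ y ∈ B c, x ≠ y → ⟪x, y⟫_ℝ = -(1 / (d c : ℝ)))
    (hcross : ∀ c c', c ≠ c' → ∀ x ∈ B c, ∀ y ∈ B c', ⟪x, y⟫_ℝ = 0)
    (y : EuclideanSpace ℝ (Fin n)) (hy : ‖y‖ = 1) :
    ∃ c, ∃ x ∈ B c, 1 / √(∑ c, (d c : ℝ) ^ 2) ≤ ⟪x, y⟫_ℝ := by
  classical
  have hd' : ∀ c, (0 : ℝ) < d c := fun c => by exact_mod_cast hd c
  have : Nonempty (Fin k) := ⟨⟨0, hk⟩⟩
  by_contra hcon
  push Not at hcon
  set τ : ℝ := 1 / √(∑ c, (d c : ℝ) ^ 2) with hτ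
  have hSpos : 0 < ∑ c, (d c : ℝ) ^ 2 :=
    Finset.sum_pos (fun c _ => pow_pos (hd' c) 2) univ_nonempty
  have hτ2 : (∑ c, (d c : ℝ) ^ 2) * τ ^ 2 = 1 := by
    rw [hτ, div_pow, Real.sq_sqrt hSpos.le]
    field_simp
  have h1 := sum_sq_inner_gen hd hsum hcard hunit hin hcross y
  rw [hy] at h1
  have h2 : ∀ c, ∑ x ∈ B c, ⟪x, y⟫_ℝ ^ 2 < d c * (d c + 1) * τ ^ 2 := by
    intro c
    have hs0 : ∑ x ∈ B c, ⟪x, y⟫_ℝ = 0 := by
      rw [← sum_inner, block_sum_zero_gen hd hcard hunit hin c, inner_zero_left]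
    have hu : ∀ x ∈ B c, 0 < τ - ⟪x, y⟫_ℝ := fun x hx => sub_pos.2 (hcon c x hx)
    have hsu : ∑ x ∈ B c, (τ - ⟪x, y⟫_ℝ) = (d c + 1) * τ := by
      rw [Finset.sum_sub_distrib, hs0, Finset.sum_const, hcard c]
      simp
    have hlt : ∀ x ∈ B c, τ - ⟪x, y⟫_ℝ < (d c + 1) * τ := by
      intro x hx
      rw [← hsu]
      obtain ⟨z, hz, hzx⟩ := Finset.exists_mem_ne (by rw [hcard c]; have := hd c; omega) x
      exact Finset.single_lt_sum hzx hx hz (hu z hz) (fun w hw _ => (hu w hw).le)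
    have hne : (B c).Nonempty := by
      rw [← Finset.card_pos, hcard c]; omega
    have hsq : ∑ x ∈ B c, (τ - ⟪x, y⟫_ℝ) ^ 2 < ((d c + 1) * τ) ^ 2 := by
      calc ∑ x ∈ B c, (τ - ⟪x, y⟫_ℝ) ^ 2 < ∑ x ∈ B c, (τ - ⟪x, y⟫_ℝ) * ((d c + 1) * τ) := by
            apply Finset.sum_lt_sum_of_nonempty hne
            intro x hx
            rw [sq]
            exact mul_lt_mul_of_pos_left (hlt x hx) (hu x hx)
        _ = ((d c + 1) * τ) ^ 2 := by rw [← Finset.sum_mul, hsu]; ring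
    have hexp : ∑ x ∈ B c, ⟪x, y⟫_ℝ ^ 2 =
        ∑ x ∈ B c, (τ - ⟪x, y⟫_ℝ) ^ 2 - (d c + 1) * τ ^ 2 := by
      have h3 : ∀ x ∈ B c, ⟪x, y⟫_ℝ ^ 2 = (τ - ⟪x, y⟫_ℝ) ^ 2 + 2 * τ * ⟪x, y⟫_ℝ - τ ^ 2 := by
        intro x _; ring
      rw [Finset.sum_congr rfl h3, Finset.sum_sub_distrib, Finset.sum_add_distrib, ← Finset.mul_sum,
        hs0, Finset.sum_const, hcard c]
      simp
    rw [hexp]
    nlinarith
  have h3 : ∑ c, (d c : ℝ) / (d c + 1) * ∑ x ∈ B c, ⟪x, y⟫_ℝ ^ 2 <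
      ∑ c, (d c : ℝ) ^ 2 * τ ^ 2 := by
    apply Finset.sum_lt_sum_of_nonempty univ_nonempty
    intro c _
    have hdc := hd' c
    calc (d c : ℝ) / (d c + 1) * ∑ x ∈ B c, ⟪x, y⟫_ℝ ^ 2
        < (d c : ℝ) / (d c + 1) * (d c * (d c + 1) * τ ^ 2) :=
          mul_lt_mul_of_pos_left (h2 c) (by positivity)
      _ = (d c : ℝ) ^ 2 * τ ^ 2 := by field_simp
  rw [h1, ← Finset.sum_mul, hτ2] at h3
  norm_num at h3

end Pool.Agent.Helper66.CapBig
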